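import Pool.Agent.H294P.Good

/-!
Elements of the absolute Galois group coming from a place of bad reduction without fixed points of
the quadratic polynomial over the completion.
-/

set_option autoImplicit false
set_option maxHeartbeats 400000

namespace Pool.Agent.H294P

open Polynomial NumberField Finset
open Pool.Agent.W569.FM

theorem restrict (F Ω : Type) [Field F] [Field Ω] [IsAlgClosed Ω] [Algebra F Ω] :
    ∃ io : AlgebraicClosure F →+* Ω, (∀ q : F, io (algebraMap F _ q) = algebraMap F Ω q) ∧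
      ∀ χ : Ω ≃+* Ω, (∀ q : F, χ (algebraMap F Ω q) = algebraMap F Ω q) →
        ∃ σ : GF F, ∀ x, io (σ x) = χ (io x) := by
  have halg : Algebra.IsAlgebraic F (AlgebraicClosure F) := AlgebraicClosure.isAlgebraic F
  let io : AlgebraicClosure F →ₐ[F] Ω := IsAlgClosed.lift
  refine ⟨io.toRingHom, fun q => io.commutes q, fun χ hχ => ?_⟩
  let _ : Algebra (AlgebraicClosure F) Ω := io.toRingHom.toAlgebra
  have : IsScalarTower F (AlgebraicClosure F) Ω := IsScalarTower.of_algebraMap_eq fun q =>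
    (io.commutes q).symm
  have : Normal F (AlgebraicClosure F) := IsAlgClosure.normal F _
  let χ' : Ω ≃ₐ[F] Ω := AlgEquiv.ofRingEquiv (f := χ) hχ
  exact ⟨χ'.restrictNormal _, fun x => AlgEquiv.restrictNormal_commutes χ' _ x⟩

/-- a root of the dynatomic polynomial is a periodic point -/
theorem periodic_of_root {K : Type*} [Field K] {g : K[X]} {n : ℕ} {W : K[X]}
    (hW : Ap g n = Am g n * W) {x : K} (hx : W.eval x = 0) :
    ∃ d : ℕ, d ≠ 0 ∧ (fun y => g.eval y)^[d] x = x := by
  have h1 : (Ap g n).eval x = 0 := by rw [hW, eval_mul, hx, mul_zero]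
  unfold Ap at h1
  rw [eval_prod, Finset.prod_eq_zero_iff] at h1
  obtain ⟨d, hd, hd0⟩ := h1
  refine ⟨d, (Nat.pos_of_mem_divisors (Finset.mem_filter.1 hd).1).ne', ?_⟩
  rw [eval_sub, eval_X, eval_it, sub_eq_zero] at hd0
  exact hd0

theorem io_iter {Ω : Type*} [Field Ω] [CharZero Ω] (io : QB →+* Ω) (c : ℚ) (d : ℕ) (x : QB) :
    io ((fun y => (X ^ 2 + C (c : QB)).eval y)^[d] x) = (fun y => y ^ 2 + (c : Ω))^[d] (io x) := by
  induction d with
  | zero => rfl
  | succ d ih =>
    rw [Function.iterate_succ_apply', Function.iterate_succ_apply', ← ih]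
    simp

/-- the real place -/
theorem good_real {c : ℚ} (h : ∀ x : ℝ, x ^ 2 + c ≠ x) (n : ℕ) : Good c n := by
  obtain ⟨io, _, hio⟩ := restrict ℚ ℂ
  obtain ⟨σ, hσ⟩ := hio (starRingAut (R := ℂ)) (fun q => by simp)
  refine ⟨σ, fun W hW x hx hfix => ?_⟩
  obtain ⟨d, hd, hdx⟩ := periodic_of_root hW hx
  have h1 := hσ x
  rw [hfix] at h1
  obtain ⟨r, hr⟩ := Complex.conj_eq_iff_real.1 h1.symm
  have hc : (1 : ℝ) - 4 * c < 0 := by
    by_contra hcon
    push Not at hcon
    apply h ((1 + Real.sqrt (1 - 4 * c)) / 2)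
    have := Real.mul_self_sqrt hcon
    nlinarith
  have hpos : ∀ y : ℝ, y < y ^ 2 + c := by
    intro y
    nlinarith [sq_nonneg (y - 1 / 2)]
  have hit : ∀ i : ℕ, r < (fun y : ℝ => y ^ 2 + (c : ℝ))^[i + 1] r := by
    intro i
    induction i with
    | zero => exact hpos r
    | succ i ih =>
      rw [Function.iterate_succ_apply']
      exact ih.trans (hpos _)
  have hcx : ∀ i : ℕ, (((fun y : ℝ => y ^ 2 + (c : ℝ))^[i] r : ℝ) : ℂ) =
      (fun y : ℂ => y ^ 2 + (c : ℂ))^[i] (r : ℂ) := by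
    intro i
    induction i with
    | zero => rfl
    | succ i ih =>
      rw [Function.iterate_succ_apply', Function.iterate_succ_apply', ← ih]
      push_cast
      rfl
  have h2 := congrArg io hdx
  rw [io_iter, hr, ← hcx] at h2
  have h3 : (fun y : ℝ => y ^ 2 + (c : ℝ))^[d] r = r := by exact_mod_cast h2
  obtain ⟨i, rfl⟩ := Nat.exists_eq_succ_of_ne_zero hd
  exact absurd h3 (hit i).ne'

/-- escape in a non-archimedean field -/
theorem escape {Ω : Type*} [NormedField Ω] [IsUltrametricDist Ω] {l z : Ω} (hl : 1 < ‖l‖) {d : ℕ}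
    (hd : d ≠ 0) (hz : (fun y => y * (y + l))^[d] z = z) : ‖z‖ ≤ ‖l‖ := by
  by_contra hcon
  push Not at hcon
  have hstep : ∀ w : Ω, ‖l‖ < ‖w‖ → ‖w‖ < ‖w * (w + l)‖ := by
    intro w hw
    have h1 : ‖w + l‖ = ‖w‖ := by
      rw [IsUltrametricDist.norm_add_eq_max_of_norm_ne_norm hw.ne', max_eq_left hw.le]
    rw [norm_mul, h1]
    nlinarith
  have hit : ∀ i : ℕ, ‖z‖ < ‖(fun y => y * (y + l))^[i + 1] z‖ := by
    intro i
    induction i with
    | zero => exact hstep z hcon
    | succ i ih =>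
      rw [Function.iterate_succ_apply']
      exact ih.trans (hstep _ (hcon.trans ih))
  obtain ⟨i, rfl⟩ := Nat.exists_eq_succ_of_ne_zero hd
  have := hit i
  rw [hz] at this
  exact lt_irrefl _ this

theorem periodic_near {Ω : Type*} [NormedField Ω] [IsUltrametricDist Ω] {l z : Ω} (hl : 1 < ‖l‖)
    {d : ℕ} (hd : d ≠ 0) (hz : (fun y => y * (y + l))^[d] z = z) :
    ‖z‖ < ‖l‖ ∨ ‖z + l‖ < ‖l‖ := by
  by_contra hcon
  push Not at hcon
  obtain ⟨h1, h2⟩ := hcon
  have hz' : (fun y => y * (y + l))^[d] (z * (z + l)) = z * (z + l) := by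
    have h3 : z * (z + l) = (fun y => y * (y + l)) z := rfl
    rw [h3, ← Function.iterate_succ_apply, Function.iterate_succ_apply', hz]
  have h4 := escape hl hd hz'
  rw [norm_mul] at h4
  nlinarith

/-- a place of bad reduction -/
theorem good_bad (l : ℕ) [Fact l.Prime] {c : ℚ} (hc : 1 < padicNorm l (4 * c))
    (h : ∀ x : ℚ_[l], x ^ 2 + c ≠ x) (n : ℕ) : Good c n := by
  obtain ⟨io, _, hio⟩ := restrict ℚ (PadicAlgCl l)
  -- a fixed point
  obtain ⟨β, hβ⟩ : ∃ β : (PadicAlgCl l), β ^ 2 + (c : (PadicAlgCl l)) = β := by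
    have hdeg : (X ^ 2 - X + C (c : (PadicAlgCl l)) : (PadicAlgCl l)[X]).degree ≠ 0 := by
      have : (X ^ 2 - X + C (c : (PadicAlgCl l)) : (PadicAlgCl l)[X]).degree = 2 := by compute_degree!
      rw [this]
      norm_num
    obtain ⟨β, hβ⟩ := IsAlgClosed.exists_root (X ^ 2 - X + C (c : (PadicAlgCl l)) : (PadicAlgCl l)[X]) hdeg
    refine ⟨β, ?_⟩
    have h1 : β ^ 2 - β + (c : (PadicAlgCl l)) = 0 := by simpa using hβ
    linear_combination h1
  have hnb : ¬ ∀ τ : Gal((PadicAlgCl l)/ℚ_[l]), τ β = β := by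
    intro hall
    have hgal : IsGalois ℚ_[l] (PadicAlgCl l) := inferInstance
    rw [← InfiniteGalois.mem_bot_iff_fixed, IntermediateField.mem_bot] at hall
    obtain ⟨y, hy⟩ := hall
    apply h y
    apply (algebraMap ℚ_[l] (PadicAlgCl l)).injective
    rw [map_add, map_pow, hy, map_ratCast]
    exact hβ
  push Not at hnb
  obtain ⟨τ, hτ⟩ := hnb
  obtain ⟨σ, hσ⟩ := hio τ.toRingEquiv (fun q => by simp)
  have hτβ : τ β = 1 - β := by
    have h1 := congrArg τ hβ
    rw [map_add, map_pow, map_ratCast] at h1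
    have h2 : (τ β - β) * (τ β - (1 - β)) = 0 := by linear_combination h1 - hβ
    rcases mul_eq_zero.1 h2 with h3 | h3
    · exact absurd (sub_eq_zero.1 h3) hτ
    · exact sub_eq_zero.1 h3
  have hnorm : ∀ w : (PadicAlgCl l), ‖τ w‖ = ‖w‖ := fun w => (spectralNorm_eq_of_equiv τ w).symm
  set L : (PadicAlgCl l) := 2 * β with hL
  have hnc : (1 : ℝ) < ‖(4 * c : (PadicAlgCl l))‖ := by
    have h1 : ((4 * c : (PadicAlgCl l))) = algebraMap ℚ_[l] (PadicAlgCl l) ((4 * c : ℚ) : ℚ_[l]) := by
      rw [map_ratCast]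
      push_cast
      ring
    rw [h1, PadicAlgCl.norm_extends]
    rw [Padic.eq_padicNorm]
    exact_mod_cast hc
  have hnat1 : ‖(2 : (PadicAlgCl l))‖ ≤ 1 := by
    have := IsUltrametricDist.norm_natCast_le_one (PadicAlgCl l) 2
    simpa using this
  have hL1 : 1 < ‖L‖ := by
    by_contra hcon
    push Not at hcon
    have h1 : (4 * c : (PadicAlgCl l)) = 2 * L + -(L * L) := by
      rw [hL]
      linear_combination 4 * hβ
    have h2 : ‖(4 * c : (PadicAlgCl l))‖ ≤ 1 := by
      rw [h1]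
      refine (IsUltrametricDist.norm_add_le_max _ _).trans (max_le ?_ ?_)
      · rw [norm_mul]
        exact mul_le_one₀ hnat1 (norm_nonneg _) hcon
      · rw [norm_neg, norm_mul]
        exact mul_le_one₀ hcon (norm_nonneg _) hcon
    linarith
  refine ⟨σ, fun W hW x hx hfix => ?_⟩
  obtain ⟨d, hd, hdx⟩ := periodic_of_root hW hx
  have hy : τ (io x) = io x := by
    have := hσ x
    rw [hfix] at this
    exact this.symm
  set y := io x with hydef
  set z := y - β with hz
  have hyd : (fun y => y ^ 2 + (c : (PadicAlgCl l)))^[d] y = y := by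
    have := congrArg io hdx
    rw [io_iter] at this
    exact this
  have hconj : ∀ (i : ℕ), (fun w => w * (w + L))^[i] z = (fun y => y ^ 2 + (c : (PadicAlgCl l)))^[i] y - β := by
    intro i
    induction i with
    | zero => rfl
    | succ i ih =>
      rw [Function.iterate_succ_apply', Function.iterate_succ_apply', ih, hL]
      linear_combination (-1 : (PadicAlgCl l)) * hβ
  have hzd : (fun w => w * (w + L))^[d] z = z := by rw [hconj, hyd]
  have hτz : τ z = z + L - 1 := by
    rw [hz, map_sub, hy, hτβ, hL]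
    ring
  have hn := hnorm z
  rw [hτz] at hn
  have h1 : ‖(1 : (PadicAlgCl l))‖ = 1 := norm_one
  rcases periodic_near hL1 hd hzd with h3 | h3
  · have h4 : ‖z - 1‖ < ‖L‖ := by
      rw [sub_eq_add_neg]
      refine lt_of_le_of_lt (IsUltrametricDist.norm_add_le_max _ _) (max_lt h3 ?_)
      rw [norm_neg, h1]
      exact hL1
    have h5 : ‖z + L - 1‖ = ‖L‖ := by
      rw [show z + L - 1 = L + (z - 1) by ring,
        IsUltrametricDist.norm_add_eq_max_of_norm_ne_norm h4.ne', max_eq_left h4.le]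
    rw [h5] at hn
    linarith
  · have h4 : ‖z‖ = ‖L‖ := by
      rw [show z = (z + L) + (-L) by ring,
        IsUltrametricDist.norm_add_eq_max_of_norm_ne_norm (by rw [norm_neg]; exact h3.ne),
        norm_neg, max_eq_right h3.le]
    have h5 : ‖z + L - 1‖ < ‖L‖ := by
      rw [sub_eq_add_neg]
      refine lt_of_le_of_lt (IsUltrametricDist.norm_add_le_max _ _) (max_lt h3 ?_)
      rw [norm_neg, h1]
      exact hL1
    rw [hn, h4] at h5
    exact lt_irrefl _ h5

end Pool.Agent.H294P
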