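import Pool.Agent.H294P.Main

/-!
Burnside's lemma and the number of irreducible factors of the dynatomic polynomial.
-/

set_option autoImplicit false
set_option maxHeartbeats 400000

namespace Pool.Agent.H294P

open Polynomial NumberField
open Pool.Agent.W569.FM

/-- if every element has at least `n` fixed points and there are more than `n` points then there
are more than `n` orbits -/
theorem burnside {G X : Type*} [Group G] [Finite X] [MulAction G X] {n : ℕ}
    (hfix : ∀ g : G, n ≤ Nat.card {x : X // g • x = x}) (hX : n < Nat.card X) :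
    n < Nat.card (Quotient (MulAction.orbitRel G X)) := by
  classical
  set H : Subgroup (Equiv.Perm X) := (MulAction.toPermHom G X).range with hH
  have hrel : MulAction.orbitRel H X = MulAction.orbitRel G X := by
    ext x y
    rw [MulAction.orbitRel_apply, MulAction.orbitRel_apply, MulAction.mem_orbit_iff,
      MulAction.mem_orbit_iff]
    constructor
    · rintro ⟨⟨_, ⟨g, rfl⟩⟩, hg⟩
      exact ⟨g, hg⟩
    · rintro ⟨g, hg⟩
      exact ⟨⟨_, ⟨g, rfl⟩⟩, hg⟩
  rw [← hrel]
  have : Finite H := inferInstance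
  let _ := Fintype.ofFinite H
  let _ := Fintype.ofFinite X
  let _ := Fintype.ofFinite (Quotient (MulAction.orbitRel H X))
  have B := MulAction.sum_card_fixedBy_eq_card_orbits_mul_card_group H X
  have h1 : ∀ h : H, n ≤ Fintype.card (MulAction.fixedBy X h) := by
    rintro ⟨_, ⟨g, rfl⟩⟩
    rw [← Nat.card_eq_fintype_card]
    exact hfix g
  have h2 : n < Fintype.card (MulAction.fixedBy X (1 : H)) := by
    rw [← Nat.card_eq_fintype_card]
    have h3 : Nat.card (MulAction.fixedBy X (1 : H)) = Nat.card X := by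
      apply Nat.card_congr
      exact (Equiv.subtypeUnivEquiv (fun x => by
        change (1 : H) • x = x
        exact one_smul _ x))
    rw [h3]
    exact hX
  have h4 : n * Fintype.card H < ∑ h : H, Fintype.card (MulAction.fixedBy X h) := by
    have h5 : n * Fintype.card H = ∑ _h : H, n := by
      rw [Finset.sum_const, Finset.card_univ, smul_eq_mul, mul_comm]
    rw [h5]
    exact Finset.sum_lt_sum (fun h _ => h1 h) ⟨1, Finset.mem_univ _, h2⟩
  rw [B] at h4
  rw [Nat.card_eq_fintype_card]
  exact lt_of_mul_lt_mul_right h4 (Nat.zero_le _)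

/-- a fixed point and the size of `2 β` at a place of bad reduction -/
theorem bad_setup (l : ℕ) [Fact l.Prime] {c : ℚ} (hc : 1 < padicNorm l (4 * c)) :
    ∃ β : PadicAlgCl l, β ^ 2 + (c : PadicAlgCl l) = β ∧ 1 < ‖2 * β‖ := by
  obtain ⟨β, hβ⟩ : ∃ β : PadicAlgCl l, β ^ 2 + (c : PadicAlgCl l) = β := by
    have hdeg : (X ^ 2 - X + C (c : PadicAlgCl l) : (PadicAlgCl l)[X]).degree ≠ 0 := by
      have : (X ^ 2 - X + C (c : PadicAlgCl l) : (PadicAlgCl l)[X]).degree = 2 := by
        compute_degree!
      rw [this]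
      norm_num
    obtain ⟨β, hβ⟩ := IsAlgClosed.exists_root (X ^ 2 - X + C (c : PadicAlgCl l)) hdeg
    refine ⟨β, ?_⟩
    have h1 : β ^ 2 - β + (c : PadicAlgCl l) = 0 := by simpa using hβ
    linear_combination h1
  refine ⟨β, hβ, ?_⟩
  have hnc : (1 : ℝ) < ‖(4 * c : PadicAlgCl l)‖ := by
    have h1 : ((4 * c : PadicAlgCl l)) = algebraMap ℚ_[l] (PadicAlgCl l) ((4 * c : ℚ) : ℚ_[l]) := by
      rw [map_ratCast]
      push_cast
      ring
    rw [h1, PadicAlgCl.norm_extends]
    rw [Padic.eq_padicNorm]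
    exact_mod_cast hc
  have hnat1 : ‖(2 : PadicAlgCl l)‖ ≤ 1 := by
    have := IsUltrametricDist.norm_natCast_le_one (PadicAlgCl l) 2
    simpa using this
  by_contra hcon
  push Not at hcon
  have h1 : (4 * c : PadicAlgCl l) = 2 * (2 * β) + -((2 * β) * (2 * β)) := by
    linear_combination 4 * hβ
  have h2 : ‖(4 * c : PadicAlgCl l)‖ ≤ 1 := by
    rw [h1]
    refine (IsUltrametricDist.norm_add_le_max _ _).trans (max_le ?_ ?_)
    · rw [norm_mul]
      exact mul_le_one₀ hnat1 (norm_nonneg _) hcon
    · rw [norm_neg, norm_mul]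
      exact mul_le_one₀ hcon (norm_nonneg _) hcon
  linarith

/-- the derivative of the iterate -/
theorem derivative_it_prod {K : Type*} [Field K] (a t : K) (m : ℕ) :
    (derivative (it (X ^ 2 + C a) m)).eval t =
      ∏ i ∈ Finset.range m, (2 * (fun y => y ^ 2 + a)^[i] t) := by
  induction m with
  | zero => simp [it_zero]
  | succ m ih =>
    have h1 : (fun y : K => (X ^ 2 + C a).eval y) = fun y => y ^ 2 + a := by
      funext y
      simp
    have h2 : ∀ s : K, (derivative (X ^ 2 + C a)).eval s = 2 * s := by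
      intro s
      simp
      left
      norm_num
    rw [it_succ, derivative_comp, eval_mul, ih, eval_comp, eval_it, h1, h2,
      Finset.prod_range_succ]

/-- at a place of bad reduction the multipliers are large -/
theorem big_multiplier (l : ℕ) [Fact l.Prime] {c : ℚ} (hc : 1 < padicNorm l (4 * c))
    {y : PadicAlgCl l} {d : ℕ} (hd : d ≠ 0)
    (hy : (fun y => y ^ 2 + (c : PadicAlgCl l))^[d] y = y) : 1 < ‖2 * y‖ := by
  obtain ⟨β, hβ, hL⟩ := bad_setup l hc
  set z := y - β with hz
  have hconj : ∀ (i : ℕ), (fun w => w * (w + 2 * β))^[i] z =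
      (fun y => y ^ 2 + (c : PadicAlgCl l))^[i] y - β := by
    intro i
    induction i with
    | zero => rfl
    | succ i ih =>
      rw [Function.iterate_succ_apply', Function.iterate_succ_apply', ih]
      linear_combination (-1 : PadicAlgCl l) * hβ
  have hzd : (fun w => w * (w + 2 * β))^[d] z = z := by rw [hconj, hy]
  have hnat1 : ‖(2 : PadicAlgCl l)‖ ≤ 1 := by
    have := IsUltrametricDist.norm_natCast_le_one (PadicAlgCl l) 2
    simpa using this
  have hnat : ∀ w : PadicAlgCl l, ‖2 * w‖ ≤ ‖w‖ := by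
    intro w
    rw [norm_mul]
    exact mul_le_of_le_one_left (norm_nonneg _) hnat1
  rcases periodic_near hL hd hzd with h3 | h3
  · have h4 : ‖2 * z‖ < ‖2 * β‖ := lt_of_le_of_lt (hnat z) h3
    have h5 : ‖2 * y‖ = ‖2 * β‖ := by
      rw [show 2 * y = 2 * β + 2 * z by rw [hz]; ring,
        IsUltrametricDist.norm_add_eq_max_of_norm_ne_norm h4.ne', max_eq_left h4.le]
    rw [h5]
    exact hL
  · have h4 : ‖2 * (z + 2 * β)‖ < ‖2 * β‖ := lt_of_le_of_lt (hnat _) h3
    have h5 : ‖2 * y‖ = ‖2 * β‖ := by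
      rw [show 2 * y = 2 * (z + 2 * β) + -(2 * β) by rw [hz]; ring,
        IsUltrametricDist.norm_add_eq_max_of_norm_ne_norm (by rw [norm_neg]; exact h4.ne),
        norm_neg, max_eq_right h4.le]
    rw [h5]
    exact hL

/-- the periodic points -/
theorem mult_ne {l : ℕ} [Fact l.Prime] {c : ℚ} (hc : 1 < padicNorm l (4 * c)) {x : QB} {m j : ℕ}
    (hm : m ≠ 0) (hj : j ≠ 0) (hx : (it (X ^ 2 + C (c : QB)) m).eval x = x) :
    (derivative (it (X ^ 2 + C (c : QB)) m)).eval x ^ j ≠ 1 := by
  obtain ⟨io, _, _⟩ := restrict ℚ (PadicAlgCl l)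
  intro h1
  have h2 := congrArg io h1
  rw [derivative_it_prod, map_pow, map_prod, map_one] at h2
  have h3 := congrArg norm h2
  rw [norm_pow, norm_prod, norm_one] at h3
  have hfun : (fun y => (X ^ 2 + C (c : QB)).eval y) = fun y : QB => y ^ 2 + (c : QB) := by
    funext y
    simp
  have hper : ∀ i : ℕ, (fun y => y ^ 2 + (c : PadicAlgCl l))^[m]
      (io ((fun y => y ^ 2 + (c : QB))^[i] x)) = io ((fun y => y ^ 2 + (c : QB))^[i] x) := by
    intro i
    rw [← io_iter, hfun]
    congr 1
    have hx' : (fun y => y ^ 2 + (c : QB))^[m] x = x := by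
      rw [eval_it, hfun] at hx
      exact hx
    rw [← Function.iterate_add_apply, add_comm, Function.iterate_add_apply, hx']
  have h4 : 1 < ∏ i ∈ Finset.range m, ‖io (2 * (fun y => y ^ 2 + (c : QB))^[i] x)‖ := by
    obtain ⟨m', rfl⟩ := Nat.exists_eq_succ_of_ne_zero hm
    have h5 : ∀ i : ℕ, 1 < ‖io (2 * (fun y => y ^ 2 + (c : QB))^[i] x)‖ := by
      intro i
      rw [map_mul, map_ofNat]
      exact big_multiplier l hc hm (hper i)
    have h6 : ∏ i ∈ Finset.range (m' + 1), (1 : ℝ) <
        ∏ i ∈ Finset.range (m' + 1), ‖io (2 * (fun y => y ^ 2 + (c : QB))^[i] x)‖ :=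
      Finset.prod_lt_prod_of_nonempty (fun i _ => one_pos) (fun i _ => h5 i)
        ⟨0, Finset.mem_range.2 (Nat.succ_pos _)⟩
    rwa [Finset.prod_const_one] at h6
  have h7 : 1 < (∏ i ∈ Finset.range m, ‖io (2 * (fun y => y ^ 2 + (c : QB))^[i] x)‖) ^ j :=
    one_lt_pow₀ h4 hj
  rw [h3] at h7
  exact lt_irrefl _ h7

/-- the roots of the dynatomic polynomial have exact period `n` -/
theorem exact_of_root {l : ℕ} [Fact l.Prime] {c : ℚ} (hc : 1 < padicNorm l (4 * c)) {n : ℕ}
    (hn : n ≠ 0) {W : QB[X]}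
    (hW : Ap (X ^ 2 + C (c : QB)) n = Am (X ^ 2 + C (c : QB)) n * W) {x : QB}
    (hx : W.eval x = 0) :
    Function.minimalPeriod (fun y => (X ^ 2 + C (c : QB)).eval y) x = n := by
  have hloc := local_root (p := 0) (natDegree_X_pow_add_C : (X ^ 2 + C (c : QB)).natDegree = 2)
    hn hW hx
  obtain ⟨hmn, h | ⟨e, h⟩⟩ := hloc
  · exact h.symm
  · exfalso
    set m := Function.minimalPeriod (fun y => (X ^ 2 + C (c : QB)).eval y) x with hm
    have hm0 : m ≠ 0 := by
      intro h0
      rw [h0, zero_dvd_iff] at hmn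
      exact hn hmn
    have hper : (it (X ^ 2 + C (c : QB)) m).eval x = x := by
      rw [eval_it]
      exact Function.iterate_minimalPeriod
    have hord : orderOf ((derivative (it (X ^ 2 + C (c : QB)) m)).eval x) = 0 := by
      rw [orderOf_eq_zero_iff']
      intro j hj
      exact mult_ne hc hm0 hj.ne' hper
    rw [hord] at h
    simp at h
    exact hn h

/-- the map `y ↦ y² + c` on the algebraic numbers -/
noncomputable def fc (c : ℚ) : QB → QB := fun y => y ^ 2 + (c : QB)

theorem fc_eq (c : ℚ) : (fun y => (X ^ 2 + C (c : QB)).eval y) = fc c := by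
  funext y
  simp [fc]

theorem fc_gal (c : ℚ) (σ : GF ℚ) (i : ℕ) (y : QB) : (fc c)^[i] (σ y) = σ ((fc c)^[i] y) := by
  induction i with
  | zero => rfl
  | succ i ih =>
    rw [Function.iterate_succ_apply', Function.iterate_succ_apply', ih]
    unfold fc
    rw [map_add, map_pow, map_ratCast]

theorem minp_gal (c : ℚ) (σ : GF ℚ) (y : QB) :
    Function.minimalPeriod (fc c) (σ y) = Function.minimalPeriod (fc c) y := by
  rw [Function.minimalPeriod_eq_minimalPeriod_iff]
  intro d
  unfold Function.IsPeriodicPt Function.IsFixedPt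
  rw [fc_gal]
  exact σ.injective.eq_iff

/-- the points of exact period `n` -/
def PP (c : ℚ) (n : ℕ) : Type := {y : QB // Function.minimalPeriod (fc c) y = n}

noncomputable instance (c : ℚ) (n : ℕ) : MulAction (GF ℚ) (PP c n) where
  smul σ y := ⟨σ y.1, by rw [minp_gal]; exact y.2⟩
  one_smul y := rfl
  mul_smul σ τ y := rfl

theorem smul_coe (c : ℚ) (n : ℕ) (σ : GF ℚ) (y : PP c n) : (σ • y).1 = σ y.1 := rfl

theorem iter_minp (c : ℚ) (n : ℕ) (y : PP c n) : (fc c)^[n] y.1 = y.1 := by
  have := Function.iterate_minimalPeriod (f := fc c) (x := y.1)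
  rwa [y.2] at this

/-- roots of `f^d - X` -/
noncomputable def Rt (c : ℚ) (d : ℕ) : Finset QB := by
  classical exact (it (X ^ 2 + C (c : QB)) d - X).roots.toFinset

theorem mem_Rt (c : ℚ) {d : ℕ} (hd : d ≠ 0) (y : QB) : y ∈ Rt c d ↔ (fc c)^[d] y = y := by
  classical
  unfold Rt
  rw [Multiset.mem_toFinset, mem_roots (itX_ne_zero natDegree_X_pow_add_C hd), IsRoot, eval_sub,
    eval_X, eval_it, fc_eq, sub_eq_zero]

theorem card_Rt_le (c : ℚ) {d : ℕ} (hd : d ≠ 0) : (Rt c d).card ≤ 2 ^ d := by
  classical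
  unfold Rt
  refine (Multiset.toFinset_card_le _).trans ?_
  refine (card_roots' _).trans ?_
  rw [natDegree_itX natDegree_X_pow_add_C hd]

theorem card_Rt {l : ℕ} [Fact l.Prime] {c : ℚ} (hc : 1 < padicNorm l (4 * c)) {d : ℕ}
    (hd : d ≠ 0) : (Rt c d).card = 2 ^ d := by
  classical
  have h0 := itX_ne_zero (natDegree_X_pow_add_C : (X ^ 2 + C (c : QB)).natDegree = 2) hd
  have hnd : (it (X ^ 2 + C (c : QB)) d - X).roots.Nodup := by
    rw [Multiset.nodup_iff_count_le_one]
    intro x
    rw [count_roots]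
    by_cases hx : (it (X ^ 2 + C (c : QB)) d - X).IsRoot x
    · rw [IsRoot, eval_sub, eval_X, sub_eq_zero] at hx
      refine (ord_eq_one ?_ ?_).le
      · rw [eval_sub, eval_X, hx, sub_self]
      · rw [derivative_sub, eval_sub, derivative_X, eval_one]
        have := mult_ne hc hd one_ne_zero hx
        rw [pow_one] at this
        exact sub_ne_zero.2 this
    · rw [rootMultiplicity_eq_zero hx]
      exact Nat.zero_le _
  unfold Rt
  rw [Multiset.toFinset_card_of_nodup hnd]
  have h1 := (IsAlgClosed.splits (it (X ^ 2 + C (c : QB)) d - X)).natDegree_eq_card_roots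
  rw [← h1, natDegree_itX natDegree_X_pow_add_C hd]

theorem PP_finite (c : ℚ) {n : ℕ} (hn : n ≠ 0) : Finite (PP c n) := by
  apply Finite.of_injective (fun y : PP c n => (⟨y.1, by
    rw [mem_Rt c hn]
    exact iter_minp c n y⟩ : {x // x ∈ Rt c n}))
  intro y z h
  exact Subtype.ext (congrArg (fun w : {x // x ∈ Rt c n} => w.1) h)

theorem card_PP {l : ℕ} [Fact l.Prime] {c : ℚ} (hc : 1 < padicNorm l (4 * c)) {n : ℕ}
    (hn : 3 < n) : n < Nat.card (PP c n) := by
  classical
  have hn0 : n ≠ 0 := by omega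
  have h1 : Nat.card (PP c n) =
      ((Rt c n).filter (fun y => Function.minimalPeriod (fc c) y = n)).card := by
    change Nat.card {y : QB // Function.minimalPeriod (fc c) y = n} = _
    apply Nat.subtype_card
    intro y
    rw [Finset.mem_filter]
    constructor
    · exact fun h => h.2
    · intro h
      refine ⟨?_, h⟩
      rw [mem_Rt c hn0]
      exact iter_minp c n ⟨y, h⟩
  have h2 : (Rt c n) ⊆ ((Rt c n).filter (fun y => Function.minimalPeriod (fc c) y = n)) ∪
      n.properDivisors.biUnion (Rt c) := by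
    intro y hy
    by_cases h3 : Function.minimalPeriod (fc c) y = n
    · exact Finset.mem_union_left _ (Finset.mem_filter.2 ⟨hy, h3⟩)
    · apply Finset.mem_union_right
      rw [mem_Rt c hn0] at hy
      have h4 : Function.minimalPeriod (fc c) y ∣ n := Function.IsPeriodicPt.minimalPeriod_dvd hy
      have h5 : Function.minimalPeriod (fc c) y ≠ 0 := by
        intro h6
        rw [h6, zero_dvd_iff] at h4
        exact hn0 h4
      rw [Finset.mem_biUnion]
      refine ⟨Function.minimalPeriod (fc c) y, ?_, ?_⟩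
      · rw [Nat.mem_properDivisors]
        exact ⟨h4, lt_of_le_of_ne (Nat.le_of_dvd (by omega) h4) h3⟩
      · rw [mem_Rt c h5]
        exact Function.iterate_minimalPeriod
  have h3 := Finset.card_le_card h2
  rw [card_Rt hc hn0] at h3
  have h4 : (n.properDivisors.biUnion (Rt c)).card < 2 ^ (n / 2 + 1) := by
    refine lt_of_le_of_lt Finset.card_biUnion_le ?_
    refine lt_of_le_of_lt (Finset.sum_le_sum (fun d hd => card_Rt_le c ?_)) ?_
    · intro h0
      rw [h0, Nat.mem_properDivisors] at hd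
      exact hn0 (Nat.eq_zero_of_zero_dvd hd.1)
    · apply Nat.geomSum_lt le_rfl
      intro d hd
      rw [Nat.mem_properDivisors] at hd
      obtain ⟨⟨t, ht⟩, hlt⟩ := hd
      have ht2 : 2 ≤ t := by
        by_contra h
        have : t = 0 ∨ t = 1 := by omega
        rcases this with rfl | rfl
        · omega
        · omega
      have : d * 2 ≤ n := by
        rw [ht]
        exact Nat.mul_le_mul_left d ht2
      omega
  have h5 := Finset.card_union_le
    ((Rt c n).filter (fun y => Function.minimalPeriod (fc c) y = n)) (n.properDivisors.biUnion (Rt c))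
  have h6 : 2 ^ (n / 2 + 1) ≤ 2 ^ (n - 1) := Nat.pow_le_pow_right (by norm_num) (by omega)
  have h7 : n ≤ 2 ^ (n - 1) := by
    have := Nat.lt_two_pow_self (n := n - 1)
    omega
  have h8 : 2 ^ n = 2 ^ (n - 1) + 2 ^ (n - 1) := by
    obtain ⟨k, rfl⟩ := Nat.exists_eq_succ_of_ne_zero hn0
    rw [Nat.succ_eq_add_one, Nat.add_sub_cancel, pow_succ]
    ring
  rw [h1]
  omega

theorem many_orbits {l : ℕ} [Fact l.Prime] {c : ℚ} (hc : 1 < padicNorm l (4 * c)) {n : ℕ}
    (hn : 3 < n) (hG : ¬ Good c n) :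
    n < Nat.card (Quotient (MulAction.orbitRel (GF ℚ) (PP c n))) := by
  have hn0 : n ≠ 0 := by omega
  have := PP_finite c hn0
  refine burnside (fun σ => ?_) (card_PP hc hn)
  unfold Good at hG
  push Not at hG
  obtain ⟨W, hW, x, hx, hfix⟩ := hG σ
  have hex := exact_of_root hc hn0 hW hx
  rw [fc_eq] at hex
  -- the orbit of `x`
  have hper : x ∈ Function.periodicPts (fc c) := by
    rw [← Function.minimalPeriod_pos_iff_mem_periodicPts, hex]
    omega
  have hmem : ∀ i : ℕ, Function.minimalPeriod (fc c) ((fc c)^[i] x) = n := by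
    intro i
    rw [Function.minimalPeriod_apply_iterate hper, hex]
  have hfixi : ∀ i : ℕ, σ ((fc c)^[i] x) = (fc c)^[i] x := by
    intro i
    rw [← fc_gal, hfix]
  have hinj : Function.Injective (fun i : Fin n =>
      (⟨⟨(fc c)^[i.1] x, hmem i.1⟩, Subtype.ext (hfixi i.1)⟩ : {y : PP c n // σ • y = y})) := by
    intro i j hij
    have h1 : (fc c)^[i.1] x = (fc c)^[j.1] x :=
      congrArg (fun w : {y : PP c n // σ • y = y} => w.1.1) hij
    have h2 := Function.iterate_injOn_Iio_minimalPeriod (f := fc c) (x := x)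
    rw [hex] at h2
    exact Fin.ext (h2 (Set.mem_Iio.2 i.2) (Set.mem_Iio.2 j.2) h1)
  have := Nat.card_le_card_of_injective _ hinj
  rwa [Nat.card_fin] at this

/-- the minimal polynomial -/
noncomputable def mp {F : Type} [Field F] (x : AlgebraicClosure F) : F[X] := minpoly F x

theorem mp_facts {F : Type} [Field F] (x : AlgebraicClosure F) :
    (mp x).Monic ∧ Irreducible (mp x) := by
  have halg : Algebra.IsAlgebraic F (AlgebraicClosure F) := AlgebraicClosure.isAlgebraic F
  have hi : IsIntegral F x := (Algebra.IsAlgebraic.isAlgebraic x).isIntegral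
  exact ⟨minpoly.monic hi, minpoly.irreducible hi⟩

theorem mp_dvd {F : Type} [Field F] (x : AlgebraicClosure F) {g : F[X]}
    {j : F →+* AlgebraicClosure F} (hj : j = algebraMap F _) (h : (g.map j).eval x = 0) :
    mp x ∣ g := by
  apply minpoly.dvd
  rw [hj, eval_map_algebraMap] at h
  exact h

theorem mp_conj {F : Type} [Field F] {x y : AlgebraicClosure F} (h : mp x = mp y) :
    ∃ σ : GF F, σ x = y := by
  have halg : Algebra.IsAlgebraic F (AlgebraicClosure F) := AlgebraicClosure.isAlgebraic F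
  have : Normal F (AlgebraicClosure F) := IsAlgClosure.normal F _
  apply minpoly.exists_algEquiv_of_root (Algebra.IsAlgebraic.isAlgebraic y)
  have h1 : minpoly F x = minpoly F y := h
  rw [← h1]
  exact minpoly.aeval F x

theorem good_of_factors {f : ℚ[X]} (hf : f.natDegree = 2) {n : ℕ} (hn : 3 < n) {c : ℚ}
    (hcf : c = f.coeff 2 * f.coeff 0 + f.coeff 1 / 2 - f.coeff 1 ^ 2 / 4)
    {l : ℕ} [Fact l.Prime] (hc : 1 < padicNorm l (4 * c)) {Φ : ℚ[X]}
    (hid : Ap f n = Am f n * Φ)
    (hfac : ∀ S : Finset ℚ[X], (∀ g ∈ S, g.Monic ∧ Irreducible g ∧ g ∣ Φ) → S.card ≤ n) :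
    Good c n := by
  classical
  by_contra hG
  have hn0 : n ≠ 0 := by omega
  have hmany := many_orbits hc hn hG
  have := PP_finite c hn0
  set Om := Quotient (MulAction.orbitRel (GF ℚ) (PP c n)) with hOm
  have : Finite Om := Quotient.finite _
  let _ := Fintype.ofFinite Om
  set j : ℚ →+* QB := algebraMap ℚ QB with hj
  have ha2 : f.coeff 2 ≠ 0 := by
    have := leadingCoeff_ne_zero.2 (show f ≠ 0 by rintro rfl; simp at hf)
    rwa [leadingCoeff, hf] at this
  have ha2' : j (f.coeff 2) ≠ 0 := by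
    rw [Ne, map_eq_zero]
    exact ha2
  have hid' : Ap (f.map j) n = Am (f.map j) n * Φ.map j := by
    have h1 := congrArg (Polynomial.map j) hid
    rw [Polynomial.map_mul] at h1
    unfold Ap Am at h1 ⊢
    simp only [Polynomial.map_prod, Polynomial.map_sub, map_it, map_X] at h1
    exact h1
  have hnf := normal_form (j (f.coeff 2)) (j (f.coeff 1)) (j (f.coeff 0)) (by norm_num)
  have hfm : f.map j = C (j (f.coeff 2)) * X ^ 2 + C (j (f.coeff 1)) * X + C (j (f.coeff 0)) := by
    conv_lhs => rw [param f hf]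
    simp
  rw [← hfm] at hnf
  have hcc : j (f.coeff 2) * j (f.coeff 0) + j (f.coeff 1) / 2 - j (f.coeff 1) ^ 2 / 4 =
      (c : QB) := by
    rw [hcf]
    simp [hj]
  rw [hcc] at hnf
  -- the root of `Φ` corresponding to a point of exact period `n`
  set T : QB → QB := fun y => (y - j (f.coeff 1) / 2) / j (f.coeff 2) with hT
  have hTL : ∀ y, j (f.coeff 2) * T y + j (f.coeff 1) / 2 = y := by
    intro y
    rw [hT]
    field_simp
    ring
  have hval : ∀ (d : ℕ) (y : QB), (it (f.map j) d - X).eval (T y) = 0 ↔ (fc c)^[d] y = y := by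
    intro d y
    have h1 := congrArg (Polynomial.eval (T y)) (conj_itX hnf d)
    rw [eval_comp, eval_mul, eval_C] at h1
    have h2 : (C (j (f.coeff 2)) * X + C (j (f.coeff 1) / 2)).eval (T y) = y := by
      rw [eval_add, eval_mul, eval_C, eval_X, eval_C]
      exact hTL y
    rw [h2, eval_sub, eval_X, eval_it, fc_eq] at h1
    constructor
    · intro h
      rw [h, mul_zero] at h1
      exact sub_eq_zero.1 h1
    · intro h
      rw [h, sub_self] at h1
      exact (mul_eq_zero.1 h1.symm).resolve_left ha2'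
  have hroot : ∀ y : PP c n, (Φ.map j).eval (T y.1) = 0 := by
    intro y
    have h1 := congrArg (Polynomial.eval (T y.1)) hid'
    rw [eval_mul] at h1
    have h2 : (Ap (f.map j) n).eval (T y.1) = 0 := by
      unfold Ap
      rw [eval_prod, Finset.prod_eq_zero_iff]
      refine ⟨n, Finset.mem_filter.2 ⟨Nat.mem_divisors_self n hn0, ?_⟩, ?_⟩
      · rw [Nat.div_self (Nat.pos_of_ne_zero hn0)]
        simp
      · rw [hval]
        exact iter_minp c n y
    have h3 : (Am (f.map j) n).eval (T y.1) ≠ 0 := by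
      unfold Am
      rw [eval_prod, Finset.prod_ne_zero_iff]
      intro d hd
      rw [Finset.mem_filter, Nat.mem_divisors] at hd
      rw [Ne, hval]
      intro h4
      have h5 : n ∣ d := by
        have := Function.IsPeriodicPt.minimalPeriod_dvd (f := fc c) (x := y.1) (n := d) h4
        rwa [y.2] at this
      have h6 : d = n := Nat.dvd_antisymm hd.1.1 h5
      rw [h6, Nat.div_self (Nat.pos_of_ne_zero hn0)] at hd
      simp at hd
    rw [h2] at h1
    exact (mul_eq_zero.1 h1.symm).resolve_left h3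
  set g : Om → ℚ[X] := fun w => mp (T w.out.1) with hg
  have hginj : Function.Injective g := by
    intro w w' hww
    obtain ⟨σ, hσ⟩ := mp_conj hww
    -- `σ` maps the representative of `w` to that of `w'`
    have h1 : σ w.out.1 = w'.out.1 := by
      have h2 : ∀ y : QB, σ (T y) = T (σ y) := by
        intro y
        have h5 : ∀ q : ℚ, σ (j q) = j q := fun q => by
          rw [hj]
          exact σ.commutes q
        rw [hT]
        simp only [map_div₀, map_sub, h5, map_ofNat]
      rw [h2] at hσ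
      have h3 := congrArg (fun t => j (f.coeff 2) * t + j (f.coeff 1) / 2) hσ
      simp only [hTL] at h3
      exact h3
    have h2 : (w'.out : PP c n) = σ • w.out := Subtype.ext h1.symm
    rw [← Quotient.out_eq w, ← Quotient.out_eq w']
    apply Quotient.sound
    change MulAction.orbitRel (GF ℚ) (PP c n) _ _
    rw [MulAction.orbitRel_apply, MulAction.mem_orbit_iff]
    exact ⟨σ⁻¹, by rw [h2, inv_smul_smul]⟩
  have hle := hfac (Finset.univ.image g) (by
    intro q hq
    rw [Finset.mem_image] at hq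
    obtain ⟨w, _, rfl⟩ := hq
    refine ⟨(mp_facts _).1, (mp_facts _).2, ?_⟩
    exact mp_dvd _ (RingHom.ext_rat _ _) (hroot w.out))
  rw [Finset.card_image_of_injective _ hginj, Finset.card_univ, ← Nat.card_eq_fintype_card] at hle
  omega

/-- fourth main theorem -/
theorem main4 {f : ℚ[X]} (hf : f.natDegree = 2) {n : ℕ} (hn : 3 < n) {c : ℚ}
    (hcf : c = f.coeff 2 * f.coeff 0 + f.coeff 1 / 2 - f.coeff 1 ^ 2 / 4) {Φ : ℚ[X]}
    (hid : Ap f n = Am f n * Φ)
    (hfac : ∀ S : Finset ℚ[X], (∀ g ∈ S, g.Monic ∧ Irreducible g ∧ g ∣ Φ) → S.card ≤ n) :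
    Good c n := by
  by_cases h3 : 3 ∣ c.den
  · have : Fact (Nat.Prime 3) := ⟨Nat.prime_three⟩
    have h1 : 1 < padicNorm 3 (4 * c) := by
      rw [padicNorm.mul]
      have h4 : padicNorm 3 4 = 1 := by
        have : (4 : ℚ) = ((4 : ℕ) : ℚ) := by norm_num
        rw [this, padicNorm.nat_eq_one_iff]
        norm_num
      rw [h4, one_mul]
      exact norm_gt_one h3
    exact good_of_factors hf hn hcf h1 hid hfac
  · by_cases h2 : 2 ∣ (4 * c).den
    · have : Fact (Nat.Prime 2) := ⟨Nat.prime_two⟩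
      exact good_of_factors hf hn hcf (norm_gt_one h2) hid hfac
    · exact main1 hn (Or.inr (Or.inl ⟨h3, Or.inr h2⟩))

end Pool.Agent.H294P
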