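import Pool.Agent.R401.Dens

/-!
If an element of the absolute Galois group of `ℚ` fixes no root of an integer polynomial, then the
primes at which the polynomial has a root have upper density less than one.
-/

set_option autoImplicit false
set_option maxHeartbeats 400000

namespace Pool.Agent.H294P

open Polynomial NumberField Filter Topology IsDedekindDomain
open Pool.Agent.W569.FM Pool.Agent.W401.Cheb Pool.Agent.R401.Dens Pool.Agent

/-- the algebraic numbers -/
abbrev QB : Type := AlgebraicClosure ℚ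

theorem aeval_gal (g : GF ℚ) (y : QB) (Ψ : ℤ[X]) : aeval (g y) Ψ = g (aeval y Ψ) := by
  rw [aeval_def, aeval_def]
  change eval₂ (algebraMap ℤ QB) (g y) Ψ = (g : QB →+* QB) (eval₂ (algebraMap ℤ QB) y Ψ)
  rw [hom_eval₂]
  congr 1
  exact RingHom.ext_int _ _

theorem int_mem_of_prime {p : ℕ} (hp : p.Prime) {P : Ideal (OO ℚ)} (hP : P.IsMaximal)
    (hpP : (p : OO ℚ) ∈ P) {t : ℤ} : ((t : ℤ) : OO ℚ) ∈ P ↔ (p : ℤ) ∣ t := by
  constructor
  · intro h
    by_contra hn
    have hc : IsCoprime (p : ℤ) t := by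
      rw [Int.isCoprime_iff_gcd_eq_one]
      have := (Nat.Prime.coprime_iff_not_dvd hp (n := t.natAbs)).2 (by
        intro h1
        exact hn (Int.natCast_dvd.2 h1))
      simpa [Int.gcd] using this
    obtain ⟨u, v, huv⟩ := hc
    apply hP.ne_top
    rw [Ideal.eq_top_iff_one]
    have h1 : ((u * p + v * t : ℤ) : OO ℚ) = 1 := by rw [huv]; norm_num
    rw [← h1]
    push_cast
    exact P.add_mem (P.mul_mem_left _ hpP) (P.mul_mem_left _ h)
  · rintro ⟨s, rfl⟩
    push_cast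
    exact P.mul_mem_right _ hpP

theorem fermat {p : ℕ} (hp : p.Prime) (t : ℤ) : (p : ℤ) ∣ t ^ p - t := by
  have := Fact.mk hp
  rw [← ZMod.intCast_zmod_eq_zero_iff_dvd]
  push_cast
  rw [ZMod.pow_card, sub_self]

theorem frob_fix (Ψ : ℤ[X]) (hΨ : Ψ ≠ 0) : ∃ D : ℤ, D ≠ 0 ∧ Ψ.leadingCoeff ∣ D ∧
    ∀ p : ℕ, p.Prime → ¬ (p : ℤ) ∣ D → ∀ P : Ideal (OO ℚ), P.IsMaximal → (p : OO ℚ) ∈ P →
    ∀ g : GF ℚ, FrobAt p P g → (∃ x : ZMod p, (Ψ.map (Int.castRingHom (ZMod p))).IsRoot x) →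
    ∃ y : AlgebraicClosure ℚ, aeval y Ψ = 0 ∧ g y = y := by
  classical
  set a := Ψ.leadingCoeff with ha
  have ha0 : a ≠ 0 := leadingCoeff_ne_zero.2 hΨ
  have hint : ∀ y : QB, aeval y Ψ = 0 → IsIntegral ℤ ((a : QB) * y) := by
    intro y hy
    have := isIntegral_leadingCoeff_smul Ψ y hy
    rwa [zsmul_eq_mul] at this
  set m : Multiset QB := (Ψ.map (algebraMap ℤ QB)).roots with hm
  have hmap0 : Ψ.map (algebraMap ℤ QB) ≠ 0 := by
    rw [Polynomial.map_ne_zero_iff]
    · exact hΨ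
    · exact (algebraMap ℤ QB).injective_int
  have memm : ∀ y : QB, y ∈ m ↔ aeval y Ψ = 0 := by
    intro y
    rw [hm, mem_roots hmap0, IsRoot, eval_map_algebraMap]
  have hint' : ∀ y ∈ m, IsIntegral ℤ ((a : QB) * y) := fun y hy => hint y ((memm y).1 hy)
  set bt : {y // y ∈ m} → OO ℚ := fun y => ⟨(a : QB) * y.1, hint' y.1 y.2⟩ with hbt
  have hbtc : ∀ y, ((bt y : OO ℚ) : QB) = (a : QB) * y.1 := fun y => rfl
  set T : Finset (OO ℚ) := (m.attach.map bt).toFinset with hT
  have memT : ∀ y : {y // y ∈ m}, bt y ∈ T := by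
    intro y
    rw [hT, Multiset.mem_toFinset]
    exact Multiset.mem_map_of_mem _ (Multiset.mem_attach _ _)
  set δ : OO ℚ := ∏ st ∈ (T ×ˢ T).filter (fun st => st.1 ≠ st.2), (st.1 - st.2) with hδ
  have hδ0 : δ ≠ 0 := by
    rw [hδ, Finset.prod_ne_zero_iff]
    intro st hst
    exact sub_ne_zero.2 (Finset.mem_filter.1 hst).2
  have halg : IsAlgebraic ℤ δ := (RingOfIntegers.isIntegral δ).isAlgebraic
  obtain ⟨D₁, hD₁, hδD⟩ := halg.exists_nonzero_dvd (mem_nonZeroDivisors_of_ne_zero hδ0)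
  refine ⟨a * D₁, mul_ne_zero ha0 hD₁, Dvd.intro _ rfl, ?_⟩
  rintro p hp hpD P hP hpP g hg ⟨x, hx⟩
  have := Fact.mk hp
  obtain ⟨x₀, rfl⟩ := ZMod.intCast_surjective x
  have hx1 : (p : ℤ) ∣ Ψ.eval x₀ := by
    rw [← ZMod.intCast_zmod_eq_zero_iff_dvd]
    have := hx
    rw [IsRoot, ← eq_intCast (Int.castRingHom (ZMod p)) x₀, eval_map_apply] at this
    simpa using this
  -- the multiset of the elements `a x₀ - a y`
  set M : Multiset (OO ℚ) := m.attach.map (fun y => ((a * x₀ : ℤ) : OO ℚ) - bt y) with hM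
  have hMprod : M.prod ∈ P := by
    by_cases hdeg : m = 0
    · -- `Ψ` is a constant
      exfalso
      have h1 := (IsAlgClosed.splits (Ψ.map (algebraMap ℤ QB))).eval_eq_prod_roots (x₀ : QB)
      rw [← hm, hdeg] at h1
      simp only [Multiset.map_zero, Multiset.prod_zero, mul_one] at h1
      rw [leadingCoeff_map_of_injective (algebraMap ℤ QB).injective_int, ← eq_intCast (algebraMap ℤ QB),
        eval_map_apply] at h1
      have h2 := (algebraMap ℤ QB).injective_int h1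
      apply hpD
      rw [h2] at hx1
      exact dvd_mul_of_dvd_left hx1 _
    · have hcard : 0 < Multiset.card m := Multiset.card_pos.2 hdeg
      have h1 : M.prod = ((a ^ (Multiset.card m - 1) * Ψ.eval x₀ : ℤ) : OO ℚ) := by
        apply RingOfIntegers.ext
        have h2 : ((M.prod : OO ℚ) : QB) = (m.map (fun y => (a : QB) * ((x₀ : QB) - y))).prod := by
          have h3 : ((M.prod : OO ℚ) : QB) = (M.map (fun z : OO ℚ => (z : QB))).prod := by
            exact map_multiset_prod (algebraMap (OO ℚ) QB) M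
          rw [h3, hM, Multiset.map_map]
          congr 1
          rw [← Multiset.attach_map_val' m (fun y => (a : QB) * ((x₀ : QB) - y))]
          apply Multiset.map_congr rfl
          intro y _
          simp only [Function.comp]
          have h4 : ((((a * x₀ : ℤ) : OO ℚ) - bt y : OO ℚ) : QB) = ((a * x₀ : ℤ) : QB) - (a : QB) * y.1 := by
            rw [← hbtc y]
            simp
          rw [h4, Int.cast_mul]
          ring
        rw [h2, Multiset.prod_map_mul, Multiset.map_const', Multiset.prod_replicate]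
        have h5 := (IsAlgClosed.splits (Ψ.map (algebraMap ℤ QB))).eval_eq_prod_roots (x₀ : QB)
        rw [leadingCoeff_map_of_injective (algebraMap ℤ QB).injective_int, ← hm,
          ← eq_intCast (algebraMap ℤ QB) x₀, eval_map_apply] at h5
        have h6 : (((a ^ (Multiset.card m - 1) * Ψ.eval x₀ : ℤ) : OO ℚ) : QB) =
            (a : QB) ^ (Multiset.card m - 1) * (algebraMap ℤ QB (Ψ.eval x₀)) := by
          simp
        rw [h6, h5, ← mul_assoc]
        congr 1
        rw [← ha, eq_intCast, ← pow_succ]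
        congr 1
        omega
      rw [h1, int_mem_of_prime hp hP hpP]
      exact dvd_mul_of_dvd_right hx1 _
  rw [hP.isPrime.multiset_prod_mem_iff_exists_mem] at hMprod
  obtain ⟨w, hwM, hwP⟩ := hMprod
  rw [hM, Multiset.mem_map] at hwM
  obtain ⟨y, _, rfl⟩ := hwM
  refine ⟨y.1, (memm y.1).1 y.2, ?_⟩
  -- `g` maps `y` to a root
  have hgy : aeval (g y.1) Ψ = 0 := by
    have h1 := (memm y.1).1 y.2
    rw [aeval_gal, h1, map_zero]
  set z : {y // y ∈ m} := ⟨g y.1, (memm _).2 hgy⟩ with hz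
  have hsm : g • bt y = bt z := by
    apply RingOfIntegers.ext
    change g ((a : QB) * y.1) = (a : QB) * g y.1
    rw [map_mul, map_intCast]
  have hfr := hg (bt y)
  rw [hsm] at hfr
  -- congruences
  have c1 : bt y - ((a * x₀ : ℤ) : OO ℚ) ∈ P := by
    have := P.neg_mem hwP
    rwa [neg_sub] at this
  have c2 : bt y ^ p - ((a * x₀ : ℤ) : OO ℚ) ^ p ∈ P :=
    Ideal.mem_of_dvd P (sub_dvd_pow_sub_pow _ _ p) c1
  have c3 : ((a * x₀ : ℤ) : OO ℚ) ^ p - ((a * x₀ : ℤ) : OO ℚ) ∈ P := by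
    have h1 := (int_mem_of_prime hp hP hpP (t := (a * x₀) ^ p - a * x₀)).2 (fermat hp _)
    push_cast at h1 ⊢
    exact h1
  have c4 : bt z - bt y ∈ P := by
    have h1 : bt z - bt y = (bt z - bt y ^ p) + (bt y ^ p - ((a * x₀ : ℤ) : OO ℚ) ^ p) +
        (((a * x₀ : ℤ) : OO ℚ) ^ p - ((a * x₀ : ℤ) : OO ℚ)) - (bt y - ((a * x₀ : ℤ) : OO ℚ)) := by
      ring
    rw [h1]
    exact P.sub_mem (P.add_mem (P.add_mem hfr c2) c3) c1
  by_contra hne
  have hne' : bt z ≠ bt y := by
    intro h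
    apply hne
    have h1 := congrArg (fun w : OO ℚ => (w : QB)) h
    simp only [hbtc] at h1
    have ha1 : (a : QB) ≠ 0 := by exact_mod_cast ha0
    exact mul_left_cancel₀ ha1 h1
  have hδP : δ ∈ P := by
    apply Ideal.mem_of_dvd P _ c4
    exact Finset.dvd_prod_of_mem (fun st : OO ℚ × OO ℚ => st.1 - st.2)
      (Finset.mem_filter.2 ⟨Finset.mem_product.2 ⟨memT z, memT y⟩, hne'⟩ :
        (bt z, bt y) ∈ (T ×ˢ T).filter (fun st => st.1 ≠ st.2))
  have hD₁P : ((D₁ : ℤ) : OO ℚ) ∈ P := by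
    have := Ideal.mem_of_dvd P hδD hδP
    simpa using this
  rw [int_mem_of_prime hp hP hpP] at hD₁P
  exact hpD (dvd_mul_of_dvd_right hD₁P _)

end Pool.Agent.H294P
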