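import Mathlib

/-!
Counting fixed points in a coset of a subgroup.
-/

set_option autoImplicit false
set_option maxHeartbeats 400000

namespace Pool.Agent.H294P

/-- if all elements of the coset `σ I` have at least `n` fixed points, and the points which occur
lie in at most `K.card` orbits of `I`, then `n ≤ K.card` -/
theorem coset_count {G X κ : Type*} [Group G] [Finite G] [Finite X] [MulAction G X]
    (I : Subgroup G) (σ : G) {n : ℕ}
    (hfix : ∀ ι ∈ I, n ≤ Nat.card {y : X // (σ * ι) • y = y})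
    (f : X → κ) (K : Finset κ)
    (hK : ∀ y : X, (∃ ι ∈ I, (σ * ι) • y = y) → f y ∈ K)
    (horb : ∀ y y' : X, (∃ ι ∈ I, (σ * ι) • y = y) → (∃ ι ∈ I, (σ * ι) • y' = y') →
      f y = f y' → ∃ ι ∈ I, ι • y = y') : n ≤ K.card := by
  classical
  let _ := Fintype.ofFinite I
  let _ := Fintype.ofFinite X
  set S : Finset (Σ _ : I, X) := Finset.univ.sigma fun (ι : I) =>
    Finset.univ.filter (fun y : X => (σ * (ι : G)) • y = y) with hS
  have memS : ∀ q : (Σ _ : I, X), q ∈ S ↔ (σ * (q.1 : G)) • q.2 = q.2 := by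
    intro q
    rw [hS, Finset.mem_sigma, Finset.mem_filter]
    simp
  have h1 : n * Fintype.card I ≤ S.card := by
    rw [hS, Finset.card_sigma, mul_comm, ← smul_eq_mul, ← Finset.card_univ, ← Finset.sum_const]
    apply Finset.sum_le_sum
    intro ι _
    have h2 := hfix ι.1 ι.2
    rwa [Nat.card_eq_fintype_card, Fintype.card_subtype] at h2
  -- choices
  have hex : ∀ q : (Σ _ : I, X), q ∈ S → ∃ ι ∈ I, (σ * ι) • q.2 = q.2 :=
    fun q hq => ⟨q.1, q.1.2, (memS q).1 hq⟩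
  -- representatives of the values of `f`
  set Good' : X → Prop := fun y => ∃ ι ∈ I, (σ * ι) • y = y with hGood'
  have hrep : ∀ k : κ, ∃ r : Option X, ∀ y, Good' y → f y = k → ∃ y₀, r = some y₀ ∧
      Good' y₀ ∧ f y₀ = k := by
    intro k
    by_cases h : ∃ y, Good' y ∧ f y = k
    · obtain ⟨y₀, h₀, h₀'⟩ := h
      exact ⟨some y₀, fun _ _ _ => ⟨y₀, rfl, h₀, h₀'⟩⟩
    · exact ⟨none, fun y hy hyk => (h ⟨y, hy, hyk⟩).elim⟩
  choose rep hrepS using hrep
  have hι : ∀ y : X, ∃ ι : I, Good' y → ∃ y₀, rep (f y) = some y₀ ∧ (ι : G) • y₀ = y := by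
    intro y
    by_cases h : Good' y
    · obtain ⟨y₀, h1, h2, h3⟩ := hrepS (f y) y h rfl
      obtain ⟨ι, hιI, hι⟩ := horb y₀ y h2 h h3
      exact ⟨⟨ι, hιI⟩, fun _ => ⟨y₀, h1, hι⟩⟩
    · exact ⟨1, fun h' => (h h').elim⟩
  choose io hio using hι
  have hρ : ∀ y : X, ∃ ρ : I, Good' y → (σ * (ρ : G)) • y = y := by
    intro y
    by_cases h : Good' y
    · obtain ⟨ρ, hρI, hρ⟩ := h
      exact ⟨⟨ρ, hρI⟩, fun _ => hρ⟩
    · exact ⟨1, fun h' => (h h').elim⟩
  choose rho hrho using hρ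
  set F : (Σ _ : I, X) → κ × I := fun q => (f q.2, (rho q.2)⁻¹ * q.1 * io q.2) with hF
  have hFS : ∀ q ∈ S, F q ∈ K ×ˢ (Finset.univ : Finset I) := by
    intro q hq
    rw [Finset.mem_product]
    exact ⟨hK q.2 (hex q hq), Finset.mem_univ _⟩
  have hkey : ∀ q ∈ S, ∃ y₀, rep (f q.2) = some y₀ ∧
      (((rho q.2)⁻¹ * q.1 * io q.2 : I) : G) • y₀ = q.2 := by
    intro q hq
    obtain ⟨y₀, h2, h3⟩ := hio q.2 (hex q hq)
    refine ⟨y₀, h2, ?_⟩
    have h4 := hrho q.2 (hex q hq)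
    have h5 := (memS q).1 hq
    have h6 : ((rho q.2 : G))⁻¹ • ((q.1 : G) • q.2) = q.2 := by
      have h7 : (σ * (rho q.2 : G)) • q.2 = (σ * (q.1 : G)) • q.2 := by rw [h4, h5]
      rw [mul_smul, mul_smul] at h7
      have h8 := MulAction.injective σ h7
      rw [← h8, inv_smul_smul]
    rw [Subgroup.coe_mul, Subgroup.coe_mul, Subgroup.coe_inv, mul_smul, mul_smul, h3, h6]
  have hinj : Set.InjOn F S := by
    intro q hq q' hq' h
    rw [Finset.mem_coe] at hq hq'
    have e1 : f q.2 = f q'.2 := congrArg Prod.fst h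
    have e2 : (rho q.2)⁻¹ * q.1 * io q.2 = (rho q'.2)⁻¹ * q'.1 * io q'.2 := congrArg Prod.snd h
    obtain ⟨y₀, h2, h3⟩ := hkey q hq
    obtain ⟨y₁, h4, h5⟩ := hkey q' hq'
    rw [e1, h4, Option.some_inj] at h2
    rw [e2, ← h2, h5] at h3
    -- `h3 : q'.2 = q.2`
    obtain ⟨i, y⟩ := q
    obtain ⟨i', y'⟩ := q'
    simp only at h3 e2
    subst h3
    have e3 : i = i' := mul_left_cancel (mul_right_cancel e2)
    rw [e3]
  have h2 := Finset.card_le_card_of_injOn F hFS hinj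
  rw [Finset.card_product, Finset.card_univ] at h2
  have hpos : 0 < Fintype.card I := Fintype.card_pos
  exact Nat.le_of_mul_le_mul_right (h1.trans h2) hpos

end Pool.Agent.H294P
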