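import Pool.Agent.H294P.Cheb

/-!
The density statement.
-/

set_option autoImplicit false
set_option maxHeartbeats 400000

namespace Pool.Agent.H294P

open Polynomial NumberField Filter Topology IsDedekindDomain
open Pool.Agent.W569.FM Pool.Agent.W401.Cheb Pool.Agent.R401.Dens Pool.Agent

/-- `Ψ` has a root modulo `p`, or in the field of `p`-adic numbers -/
def HasRoot (Ψ : ℤ[X]) (p : ℕ) : Prop :=
  (∃ x : ZMod p, (Ψ.map (Int.castRingHom (ZMod p))).IsRoot x) ∨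
    ∃ _ : Fact p.Prime, ∃ x : ℚ_[p], aeval x Ψ = 0

theorem root_of_padic {Ψ : ℤ[X]} {p : ℕ} [Fact p.Prime] (hp : ¬ (p : ℤ) ∣ Ψ.leadingCoeff)
    {x : ℚ_[p]} (hx : aeval x Ψ = 0) :
    ∃ x : ZMod p, (Ψ.map (Int.castRingHom (ZMod p))).IsRoot x := by
  have hinj : Function.Injective (Int.castRingHom ℤ_[p]) := RingHom.injective_int _
  have h1 : aeval x (Ψ.map (Int.castRingHom ℤ_[p])) = 0 := by
    rw [← hx, aeval_def, aeval_def, eval₂_map]
    congr 1
  have h2 := den_dvd_of_is_root h1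
  rw [leadingCoeff_map_of_injective hinj] at h2
  have h3 : IsUnit ((Int.castRingHom ℤ_[p]) Ψ.leadingCoeff) := by
    rw [PadicInt.isUnit_iff, eq_intCast]
    have h4 := PadicInt.norm_le_one (Ψ.leadingCoeff : ℤ_[p])
    rcases h4.lt_or_eq with h5 | h5
    · exact absurd ((PadicInt.norm_int_lt_one_iff_dvd _).1 h5) hp
    · exact h5
  obtain ⟨y, hy⟩ := IsFractionRing.isInteger_of_isUnit_den (isUnit_of_dvd_unit h2 h3)
  refine ⟨PadicInt.toZMod y, ?_⟩
  have h6 : (Ψ.map (Int.castRingHom ℤ_[p])).eval y = 0 := by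
    apply IsFractionRing.injective ℤ_[p] ℚ_[p]
    rw [map_zero, ← h1, ← hy, aeval_algebraMap_apply, coe_aeval_eq_eval]
  have h7 := congrArg (PadicInt.toZMod (p := p)) h6
  rw [map_zero, ← Polynomial.eval_map_apply, Polynomial.map_map] at h7
  rw [IsRoot, ← h7]
  congr 2
  exact RingHom.ext_int _ _

/-- the comparison of the counting functions -/
theorem dens_le (C : Set (GF ℚ)) (X : Set ℕ)
    (hX : ∀ p : ℕ, p.Prime → ∀ P : Ideal (OO ℚ), P.IsMaximal → (p : OO ℚ) ∈ P →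
      ∀ g ∈ C, FrobAt p P g → p ∈ X) (n : ℕ) :
    Nat.card {v : HeightOneSpectrum (𝓞 ℚ) // Ideal.absNorm v.asIdeal ≤ n ∧
        ∃ σ ∈ C, IsFrob v σ} ≤ cnt X n := by
  classical
  have key : ∀ v : HeightOneSpectrum (𝓞 ℚ), (∃ σ ∈ C, IsFrob v σ) →
      v.asIdeal = W571.FM.pl (Ideal.absNorm v.asIdeal) ∧ (Ideal.absNorm v.asIdeal).Prime ∧
        Ideal.absNorm v.asIdeal ∈ X := by
    rintro v ⟨σ, hσC, Q, hQ, hQv, hσ⟩
    obtain ⟨q, hq, hqQ⟩ := W569.FM.exists_char Q hQ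
    have h2 : v.asIdeal = W571.FM.pl q := by
      rw [← hQv]
      exact W571.FM.cm_eq hq hQ hqQ
    have h3 : Ideal.absNorm v.asIdeal = q := by rw [h2, W571.FM.absNorm_pl]
    rw [h3] at hσ ⊢
    exact ⟨h2, hq, hX q hq Q hQ hqQ σ hσC hσ⟩
  have hfin := finite_sub X n
  unfold cnt
  have key2 : ∀ v : {v : HeightOneSpectrum (𝓞 ℚ) // Ideal.absNorm v.asIdeal ≤ n ∧
      ∃ σ ∈ C, IsFrob v σ}, Ideal.absNorm v.1.asIdeal ≤ n ∧
        (Ideal.absNorm v.1.asIdeal).Prime ∧ Ideal.absNorm v.1.asIdeal ∈ X :=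
    fun v => ⟨v.2.1, (key v.1 v.2.2).2⟩
  refine Nat.card_le_card_of_injective (fun v : {v : HeightOneSpectrum (𝓞 ℚ) //
      Ideal.absNorm v.asIdeal ≤ n ∧ ∃ σ ∈ C, IsFrob v σ} =>
    (⟨Ideal.absNorm v.1.asIdeal, key2 v⟩ : {p : ℕ // p ≤ n ∧ p.Prime ∧ p ∈ X})) ?_
  intro v w hvw
  apply Subtype.ext
  apply HeightOneSpectrum.ext
  have h4 : Ideal.absNorm v.1.asIdeal = Ideal.absNorm w.1.asIdeal := congrArg Subtype.val hvw
  rw [(key v.1 v.2.2).1, (key w.1 w.2.2).1, h4]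

theorem finite_set (n : ℕ) (Q : ℕ → Prop) : {p : ℕ | p ≤ n ∧ p.Prime ∧ Q p}.Finite :=
  (Set.finite_Iic n).subset fun _ h => h.1

theorem open_fix {F : Type} [Field F] (S : Finset (AlgebraicClosure F)) (U : Subgroup (GF F))
    (hU : ∀ u : GF F, (∀ y ∈ S, u y = y) → u ∈ U) : IsOpen (U : Set (GF F)) := by
  have halg : Algebra.IsAlgebraic F (AlgebraicClosure F) := AlgebraicClosure.isAlgebraic F
  have hfd : FiniteDimensional F (IntermediateField.adjoin F (S : Set (AlgebraicClosure F))) :=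
    IntermediateField.finiteDimensional_adjoin fun x _ =>
      (Algebra.IsAlgebraic.isAlgebraic x).isIntegral
  have h1 := IntermediateField.fixingSubgroup_isOpen
    (IntermediateField.adjoin F (S : Set (AlgebraicClosure F)))
  refine Subgroup.isOpen_mono
    (H₁ := (IntermediateField.adjoin F (S : Set (AlgebraicClosure F))).fixingSubgroup)
    (H₂ := U) ?_ h1
  intro u hu
  apply hU
  intro y hy
  rw [IntermediateField.mem_fixingSubgroup_iff] at hu
  exact hu y (IntermediateField.subset_adjoin _ _ hy)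

theorem cheb_root (Ψ : ℤ[X]) (hΨ : Ψ ≠ 0) (σ : GF ℚ) (hσ : ∀ y : AlgebraicClosure ℚ, aeval y Ψ = 0 → σ y ≠ y) :
    ∃ r : ℝ, r < 1 ∧ ∃ N₀ : ℕ, ∀ N : ℕ, N₀ ≤ N →
      (({p : ℕ | p ≤ N ∧ p.Prime ∧ HasRoot Ψ p}.ncard : ℝ) /
        ({p : ℕ | p ≤ N ∧ p.Prime}.ncard : ℝ)) ≤ r := by
  classical
  obtain ⟨D, hD0, haD, hD⟩ := frob_fix Ψ hΨ
  have hinv : ∀ (τ : GF ℚ) (y : AlgebraicClosure ℚ), aeval y Ψ = 0 → aeval (τ y) Ψ = 0 := by
    intro τ y hy
    rw [aeval_gal, hy, map_zero]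
  set U : Subgroup (GF ℚ) :=
    { carrier := {u | ∀ y : AlgebraicClosure ℚ, aeval y Ψ = 0 → u y = y}
      mul_mem' := fun {a b} ha hb y hy => by
        rw [AlgEquiv.mul_apply, hb y hy, ha y hy]
      one_mem' := fun y _ => rfl
      inv_mem' := fun {a} ha y hy => by
        have h1 := ha y hy
        calc a⁻¹ y = a⁻¹ (a y) := by rw [h1]
          _ = y := by rw [← AlgEquiv.mul_apply, inv_mul_cancel]; rfl } with hUdef
  have memU : ∀ u : GF ℚ, u ∈ U ↔ ∀ y : AlgebraicClosure ℚ, aeval y Ψ = 0 → u y = y := fun u => Iff.rfl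
  have hUn : U.Normal := by
    constructor
    intro u hu τ
    rw [memU]
    intro y hy
    have h1 := hu (τ⁻¹ y) (hinv _ _ hy)
    rw [AlgEquiv.mul_apply, AlgEquiv.mul_apply, h1, ← AlgEquiv.mul_apply, mul_inv_cancel]
    rfl
  have hUo : IsOpen (U : Set (GF ℚ)) := by
    set S : Finset (AlgebraicClosure ℚ) := (Ψ.map (algebraMap ℤ (AlgebraicClosure ℚ))).roots.toFinset with hS
    have hmap0 : Ψ.map (algebraMap ℤ (AlgebraicClosure ℚ)) ≠ 0 := by
      rw [Polynomial.map_ne_zero_iff]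
      · exact hΨ
      · exact (algebraMap ℤ (AlgebraicClosure ℚ)).injective_int
    apply open_fix S
    intro u hu y hy
    apply hu
    rw [hS, Multiset.mem_toFinset, mem_roots hmap0, IsRoot, eval_map_algebraMap]
    exact hy
  set C : Set (GF ℚ) := {τ | ∀ y : AlgebraicClosure ℚ, aeval y Ψ = 0 → τ y ≠ y} with hCdef
  have hC : ∀ τ ∈ C, ∀ ρ : GF ℚ, ρ * τ * ρ⁻¹ ∈ C := by
    intro τ hτ ρ y hy h
    apply hτ (ρ⁻¹ y) (hinv _ _ hy)
    rw [AlgEquiv.mul_apply, AlgEquiv.mul_apply] at h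
    have h1 := congrArg (ρ⁻¹ : GF ℚ) h
    rw [← AlgEquiv.mul_apply, inv_mul_cancel] at h1
    exact h1
  have hCU : ∀ τ ∈ C, ∀ u ∈ U, τ * u ∈ C := by
    intro τ hτ u hu y hy
    rw [AlgEquiv.mul_apply, hu y hy]
    exact hτ y hy
  set X : Set ℕ := {p | (p : ℤ) ∣ D ∨ ¬ ∃ x : ZMod p, (Ψ.map (Int.castRingHom (ZMod p))).IsRoot x}
    with hXdef
  have hX : ∀ p : ℕ, p.Prime → ∀ P : Ideal (OO ℚ), P.IsMaximal → (p : OO ℚ) ∈ P →
      ∀ g ∈ C, FrobAt p P g → p ∈ X := by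
    intro p hp P hP hpP g hg hF
    by_contra hcon
    rw [hXdef, Set.mem_ofPred_eq, not_or, not_not] at hcon
    obtain ⟨y, hy, hgy⟩ := hD p hp hcon.1 P hP hpP g hF hcon.2
    exact hg y hy hgy
  have h1 := Y142.chebK ℚ U hUo C hC hCU
  have hfinq : Finite (GF ℚ ⧸ U) := Subgroup.quotient_finite_of_isOpen U hUo
  set l : ℝ := (((QuotientGroup.mk : GF ℚ → GF ℚ ⧸ U) '' C).ncard : ℝ) /
    (Nat.card (GF ℚ ⧸ U) : ℝ) with hl
  have hl0 : 0 < l := by
    apply div_pos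
    · have : 0 < ((QuotientGroup.mk : GF ℚ → GF ℚ ⧸ U) '' C).ncard := by
        rw [Set.ncard_pos (Set.toFinite _)]
        exact ⟨_, σ, hσ, rfl⟩
      exact_mod_cast this
    · exact_mod_cast Nat.card_pos
  have h2 := h1.eventually (lt_mem_nhds (show l / 2 < l by linarith))
  -- the number of primes dividing `D`
  set K : ℕ := D.natAbs.primeFactors.card with hK
  have h3 : Tendsto (fun n : ℕ => l / 4 * (Nat.primeCounting n : ℝ)) atTop atTop :=
    (tendsto_natCast_atTop_atTop.comp Nat.tendsto_primeCounting).const_mul_atTop (by linarith)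
  obtain ⟨N₀, hN₀⟩ := eventually_atTop.1 (h2.and ((h3.eventually_ge_atTop (K : ℝ)).and
    (Nat.tendsto_primeCounting.eventually_gt_atTop 0)))
  refine ⟨1 - l / 4, by linarith, N₀, fun N hN => ?_⟩
  obtain ⟨g1, g2, g3⟩ := hN₀ N hN
  have hpi : ({p : ℕ | p ≤ N ∧ p.Prime}.ncard) = Nat.primeCounting N := by
    rw [← Nat.primesLE_card_eq_primeCounting, ← Set.ncard_coe_finset]
    congr 1
    ext p
    simp [Nat.mem_primesLE]
  rw [hpi]
  have g3' : (0 : ℝ) < (Nat.primeCounting N : ℝ) := by exact_mod_cast g3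
  rw [div_le_iff₀ g3']
  -- lower bound for `cnt X N`
  have g4 : l / 2 * (Nat.primeCounting N : ℝ) ≤ (cnt X N : ℝ) := by
    have h5 := dens_le C X hX N
    unfold dens at g1
    rw [lt_div_iff₀ g3'] at g1
    exact le_trans g1.le (by exact_mod_cast h5)
  have g5 : cnt X N = {p : ℕ | p ≤ N ∧ p.Prime ∧ p ∈ X}.ncard := by
    unfold cnt
    rw [← Nat.card_coe_set_eq]
    rfl
  have g6 : {p : ℕ | p ≤ N ∧ p.Prime ∧ HasRoot Ψ p}.ncard + {p : ℕ | p ≤ N ∧ p.Prime ∧ p ∈ X}.ncard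
      ≤ Nat.primeCounting N + K := by
    rw [← Set.ncard_union_add_ncard_inter _ _ (finite_set N _) (finite_set N _), ← hpi]
    apply add_le_add
    · apply Set.ncard_le_ncard _ ((Set.finite_Iic N).subset fun _ h => h.1)
      rintro p (h | h)
      · exact ⟨h.1, h.2.1⟩
      · exact ⟨h.1, h.2.1⟩
    · rw [hK, ← Set.ncard_coe_finset]
      apply Set.ncard_le_ncard _ (Finset.finite_toSet _)
      rintro p ⟨⟨_, hp, hr⟩, ⟨_, _, hx⟩⟩
      rw [Finset.mem_coe, Nat.mem_primeFactors]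
      have hDn : D.natAbs ≠ 0 := Int.natAbs_ne_zero.2 hD0
      refine ⟨hp, ?_, hDn⟩
      rcases hx with hx | hx
      · exact Int.natCast_dvd.1 hx
      · by_contra hcon
        have hpa : ¬ (p : ℤ) ∣ Ψ.leadingCoeff := fun h =>
          hcon (Int.natCast_dvd.1 (dvd_trans h haD))
        rcases hr with hr | ⟨hF, x, hx'⟩
        · exact hx hr
        · exact hx (root_of_padic hpa hx')
  have g7 : (({p : ℕ | p ≤ N ∧ p.Prime ∧ HasRoot Ψ p}.ncard : ℝ) + (cnt X N : ℝ)) ≤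
      (Nat.primeCounting N : ℝ) + (K : ℝ) := by
    rw [g5]
    exact_mod_cast g6
  nlinarith

end Pool.Agent.H294P
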