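import Pool.Agent.H294P.Good

/-!
The exceptional sets at a prime of good reduction.
-/

set_option autoImplicit false
set_option maxHeartbeats 400000

namespace Pool.Agent.H294P

open Polynomial

/-- the multiplier along an orbit -/
def lam {p : ℕ} (a : ZMod p) (t : ZMod p) : ℕ → ZMod p
  | 0 => 1
  | m + 1 => (2 * (fun y => y ^ 2 + a)^[m] t) * lam a t m

section
variable {p : ℕ} [Fact p.Prime]

theorem derivative_it_eq (a t : ZMod p) (m : ℕ) :
    (derivative (it (X ^ 2 + C a) m)).eval t = lam a t m := by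
  induction m with
  | zero => simp [it_zero, lam]
  | succ m ih =>
    rw [it_succ, derivative_comp, eval_mul, ih, eval_comp, eval_it, lam]
    have h1 : (fun y : ZMod p => (X ^ 2 + C a).eval y) = fun y => y ^ 2 + a := by
      funext y
      simp
    rw [h1]
    simp
    ring

/-- the bound for the exceptional numbers -/
theorem exc_bound {a : ZMod p} {n : ℕ} (hn : n ≠ 0) (h : Exc p a n) :
    ∃ s e : ℕ, s ≠ 0 ∧ s ≤ p * p ∧ n = s * p ^ e := by
  have hp : p.Prime := Fact.out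
  obtain ⟨t, hmn, h⟩ := h
  set m := Function.minimalPeriod (fun y => y ^ 2 + a) t with hm
  have hm0 : m ≠ 0 := by
    intro h0
    rw [h0, zero_dvd_iff] at hmn
    exact hn hmn
  have hmp : m ≤ p := by
    have h1 : m ≤ Fintype.card (ZMod p) := Function.minimalPeriod_le_card
    rwa [ZMod.card] at h1
  rcases h with h | ⟨e, h⟩
  · exact ⟨m, 0, hm0, hmp.trans (Nat.le_mul_self p), by simpa using h⟩
  · set l := (derivative (it (X ^ 2 + C a) m)).eval t with hl
    refine ⟨m * orderOf l, e, ?_, ?_, h⟩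
    · intro h1
      rw [h1, zero_mul] at h
      exact hn h
    · have hl0 : l ≠ 0 := by
        intro h1
        apply hn
        rw [h, h1]
        have : orderOf (0 : ZMod p) = 0 := by
          rw [orderOf_eq_zero_iff']
          intro j hj
          rw [zero_pow hj.ne']
          exact zero_ne_one
        rw [this]
        simp
      have h2 : orderOf l ≤ p - 1 := by
        apply Nat.le_of_dvd (by have := hp.two_le; omega)
        apply orderOf_dvd_of_pow_eq_one
        exact ZMod.pow_card_sub_one_eq_one hl0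
      exact Nat.mul_le_mul hmp (h2.trans (Nat.sub_le _ _))

end

theorem exc_aux {p : ℕ} [Fact p.Prime] {a : ZMod p} {n : ℕ} (hn : n ≠ 0) (h : Exc p a n) :
    ∃ t : ZMod p, ∃ m < p + 1, m ≠ 0 ∧ (fun y => y ^ 2 + a)^[m] t = t ∧
      (∀ j < m, j ≠ 0 → (fun y => y ^ 2 + a)^[j] t ≠ t) ∧
      (n = m ∨ ∃ r < p, r ≠ 0 ∧ lam a t m ^ r = 1 ∧ (∀ j < r, j ≠ 0 → lam a t m ^ j ≠ 1) ∧
        r ∣ p - 1 ∧ ∃ e : ℕ, n = m * r * p ^ e) := by
  have hp : p.Prime := Fact.out
  obtain ⟨t, hmn, h⟩ := h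
  set m := Function.minimalPeriod (fun y => y ^ 2 + a) t with hm
  have hm0 : m ≠ 0 := by
    intro h0
    rw [h0, zero_dvd_iff] at hmn
    exact hn hmn
  have hmp : m ≤ p := by
    have h1 : m ≤ Fintype.card (ZMod p) := Function.minimalPeriod_le_card
    rwa [ZMod.card] at h1
  refine ⟨t, m, by omega, hm0, Function.iterate_minimalPeriod, ?_, ?_⟩
  · intro j hj hj0 h1
    have h2 : Function.IsPeriodicPt (fun y => y ^ 2 + a) j t := h1
    have := h2.minimalPeriod_le (Nat.pos_of_ne_zero hj0)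
    omega
  · rcases h with h | ⟨e, h⟩
    · exact Or.inl h
    · right
      rw [derivative_it_eq] at h
      have hr0 : orderOf (lam a t m) ≠ 0 := by
        intro h1
        apply hn
        rw [h, h1]
        simp
      have hl0 : lam a t m ≠ 0 := by
        intro h1
        have h2 := pow_orderOf_eq_one (lam a t m)
        rw [h1] at h2 hr0
        rw [zero_pow hr0] at h2
        exact zero_ne_one h2
      have h2d : orderOf (lam a t m) ∣ p - 1 := by
        apply orderOf_dvd_of_pow_eq_one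
        exact ZMod.pow_card_sub_one_eq_one hl0
      have h2 : orderOf (lam a t m) ≤ p - 1 :=
        Nat.le_of_dvd (by have := hp.two_le; omega) h2d
      refine ⟨orderOf (lam a t m), by have := hp.two_le; omega, hr0, pow_orderOf_eq_one _, ?_, h2d,
        e, h⟩
      intro j hj hj0
      exact pow_ne_one_of_lt_orderOf hj0 hj

set_option synthInstance.maxSize 10000 in
theorem dec_three : ∀ a t : ZMod 3, ∀ m < 3 + 1, m ≠ 0 → (fun y => y ^ 2 + a)^[m] t = t →
    (∀ j < m, j ≠ 0 → (fun y => y ^ 2 + a)^[j] t ≠ t) →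
    ((m = 2 ∨ (m = 1 ∧ a ≠ 2)) ∧ ∀ r < 3, r ≠ 0 → lam a t m ^ r = 1 →
      (∀ j < r, j ≠ 0 → lam a t m ^ j ≠ 1) → a ≠ 2 ∧ (m * r = 1 ∨ m * r = 2)) := by
  decide +kernel

set_option synthInstance.maxSize 10000 in
theorem dec_five : ∀ a t : ZMod 5, ∀ m < 5 + 1, m ≠ 0 → (fun y => y ^ 2 + a)^[m] t = t →
    (∀ j < m, j ≠ 0 → (fun y => y ^ 2 + a)^[j] t ≠ t) →
    (((m = 2 ∨ m = 3) ∨ (m = 1 ∧ a ≠ 1)) ∧ ∀ r < 5, r ≠ 0 → lam a t m ^ r = 1 →
      (∀ j < r, j ≠ 0 → lam a t m ^ j ≠ 1) →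
      a ≠ 1 ∧ (m * r = 1 ∨ m * r = 2 ∨ m * r = 4 ∨ m * r = 8)) := by
  decide +kernel

set_option synthInstance.maxSize 10000 in
theorem dec_seven : ∀ a t : ZMod 7, ∀ m < 7 + 1, m ≠ 0 → (fun y => y ^ 2 + a)^[m] t = t →
    (∀ j < m, j ≠ 0 → (fun y => y ^ 2 + a)^[j] t ≠ t) →
    (m < 4 ∧ ∀ r < 7, r ≠ 0 → lam a t m ^ r = 1 →
      (∀ j < r, j ≠ 0 → lam a t m ^ j ≠ 1) →
      a ≠ 3 ∧ a ≠ 6 ∧ (m * r = 1 ∨ m * r = 2 ∨ m * r = 3 ∨ m * r = 4 ∨ m * r = 6)) := by
  decide +kernel

/-- for `n > 3` -/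
theorem exc_seven {a : ZMod 7} {n : ℕ} (hn : 3 < n) (h : Exc 7 a n) :
    a ≠ 3 ∧ a ≠ 6 ∧ ∃ i e : ℕ, (i = 1 ∨ i = 2 ∨ i = 3 ∨ i = 4 ∨ i = 6) ∧ n = i * 7 ^ e := by
  have : Fact (Nat.Prime 7) := ⟨by norm_num⟩
  obtain ⟨t, m, hm3, hm0, h1, h2, h3⟩ := exc_aux (by omega) h
  obtain ⟨h4, h5⟩ := dec_seven a t m hm3 hm0 h1 h2
  rcases h3 with h3 | ⟨r, hr, hr0, hr1, hr2, _, e, he⟩
  · omega
  · obtain ⟨h6, h7, h8⟩ := h5 r hr hr0 hr1 hr2
    exact ⟨h6, h7, m * r, e, h8, he⟩

/-- a periodic orbit of `y² + a` in `ZMod p`, `p` odd, has at most `(p + 1) / 2` elements -/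
theorem period_le {p : ℕ} [Fact p.Prime] (hp2 : p ≠ 2) {a t : ZMod p} {m : ℕ}
    (h1 : (fun y => y ^ 2 + a)^[m] t = t)
    (h2 : ∀ j < m, j ≠ 0 → (fun y => y ^ 2 + a)^[j] t ≠ t) : 2 * m ≤ p + 1 := by
  classical
  set f : ZMod p → ZMod p := fun y => y ^ 2 + a with hf
  have hinj : ∀ i j : ℕ, i < j → j < m → f^[i] t ≠ f^[j] t := by
    intro i j hij hjm h
    have h3 : f^[m - j] (f^[i] t) = f^[m - j] (f^[j] t) := congrArg _ h
    rw [← Function.iterate_add_apply, ← Function.iterate_add_apply, Nat.sub_add_cancel hjm.le,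
      h1] at h3
    exact h2 (m - j + i) (by omega) (by omega) h3
  set S : Finset (ZMod p) := (Finset.range m).image (fun i => f^[i] t) with hS
  have hcS : S.card = m := by
    rw [hS, Finset.card_image_of_injOn, Finset.card_range]
    intro i hi j hj hij
    rw [Finset.mem_coe, Finset.mem_range] at hi hj
    rcases lt_trichotomy i j with h | h | h
    · exact absurd hij (hinj i j h hj)
    · exact h
    · exact absurd hij.symm (hinj j i h hi)
  set S' : Finset (ZMod p) := S.image (fun y => -y) with hS'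
  have hcS' : S'.card = m := by
    rw [hS', Finset.card_image_of_injective _ neg_injective, hcS]
  have hinter : S ∩ S' ⊆ {0} := by
    intro y hy
    rw [Finset.mem_inter] at hy
    obtain ⟨hy1, hy2⟩ := hy
    rw [hS', Finset.mem_image] at hy2
    obtain ⟨z, hz, hzy⟩ := hy2
    rw [hS, Finset.mem_image] at hy1 hz
    obtain ⟨i, hi, hiy⟩ := hy1
    obtain ⟨j, hj, hjz⟩ := hz
    rw [Finset.mem_range] at hi hj
    have h3 : f^[i + 1] t = f^[j + 1] t := by
      rw [Function.iterate_succ_apply', Function.iterate_succ_apply']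
      change (f^[i] t) ^ 2 + a = (f^[j] t) ^ 2 + a
      have : f^[i] t = - f^[j] t := by
        change f^[j] t = z at hjz
        change f^[i] t = y at hiy
        rw [hiy, hjz, hzy]
      rw [this]
      ring
    have hij : i = j := by
      rcases lt_trichotomy i j with h | h | h
      · exfalso
        rcases Nat.lt_or_ge (j + 1) m with h5 | h5
        · exact hinj (i + 1) (j + 1) (by omega) h5 h3
        · have h6 : j + 1 = m := by omega
          rw [h6, h1] at h3
          exact h2 (i + 1) (by omega) (by omega) h3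
      · exact h
      · exfalso
        rcases Nat.lt_or_ge (i + 1) m with h5 | h5
        · exact hinj (j + 1) (i + 1) (by omega) h5 h3.symm
        · have h6 : i + 1 = m := by omega
          rw [h6, h1] at h3
          exact h2 (j + 1) (by omega) (by omega) h3.symm
    rw [Finset.mem_singleton]
    have h7 : y = -y := by
      have e1 : y = z := by
        rw [← hiy, ← hjz, hij]
      rw [e1] at hzy ⊢
      exact hzy.symm
    have h8 : (2 : ZMod p) * y = 0 := by linear_combination h7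
    rcases mul_eq_zero.1 h8 with h9 | h9
    · exfalso
      have h10 : ((2 : ℕ) : ZMod p) = 0 := by exact_mod_cast h9
      rw [ZMod.natCast_eq_zero_iff] at h10
      have := (Nat.prime_dvd_prime_iff_eq (Fact.out : p.Prime) Nat.prime_two).1 h10
      exact hp2 this
    · exact h9
  have h11 : (S ∪ S').card ≤ p := by
    have := Finset.card_le_univ (S ∪ S')
    rwa [ZMod.card] at this
  have h12 := Finset.card_union_add_card_inter S S'
  have h13 : (S ∩ S').card ≤ 1 := by
    have := Finset.card_le_card hinter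
    rwa [Finset.card_singleton] at this
  omega

theorem exc_three {a : ZMod 3} {n : ℕ} (hn : n ≠ 0) (h : Exc 3 a n) :
    (a ≠ 2 ∧ ∃ e, n = 3 ^ e ∨ n = 2 * 3 ^ e) ∨ n = 2 := by
  have : Fact (Nat.Prime 3) := ⟨by norm_num⟩
  obtain ⟨t, m, hm3, hm0, h1, h2, h3⟩ := exc_aux hn h
  obtain ⟨h4, h5⟩ := dec_three a t m hm3 hm0 h1 h2
  rcases h3 with h3 | ⟨r, hr, hr0, hr1, hr2, _, e, he⟩
  · rcases h4 with h4 | ⟨h4, h6⟩
    · right; omega
    · left
      exact ⟨h6, 0, Or.inl (by omega)⟩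
  · obtain ⟨h6, h7⟩ := h5 r hr hr0 hr1 hr2
    left
    refine ⟨h6, e, ?_⟩
    rcases h7 with h7 | h7
    · left; rw [he, h7, one_mul]
    · right; rw [he, h7]

theorem exc_five {a : ZMod 5} {n : ℕ} (hn : n ≠ 0) (h : Exc 5 a n) :
    (a ≠ 1 ∧ ∃ e, n = 5 ^ e ∨ n = 2 * 5 ^ e ∨ n = 4 * 5 ^ e ∨ n = 8 * 5 ^ e) ∨ n = 2 ∨ n = 3 := by
  have : Fact (Nat.Prime 5) := ⟨by norm_num⟩
  obtain ⟨t, m, hm3, hm0, h1, h2, h3⟩ := exc_aux hn h
  obtain ⟨h4, h5⟩ := dec_five a t m hm3 hm0 h1 h2
  rcases h3 with h3 | ⟨r, hr, hr0, hr1, hr2, _, e, he⟩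
  · rcases h4 with h4 | ⟨h4, h6⟩
    · right; omega
    · left
      exact ⟨h6, 0, Or.inl (by omega)⟩
  · obtain ⟨h6, h7⟩ := h5 r hr hr0 hr1 hr2
    left
    refine ⟨h6, e, ?_⟩
    rcases h7 with h7 | h7 | h7 | h7
    · left; rw [he, h7, one_mul]
    · right; left; rw [he, h7]
    · right; right; left; rw [he, h7]
    · right; right; right; rw [he, h7]

end Pool.Agent.H294P
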