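import Pool.Agent.H294P.Main

/-!
The density statement in terms of the dynatomic polynomial.
-/

set_option autoImplicit false
set_option maxHeartbeats 400000

namespace Pool.Agent.H294P

open Polynomial

theorem conclude {f : ℚ[X]} (hf : f.natDegree = 2) {n : ℕ} {c : ℚ}
    (hc : c = f.coeff 2 * f.coeff 0 + f.coeff 1 / 2 - f.coeff 1 ^ 2 / 4) (hG : Good c n) {Φ : ℚ[X]}
    (hΦ : algebraMap ℚ[X] (RatFunc ℚ) Φ = ∏ d ∈ n.divisors,
      (algebraMap ℚ[X] (RatFunc ℚ) ((f.comp)^[d] X - X)) ^ (ArithmeticFunction.moebius (n / d)))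
    {Ψ : ℤ[X]} {e : ℤ} (he : e ≠ 0) (hΨ : Ψ.map (Int.castRingHom ℚ) = C (e : ℚ) * Φ) :
    ∃ r : ℝ, r < 1 ∧ ∃ N₀ : ℕ, ∀ N : ℕ, N₀ ≤ N →
      (({p : ℕ | p ≤ N ∧ p.Prime ∧
          ((∃ x : ZMod p, (Ψ.map (Int.castRingHom (ZMod p))).IsRoot x) ∨
            ∃ _ : Fact p.Prime, ∃ x : ℚ_[p], aeval x Φ = 0)}.ncard : ℝ) /
        ({p : ℕ | p ≤ N ∧ p.Prime}.ncard : ℝ)) ≤ r := by
  rw [hc] at hG
  have h := good_apply hf hG hΦ he hΨ
  have key : ∀ p : ℕ, ((∃ x : ZMod p, (Ψ.map (Int.castRingHom (ZMod p))).IsRoot x) ∨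
      ∃ _ : Fact p.Prime, ∃ x : ℚ_[p], aeval x Φ = 0) ↔ HasRoot Ψ p := by
    intro p
    unfold HasRoot
    have h1 : ∀ (_ : Fact p.Prime) (x : ℚ_[p]), aeval x Φ = 0 ↔ aeval x Ψ = 0 := by
      intro _ x
      have h2 : aeval x Ψ = (e : ℚ_[p]) * aeval x Φ := by
        have h3 : aeval x Ψ = aeval x (Ψ.map (Int.castRingHom ℚ)) := by
          rw [aeval_def, aeval_def, eval₂_map]
          congr 1
        rw [h3, hΨ, map_mul, aeval_C]
        congr 1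
      rw [h2, mul_eq_zero]
      have h4 : (e : ℚ_[p]) ≠ 0 := by exact_mod_cast he
      simp [h4]
    constructor
    · rintro (h2 | ⟨h3, x, hx⟩)
      · exact Or.inl h2
      · exact Or.inr ⟨h3, x, (h1 h3 x).1 hx⟩
    · rintro (h2 | ⟨h3, x, hx⟩)
      · exact Or.inl h2
      · exact Or.inr ⟨h3, x, (h1 h3 x).2 hx⟩
  obtain ⟨r, hr, N₀, hN⟩ := h
  refine ⟨r, hr, N₀, fun N hNN => ?_⟩
  have h5 : {p : ℕ | p ≤ N ∧ p.Prime ∧
          ((∃ x : ZMod p, (Ψ.map (Int.castRingHom (ZMod p))).IsRoot x) ∨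
            ∃ _ : Fact p.Prime, ∃ x : ℚ_[p], aeval x Φ = 0)} =
      {p : ℕ | p ≤ N ∧ p.Prime ∧ HasRoot Ψ p} := by
    ext p
    exact and_congr Iff.rfl (and_congr Iff.rfl (key p))
  rw [h5]
  exact hN N hNN

/-- fixed points of `f` and of its normal form -/
theorem fixed_transfer {f : ℚ[X]} (hf : f.natDegree = 2) {c : ℚ}
    (hc : c = f.coeff 2 * f.coeff 0 + f.coeff 1 / 2 - f.coeff 1 ^ 2 / 4)
    {K : Type*} [Field K] [CharZero K] [Algebra ℚ K] (h : ∀ x : K, aeval x f ≠ x) (y : K) :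
    y ^ 2 + (c : K) ≠ y := by
  intro hy
  have ha2 : f.coeff 2 ≠ 0 := by
    have := leadingCoeff_ne_zero.2 (show f ≠ 0 by rintro rfl; simp at hf)
    rwa [leadingCoeff, hf] at this
  have ha2' : (f.coeff 2 : K) ≠ 0 := by exact_mod_cast ha2
  apply h ((y - (f.coeff 1 : K) / 2) / (f.coeff 2 : K))
  set x : K := (y - (f.coeff 1 : K) / 2) / (f.coeff 2 : K) with hx
  have hxy : (f.coeff 2 : K) * x = y - (f.coeff 1 : K) / 2 := by
    rw [hx]
    field_simp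
  have hfx : aeval x f = (f.coeff 2 : K) * x ^ 2 + (f.coeff 1 : K) * x + (f.coeff 0 : K) := by
    conv_lhs => rw [param f hf]
    simp
  rw [hfx]
  have hcK : (c : K) = (f.coeff 2 : K) * (f.coeff 0 : K) + (f.coeff 1 : K) / 2 -
      (f.coeff 1 : K) ^ 2 / 4 := by
    rw [hc]
    push_cast
    ring
  apply mul_left_cancel₀ ha2'
  rw [hcK] at hy
  have hyx : y = (f.coeff 2 : K) * x + (f.coeff 1 : K) / 2 := by rw [hxy]; ring
  rw [hyx] at hy
  linear_combination hy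

end Pool.Agent.H294P
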