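import Pool.Agent.H294P.Strong
import Pool.Agent.H294P.Fin

/-!
The structure of the exceptions.
-/

set_option autoImplicit false
set_option maxHeartbeats 400000

namespace Pool.Agent.H294P

open Polynomial NumberField Finset

theorem isSquare_of_even {D : ℕ} (hD : D ≠ 0)
    (h : ∀ (l : ℕ) (_ : Fact l.Prime), l ∣ D → Even (padicValNat l D)) : IsSquare D := by
  obtain ⟨a, b, hab, hsq⟩ := Nat.sq_mul_squarefree D
  by_cases ha : a = 1
  · rw [← hab, ha, mul_one]
    exact ⟨b, by ring⟩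
  exfalso
  obtain ⟨l, hl, hla⟩ := Nat.exists_prime_and_dvd ha
  have hf : Fact l.Prime := ⟨hl⟩
  have ha0 : a ≠ 0 := hsq.ne_zero
  have hb0 : b ≠ 0 := by
    rintro rfl
    apply hD
    rw [← hab]
    simp
  have h1 := h l hf (by rw [← hab]; exact dvd_mul_of_dvd_right hla _)
  have h2 : padicValNat l D = 2 * padicValNat l b + padicValNat l a := by
    rw [← hab, padicValNat.mul (pow_ne_zero _ hb0) ha0, padicValNat.pow]
  have h3 : padicValNat l a = 1 := by
    have h4 : 1 ≤ padicValNat l a := one_le_padicValNat_of_dvd ha0 hla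
    by_contra h5
    have h6 : 2 ≤ padicValNat l a := by omega
    have h7 : l ^ 2 ∣ a := (padicValNat_dvd_iff_le ha0).2 h6
    rw [Nat.squarefree_iff_prime_squarefree] at hsq
    exact hsq l hl (by rwa [← pow_two])
  rw [h2, h3] at h1
  obtain ⟨k, hk⟩ := h1
  omega

theorem even_val {c : ℚ} {l : ℕ} [hl : Fact l.Prime] (hd : l ∣ (4 * c).den) {x : ℚ_[l]}
    (hx : x ^ 2 + c = x) : Even (padicValNat l (4 * c).den) := by
  have h0 : (4 * c) ≠ 0 := by
    intro h
    rw [h] at hd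
    simp at hd
    exact hl.out.one_lt.ne' hd
  have hnum : padicValInt l (4 * c).num = 0 := by
    apply padicValInt.eq_zero_of_not_dvd
    intro h2
    have := Nat.dvd_gcd (Int.natCast_dvd.1 h2) hd
    rw [Nat.coprime_iff_gcd_eq_one.1 (4 * c).reduced] at this
    exact hl.out.one_lt.ne' (Nat.dvd_one.1 this)
  have hval : padicValRat l (4 * c) = - (padicValNat l (4 * c).den : ℤ) := by
    have h2 : padicValRat l (4 * c) = padicValInt l (4 * c).num - padicValNat l (4 * c).den := rfl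
    rw [h2, hnum]
    simp
  have hpos : 1 ≤ padicValNat l (4 * c).den := one_le_padicValNat_of_dvd (4 * c).den_nz hd
  have hne : (-(4 * c) + 1 : ℚ) ≠ 0 := by
    intro h
    have h1 : 4 * c = 1 := by linear_combination -h
    have h1' : padicValRat l (4 * c) = 0 := by rw [h1, padicValRat.one]
    omega
  have h1 : padicValRat l (-(4 * c) + 1) = - (padicValNat l (4 * c).den : ℤ) := by
    rw [padicValRat.add_eq_of_lt hne (neg_ne_zero.2 h0) one_ne_zero, padicValRat.neg, hval]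
    rw [padicValRat.neg, hval, padicValRat.one]
    omega
  have h2 : (2 * x - 1) ^ 2 = ((-(4 * c) + 1 : ℚ) : ℚ_[l]) := by
    push_cast
    linear_combination 4 * hx
  have h3 := congrArg Padic.valuation h2
  rw [Padic.valuation_pow, Padic.valuation_ratCast, h1] at h3
  have h4 : (padicValNat l (4 * c).den : ℤ) = (- (2 * x - 1).valuation) + (- (2 * x - 1).valuation) := by
    have h5 : ((2 : ℕ) : ℤ) * (2 * x - 1).valuation = 2 * (2 * x - 1).valuation := rfl
    rw [h5] at h3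
    linarith
  have h5 : Even (padicValNat l (4 * c).den : ℤ) := ⟨_, h4⟩
  exact_mod_cast h5

theorem den_four {c : ℚ} (h : 2 ∣ (4 * c).den) : c.den = 4 * (4 * c).den := by
  have h1 : c = (((4 * c).num : ℤ) : ℚ) / (((4 * (4 * c).den : ℕ) : ℤ) : ℚ) := by
    have h2 := Rat.mul_den_eq_num (4 * c)
    have h3 : (((4 * c).den : ℕ) : ℚ) ≠ 0 := by exact_mod_cast (4 * c).den_nz
    push_cast
    rw [← h2]
    field_simp
  have hco : Nat.Coprime (4 * c).num.natAbs (((4 * (4 * c).den : ℕ) : ℤ)).natAbs := by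
    rw [Int.natAbs_natCast]
    have h2 := (4 * c).reduced
    have h3 : Nat.Coprime (4 * c).num.natAbs 2 := Nat.Coprime.coprime_dvd_right h h2
    have h4 : Nat.Coprime (4 * c).num.natAbs 4 := by
      have : (4 : ℕ) = 2 ^ 2 := rfl
      rw [this]
      exact h3.pow_right 2
    exact h4.mul_right h2
  have h2 := Rat.den_div_eq_of_coprime (a := (4 * c).num) (b := ((4 * (4 * c).den : ℕ) : ℤ))
    (by exact_mod_cast Nat.mul_pos (by norm_num) (4 * c).den_pos) hco
  rw [← h1] at h2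
  exact_mod_cast h2

theorem exceptions {c : ℚ} {n : ℕ} (hn : 3 < n) (hG : ¬ Good c n) :
    IsSquare c.den ∧ 144 ∣ c.den ∧ c ≤ -5 / 4 ∧
    (∀ (l : ℕ) (_ : Fact l.Prime), l ∣ c.den → ∃ x : ℚ_[l], x ^ 2 + c = x) ∧
    (∀ (p : ℕ) (_ : Fact p.Prime), p ≠ 2 → ¬ p ∣ c.den → 2 * n < p ^ 2 ∧
      (∀ l : ℕ, l.Prime → l ∣ n → 2 * l ≤ p + 1) ∧
      ∃ t : ZMod p, ∃ m : ℕ, m ∣ n ∧
        m = Function.minimalPeriod (fun y => y ^ 2 + (c.num : ZMod p) / (c.den : ZMod p)) t ∧
        (n = m ∨ n = m * orderOf (∏ i ∈ range m,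
          (2 * (fun y => y ^ 2 + (c.num : ZMod p) / (c.den : ZMod p))^[i] t)))) ∧
    (5 ∣ c.den ∨ n = 4 ∨ (n = 8 ∧ (5 : ℤ) ∣ (c - 2).num)) ∧
    (7 ∣ c.den ∨ n = 4 ∨ (n = 6 ∧
      ((7 : ℤ) ∣ c.num ∨ (7 : ℤ) ∣ (c - 1).num ∨ (7 : ℤ) ∣ (c - 5).num))) := by
  have h2 : 2 ∣ (4 * c).den := by
    by_contra h
    exact hG (good_two_all hn h)
  have h3 : 3 ∣ c.den := by
    by_contra h
    exact hG (good_three hn h)
  have hfix : ∀ (l : ℕ) (_ : Fact l.Prime), l ∣ (4 * c).den → ∃ x : ℚ_[l], x ^ 2 + c = x := by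
    intro l hl hd
    by_contra h
    push Not at h
    exact hG (good_bad l (norm_gt_one hd) h n)
  have hden := den_four h2
  have h3' : 3 ∣ (4 * c).den := by
    rw [hden] at h3
    rcases (Nat.prime_three.dvd_mul).1 h3 with h | h
    · omega
    · exact h
  obtain ⟨s, hs⟩ : IsSquare (4 * c).den := by
    apply isSquare_of_even (4 * c).den_nz
    intro l hl hd
    obtain ⟨x, hx⟩ := hfix l hl hd
    exact even_val hd hx
  have hs2 : 2 ∣ s := by
    rw [hs] at h2
    rcases (Nat.prime_two.dvd_mul).1 h2 with h | h <;> exact h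
  have hs3 : 3 ∣ s := by
    rw [hs] at h3'
    rcases (Nat.prime_three.dvd_mul).1 h3' with h | h <;> exact h
  have hs6 : 6 ∣ s := by omega
  have hprime : ∀ (l : ℕ), l.Prime → l ∣ c.den → l ∣ (4 * c).den := by
    intro l hl hd
    rw [hden] at hd
    rcases (hl.dvd_mul).1 hd with h | h
    · have h4 : l ∣ 2 ^ 2 := h
      have h5 := hl.dvd_of_dvd_pow h4
      exact dvd_trans h5 h2
    · exact h
  -- the class of `c` modulo `p`
  have hcls : ∀ (p : ℕ) (_ : Fact p.Prime), ¬ p ∣ c.den → ∀ a b : ℤ, (b : ZMod p) = 1 →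
      (b : ℚ) * c = a → (a : ZMod p) = (c.num : ZMod p) / (c.den : ZMod p) := by
    intro p hp hd a b hb hc
    have h5 : (a : ℚ) * (c.den : ℚ) = (b : ℚ) * (c.num : ℚ) := by
      rw [← hc, mul_assoc, Rat.mul_den_eq_num]
    have h6 : a * (c.den : ℤ) = b * c.num := by exact_mod_cast h5
    have h7 := congrArg (fun z : ℤ => (z : ZMod p)) h6
    push_cast at h7
    rw [hb, one_mul] at h7
    have h8 : (c.den : ZMod p) ≠ 0 := by
      rw [Ne, ZMod.natCast_eq_zero_iff]
      exact hd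
    rw [← h7]
    field_simp
  have hdvd : ∀ (p : ℕ) (_ : Fact p.Prime), ¬ p ∣ c.den → ∀ (r : ℤ),
      (c.num : ZMod p) / (c.den : ZMod p) = r → (p : ℤ) ∣ (c - r).num := by
    intro p hp hd r hr
    have h8 : (c.den : ZMod p) ≠ 0 := by
      rw [Ne, ZMod.natCast_eq_zero_iff]
      exact hd
    have h9 : (c - r).den = c.den := Rat.sub_intCast_den c r
    have h10 : (c - r).num = c.num - r * c.den := by
      have h11 := Rat.mul_den_eq_num (c - r)
      rw [h9] at h11
      have h12 := Rat.mul_den_eq_num c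
      have h13 : ((c - r).num : ℚ) = ((c.num - r * c.den : ℤ) : ℚ) := by
        rw [← h11]
        push_cast
        rw [sub_mul, h12]
      exact_mod_cast h13
    rw [h10, ← ZMod.intCast_zmod_eq_zero_iff_dvd]
    push_cast
    rw [← hr]
    field_simp
    ring
  refine ⟨⟨2 * s, by rw [hden, hs]; ring⟩, ?_, ?_, ?_, ?_, ?_, ?_⟩
  · obtain ⟨t, rfl⟩ := hs6
    exact ⟨t * t, by rw [hden, hs]; ring⟩
  · by_contra h
    push Not at h
    exact hG (good_real' h hn)
  · intro l hl hd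
    exact hfix l hl (hprime l hl.out hd)
  · intro p hp hp2 hd
    obtain ⟨a, b, hb, hc, hE⟩ := exs_of_not hp.out hp2 hd hn hG
    obtain ⟨h5, h6⟩ := exs_bound hp2 hn hE
    refine ⟨h5, ?_, ?_⟩
    · intro l hl hln
      rcases h6 l hl hln with h7 | h7
      · exact h7
      · rw [h7]
        have h8 := hp.out.two_le
        have h9 : p ≠ 3 := by
          rintro rfl
          exact hd h3
        omega
    · rw [hcls p hp hd a b hb hc] at hE
      obtain ⟨t, hmn, ht⟩ := hE
      refine ⟨t, _, hmn, rfl, ?_⟩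
      rw [derivative_it_prod] at ht
      exact ht
  · by_cases hd : 5 ∣ c.den
    · exact Or.inl hd
    · right
      have hp5 : Fact (Nat.Prime 5) := ⟨Nat.prime_five⟩
      obtain ⟨a, b, hb, hc, hE⟩ := exs_of_not Nat.prime_five (by norm_num) hd hn hG
      rw [hcls 5 hp5 hd a b hb hc] at hE
      rcases exs_five hn hE with ⟨h4, _⟩ | ⟨h8, h9⟩
      · exact Or.inl h4
      · exact Or.inr ⟨h8, by exact_mod_cast hdvd 5 hp5 hd 2 (by rw [h9]; norm_num)⟩
  · by_cases hd : 7 ∣ c.den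
    · exact Or.inl hd
    · right
      have hp7 : Fact (Nat.Prime 7) := ⟨prime_seven⟩
      obtain ⟨a, b, hb, hc, hE⟩ := exs_of_not prime_seven (by norm_num) hd hn hG
      rw [hcls 7 hp7 hd a b hb hc] at hE
      rcases exs_seven hn hE with ⟨h4, _⟩ | ⟨h6, h9 | h9 | h9⟩
      · exact Or.inl h4
      · refine Or.inr ⟨h6, Or.inl ?_⟩
        have := hdvd 7 hp7 hd 0 (by rw [h9]; norm_num)
        rw [Int.cast_zero, sub_zero] at this
        exact_mod_cast this
      · exact Or.inr ⟨h6, Or.inr (Or.inl (by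
          exact_mod_cast hdvd 7 hp7 hd 1 (by rw [h9]; norm_num)))⟩
      · exact Or.inr ⟨h6, Or.inr (Or.inr (by
          exact_mod_cast hdvd 7 hp7 hd 5 (by rw [h9]; norm_num)))⟩

end Pool.Agent.H294P
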