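import Pool.Agent.H294P.Inert
import Pool.Agent.H294P.Burn

/-!
Galois number fields containing the periodic points; Frobenius elements.
-/

set_option autoImplicit false
set_option maxHeartbeats 400000

namespace Pool.Agent.H294P

open Polynomial NumberField
open Pool.Agent.W569.FM

theorem exists_galois' {F : Type} [Field F] [CharZero F] (f : F[X]) :
    ∃ (L : Type) (_ : Field L) (_ : Algebra F L) (_ : FiniteDimensional F L)
    (_ : IsGalois F L), (f.map (algebraMap F L)).Splits := by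
  have hnor : Normal F f.SplittingField := Normal.of_isSplittingField f
  exact ⟨f.SplittingField, inferInstance, inferInstance, inferInstance, { },
    SplittingField.splits f⟩

theorem exists_galois (f : ℚ[X]) : ∃ (L : Type) (_ : Field L) (_ : NumberField L)
    (_ : IsGalois ℚ L), (f.map (algebraMap ℚ L)).Splits := by
  obtain ⟨L, hL, hA, hfd, hG, hs⟩ := exists_galois' f
  have hc : CharZero L := charZero_of_injective_algebraMap (algebraMap ℚ L).injective
  have h0 : hA = DivisionRing.toRatAlgebra := Subsingleton.elim _ _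
  subst h0
  exact ⟨L, hL, ⟨⟩, hG, hs⟩

theorem exists_frob (L : Type) [Field L] [NumberField L] [IsGalois ℚ L] (p : ℕ)
    [hp : Fact p.Prime] : ∃ P : Ideal (𝓞 L), P.IsMaximal ∧ (p : 𝓞 L) ∈ P ∧
      ∃ σ : Gal(L/ℚ), ∀ z : 𝓞 L, σ • z - z ^ p ∈ P := by
  have hmax : (Ideal.span {(p : ℤ)}).IsMaximal := by
    apply PrincipalIdealRing.isMaximal_of_irreducible
    exact (Nat.prime_iff_prime_int.1 hp.out).irreducible
  obtain ⟨P, hP, hPl⟩ := Ideal.exists_maximal_ideal_liesOver_of_isIntegral (S := 𝓞 L)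
    (Ideal.span {(p : ℤ)})
  have hpP : (p : 𝓞 L) ∈ P := by
    have h1 : (p : ℤ) ∈ P.under ℤ := by
      rw [← hPl.over]
      exact Ideal.mem_span_singleton_self _
    rw [Ideal.under_def, Ideal.mem_comap] at h1
    simpa using h1
  refine ⟨P, hP, hpP, ?_⟩
  have hP0 : P ≠ ⊥ := by
    rintro rfl
    rw [Ideal.mem_bot] at hpP
    exact hp.out.ne_zero (by exact_mod_cast hpP)
  have : Finite (𝓞 L ⧸ P) := Ring.HasFiniteQuotients.finiteQuotient hP0
  obtain ⟨σ, hσ⟩ := IsArithFrobAt.exists_of_isInvariant ℤ Gal(L/ℚ) P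
  refine ⟨σ, fun z => ?_⟩
  have h2 := hσ z
  have h3 : Nat.card (ℤ ⧸ P.under ℤ) = p := by
    rw [← hPl.over, Nat.card_congr (Int.quotientSpanEquivZMod p).toEquiv, Nat.card_zmod,
      Int.natAbs_natCast]
  rw [h3] at h2
  exact h2

theorem lift_aut {F L Ω : Type*} [Field F] [Field L] [Field Ω] [Algebra F L] [Algebra F Ω]
    [IsAlgClosure F Ω] (i : L →ₐ[F] Ω) (τ : L ≃ₐ[F] L) :
    ∃ τ' : Ω ≃ₐ[F] Ω, ∀ x, τ' (i x) = i (τ x) := by
  let _ : Algebra L Ω := i.toRingHom.toAlgebra
  have : IsScalarTower F L Ω := IsScalarTower.of_algebraMap_eq fun x => (i.commutes x).symm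
  have : Normal F Ω := IsAlgClosure.normal F Ω
  refine ⟨τ.liftNormal Ω, fun x => ?_⟩
  exact τ.liftNormal_commutes Ω x

theorem lift_GF (F L : Type) [Field F] [Field L] [Algebra F L]
    [Algebra.IsAlgebraic F L] : ∃ i : L →+* AlgebraicClosure F, ∀ τ : L ≃ₐ[F] L,
      ∃ τ' : GF F, ∀ x, τ' (i x) = i (τ x) := by
  let i : L →ₐ[F] AlgebraicClosure F := IsAlgClosed.lift
  exact ⟨i, fun τ => lift_aut i τ⟩

end Pool.Agent.H294P
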