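import Pool.Agent.H294P.Glob

/-!
The periodic points in a Galois number field.
-/

set_option autoImplicit false
set_option maxHeartbeats 400000
set_option linter.unusedSectionVars false

namespace Pool.Agent.H294P

open Polynomial NumberField
open Pool.Agent.W569.FM

section
variable {L : Type} [Field L] [NumberField L]

/-- the map `y ↦ y² + c` -/
noncomputable def fL (L : Type) [Field L] (c : ℚ) : L → L := fun y => y ^ 2 + (c : L)

theorem fL_eq (c : ℚ) : (fun y => (X ^ 2 + C (c : L)).eval y) = fL L c := by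
  funext y
  simp [fL]

theorem fL_iter {K L : Type} [Field K] [Field L] [CharZero K] [CharZero L] (i : K →+* L)
    (c : ℚ) (d : ℕ) (y : K) : (fL L c)^[d] (i y) = i ((fL K c)^[d] y) := by
  induction d with
  | zero => rfl
  | succ d ih =>
    rw [Function.iterate_succ_apply', Function.iterate_succ_apply', ih]
    unfold fL
    rw [map_add, map_pow, map_ratCast]

theorem fL_minp {K L : Type} [Field K] [Field L] [CharZero K] [CharZero L] (i : K →+* L)
    (c : ℚ) (y : K) :
    Function.minimalPeriod (fL L c) (i y) = Function.minimalPeriod (fL K c) y := by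
  rw [Function.minimalPeriod_eq_minimalPeriod_iff]
  intro d
  unfold Function.IsPeriodicPt Function.IsFixedPt
  rw [fL_iter]
  exact i.injective.eq_iff

/-- the points of exact period `n` in `L` -/
def PL (L : Type) [Field L] (c : ℚ) (n : ℕ) : Type :=
  {y : L // Function.minimalPeriod (fL L c) y = n}

noncomputable instance (c : ℚ) (n : ℕ) : MulAction Gal(L/ℚ) (PL L c n) where
  smul σ y := ⟨σ y.1, by
    have := fL_minp (σ : L →+* L) c y.1
    rw [y.2] at this
    exact this⟩
  one_smul y := rfl
  mul_smul σ τ y := rfl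

theorem PL_smul_coe (c : ℚ) (n : ℕ) (σ : Gal(L/ℚ)) (y : PL L c n) : (σ • y).1 = σ y.1 := rfl

theorem PL_iter (c : ℚ) (n : ℕ) (y : PL L c n) : (fL L c)^[n] y.1 = y.1 := by
  have := Function.iterate_minimalPeriod (f := fL L c) (x := y.1)
  rwa [y.2] at this

theorem PL_finite (c : ℚ) {n : ℕ} (hn : n ≠ 0) : Finite (PL L c n) := by
  classical
  have h0 : it (X ^ 2 + C (c : L)) n - X ≠ 0 := itX_ne_zero natDegree_X_pow_add_C hn
  apply Finite.of_injective (fun y : PL L c n =>
    (⟨y.1, by
      rw [Multiset.mem_toFinset, mem_roots h0, IsRoot, eval_sub, eval_X, eval_it, fL_eq,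
        sub_eq_zero]
      exact PL_iter c n y⟩ : {x // x ∈ (it (X ^ 2 + C (c : L)) n - X).roots.toFinset}))
  intro y z h
  exact Subtype.ext (congrArg
    (fun w : {x // x ∈ (it (X ^ 2 + C (c : L)) n - X).roots.toFinset} => w.1) h)

theorem fix_count {l : ℕ} [Fact l.Prime] {c : ℚ} (hc : 1 < padicNorm l (4 * c)) {n : ℕ}
    (hn : n ≠ 0) (hG : ¬ Good c n)
    (hs : ((it (X ^ 2 + C c) n - X : ℚ[X]).map (algebraMap ℚ L)).Splits) (τ : Gal(L/ℚ)) :
    n ≤ Nat.card {y : PL L c n // τ • y = y} := by
  have halg : Algebra.IsAlgebraic ℚ L := inferInstance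
  obtain ⟨i, hi⟩ := lift_GF ℚ L
  obtain ⟨τ', hτ'⟩ := hi τ
  unfold Good at hG
  push Not at hG
  obtain ⟨W, hW, x, hx, hfix⟩ := hG τ'
  have hex := exact_of_root hc hn hW hx
  rw [fc_eq] at hex
  -- `x` lies in the image of `L`
  have hxr : (fc c)^[n] x = x := by
    have := Function.iterate_minimalPeriod (f := fc c) (x := x)
    rwa [hex] at this
  have h1 : ∃ y : L, i y = x := by
    have h0 : it (X ^ 2 + C c) n - X ≠ 0 := itX_ne_zero natDegree_X_pow_add_C hn
    have h2 : (((it (X ^ 2 + C c) n - X : ℚ[X]).map (algebraMap ℚ L)).map i).IsRoot x := by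
      rw [Polynomial.map_map, Polynomial.map_sub, map_it, map_X, Polynomial.map_add,
        Polynomial.map_pow, map_X, map_C, eq_ratCast, IsRoot, eval_sub, eval_X, eval_it, fc_eq,
        hxr, sub_self]
    have h3 := hs.mem_range_of_isRoot (by
      rw [Polynomial.map_ne_zero_iff (algebraMap ℚ L).injective]
      exact h0) h2
    exact h3
  obtain ⟨y, rfl⟩ := h1
  have hmy : Function.minimalPeriod (fL L c) y = n := by
    have := fL_minp i c y
    rw [← this]
    exact hex
  have hτy : τ y = y := by
    apply i.injective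
    rw [← hτ']
    exact hfix
  have hper : y ∈ Function.periodicPts (fL L c) := by
    rw [← Function.minimalPeriod_pos_iff_mem_periodicPts, hmy]
    omega
  have hmem : ∀ j : ℕ, Function.minimalPeriod (fL L c) ((fL L c)^[j] y) = n := by
    intro j
    rw [Function.minimalPeriod_apply_iterate hper, hmy]
  have hfixi : ∀ j : ℕ, τ ((fL L c)^[j] y) = (fL L c)^[j] y := by
    intro j
    have := fL_iter (τ : L →+* L) c j y
    change (fL L c)^[j] (τ y) = τ ((fL L c)^[j] y) at this
    rw [← this, hτy]
  have hinj : Function.Injective (fun j : Fin n =>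
      (⟨⟨(fL L c)^[j.1] y, hmem j.1⟩, Subtype.ext (hfixi j.1)⟩ :
        {y : PL L c n // τ • y = y})) := by
    intro j k hjk
    have h1 : (fL L c)^[j.1] y = (fL L c)^[k.1] y :=
      congrArg (fun w : {y : PL L c n // τ • y = y} => w.1.1) hjk
    have h2 := Function.iterate_injOn_Iio_minimalPeriod (f := fL L c) (x := y)
    rw [hmy] at h2
    exact Fin.ext (h2 (Set.mem_Iio.2 j.2) (Set.mem_Iio.2 k.2) h1)
  have := PL_finite (L := L) c hn
  have := Nat.card_le_card_of_injective _ hinj
  rwa [Nat.card_fin] at this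

end

end Pool.Agent.H294P
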