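import Pool.Agent.H294P.Mod
import Pool.Agent.H294P.Dens
import Pool.Agent.W571.FM.Frob

/-!
Elements of the absolute Galois group without fixed points on the roots of a dynatomic polynomial:
the general set up, and Frobenius elements at primes of good reduction.
-/

set_option autoImplicit false
set_option maxHeartbeats 400000

namespace Pool.Agent.H294P

open Polynomial NumberField Finset
open Pool.Agent.W569.FM

/-- some element of the absolute Galois group fixes no root of the `n`-th dynatomic polynomial of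
`X² + c` -/
def Good (c : ℚ) (n : ℕ) : Prop :=
  ∃ σ : GF ℚ, ∀ W : QB[X], Ap (X ^ 2 + C (c : QB)) n = Am (X ^ 2 + C (c : QB)) n * W →
    ∀ x : QB, W.eval x = 0 → σ x ≠ x

/-- the parameter of a quadratic polynomial -/
theorem param (f : ℚ[X]) (hf : f.natDegree = 2) :
    f = C (f.coeff 2) * X ^ 2 + C (f.coeff 1) * X + C (f.coeff 0) :=
  eq_quadratic_of_degree_le_two (by
    rw [degree_eq_natDegree (by rintro rfl; simp at hf), hf]
    norm_num)

theorem good_apply {f : ℚ[X]} (hf : f.natDegree = 2) {n : ℕ} 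
    (h : Good (f.coeff 2 * f.coeff 0 + f.coeff 1 / 2 - f.coeff 1 ^ 2 / 4) n) {Φ : ℚ[X]}
    (hΦ : algebraMap ℚ[X] (RatFunc ℚ) Φ = ∏ d ∈ n.divisors,
      (algebraMap ℚ[X] (RatFunc ℚ) ((f.comp)^[d] X - X)) ^ (ArithmeticFunction.moebius (n / d)))
    {Ψ : ℤ[X]} {c : ℤ} (hc : c ≠ 0) (hΨ : Ψ.map (Int.castRingHom ℚ) = C (c : ℚ) * Φ) :
    ∃ r : ℝ, r < 1 ∧ ∃ N₀ : ℕ, ∀ N : ℕ, N₀ ≤ N →
      (({p : ℕ | p ≤ N ∧ p.Prime ∧ HasRoot Ψ p}.ncard : ℝ) /
        ({p : ℕ | p ≤ N ∧ p.Prime}.ncard : ℝ)) ≤ r := by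
  obtain ⟨σ, hσ⟩ := h
  have hid := ratfunc_identity hf hΦ
  have hΦ0 : Φ ≠ 0 := by
    rintro rfl
    rw [mul_zero] at hid
    exact Ap_ne_zero hf n hid
  have hc0 : (c : ℚ) ≠ 0 := by exact_mod_cast hc
  have hΨ0 : Ψ ≠ 0 := by
    rintro rfl
    rw [Polynomial.map_zero] at hΨ
    exact mul_ne_zero (C_ne_zero.2 hc0) hΦ0 hΨ.symm
  apply cheb_root Ψ hΨ0 σ
  intro y hy hfix
  -- pass to the algebraic closure
  set j : ℚ →+* QB := algebraMap ℚ QB with hj
  have ha2 : f.coeff 2 ≠ 0 := by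
    have := leadingCoeff_ne_zero.2 (show f ≠ 0 by rintro rfl; simp at hf)
    rwa [leadingCoeff, hf] at this
  have hid' : Ap (f.map j) n = Am (f.map j) n * Φ.map j := by
    have h1 := congrArg (Polynomial.map j) hid
    rw [Polynomial.map_mul] at h1
    unfold Ap Am at h1 ⊢
    simp only [Polynomial.map_prod, Polynomial.map_sub, map_it, map_X] at h1
    exact h1
  have hnf := normal_form (j (f.coeff 2)) (j (f.coeff 1)) (j (f.coeff 0)) (by norm_num)
  have hfm : f.map j = C (j (f.coeff 2)) * X ^ 2 + C (j (f.coeff 1)) * X + C (j (f.coeff 0)) := by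
    conv_lhs => rw [param f hf]
    simp
  rw [← hfm] at hnf
  have hcc : j (f.coeff 2) * j (f.coeff 0) + j (f.coeff 1) / 2 - j (f.coeff 1) ^ 2 / 4 =
      ((f.coeff 2 * f.coeff 0 + f.coeff 1 / 2 - f.coeff 1 ^ 2 / 4 : ℚ) : QB) := by
    simp [hj]
  rw [hcc] at hnf
  have ha2' : j (f.coeff 2) ≠ 0 := by
    rw [Ne, map_eq_zero]
    exact ha2
  obtain ⟨W, hW, hWr⟩ := conj_root ha2' hnf hid'
  have hΦy : (Φ.map j).eval y = 0 := by
    have h1 : (Ψ.map (algebraMap ℤ QB)).eval y = 0 := by rw [eval_map_algebraMap]; exact hy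
    have h2 : Ψ.map (algebraMap ℤ QB) = C (j c) * Φ.map j := by
      have h3 := congrArg (Polynomial.map j) hΨ
      rw [Polynomial.map_map, Polynomial.map_mul, map_C] at h3
      rw [← h3]
      congr 1
    rw [h2, eval_mul, eval_C] at h1
    have h4 : j (c : ℚ) ≠ 0 := by
      rw [Ne, map_eq_zero]
      exact hc0
    exact (mul_eq_zero.1 h1).resolve_left h4
  refine hσ W hW _ (hWr y hΦy) ?_
  rw [map_add, map_mul, hfix]
  have h5 : ∀ q : ℚ, σ (j q) = j q := fun q => by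
    rw [hj]
    exact σ.commutes q
  have h6 : j (f.coeff 1) / 2 = j (f.coeff 1 / 2) := by simp [hj]
  rw [h6, h5, h5]

/-- integrality of the roots and their reduction -/
theorem red_at {k : Type*} [Field k] (pr : OO ℚ →+* k) {n : ℕ} (b u v : OO ℚ)
    (hb : pr b ≠ 0) (W : QB[X])
    (hW : Ap (gq (b : QB) (u : QB) (v : QB)) n = Am (gq (b : QB) (u : QB) (v : QB)) n * W)
    (z' : QB) (hz : W.eval z' = 0) : ∃ z : OO ℚ, (z : QB) = z' ∧ ∃ W' : k[X],
      Ap (gq (pr b) (pr u) (pr v)) n = Am (gq (pr b) (pr u) (pr v)) n * W' ∧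
      W'.eval (pr z) = 0 := by
  have hinj : Function.Injective (algebraMap (OO ℚ) QB) := RingOfIntegers.coe_injective
  have hb0 : (algebraMap (OO ℚ) QB) b ≠ 0 := by
    intro h
    apply hb
    have : b = 0 := hinj (h.trans (map_zero _).symm)
    rw [this, map_zero]
  have hint : ∃ z : OO ℚ, (z : QB) = z' := by
    have h1 : (Ap (gq (b : QB) (u : QB) (v : QB)) n).eval z' = 0 := by rw [hW, eval_mul, hz, mul_zero]
    unfold Ap at h1
    rw [eval_prod, Finset.prod_eq_zero_iff] at h1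
    obtain ⟨d, hd, hd0⟩ := h1
    have hd' : d ≠ 0 := (Nat.pos_of_mem_divisors (Finset.mem_filter.1 hd).1).ne'
    have h2 : IsIntegral (OO ℚ) z' := by
      refine ⟨B b u v d, B_monic b u v hd', ?_⟩
      rw [eval₂_eq_eval_map, map_B _ _ _ _ hb0, eval_mul]
      change _ * eval z' (it (gq (b : QB) (u : QB) (v : QB)) d - X) = 0
      rw [hd0, mul_zero]
    have h3 : IsIntegral ℤ z' := isIntegral_trans z' h2
    exact ⟨⟨z', h3⟩, rfl⟩
  obtain ⟨z, hz'⟩ := hint
  refine ⟨z, hz', ?_⟩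
  exact red (algebraMap (OO ℚ) QB) hinj pr b u v hb n z W hW (by
    change W.eval (z : QB) = 0
    rw [hz', hz])

/-- the numbers `n` for which some point of `ZMod p` may be a root of the reduction of the
dynatomic polynomial of `X² + a` -/
def Exc (p : ℕ) (a : ZMod p) (n : ℕ) : Prop :=
  ∃ t : ZMod p, let m := Function.minimalPeriod (fun y => y ^ 2 + a) t
    m ∣ n ∧ (n = m ∨ ∃ e : ℕ, n = m * orderOf ((derivative (it (X ^ 2 + C a) m)).eval t) * p ^ e)

theorem good_prime {p : ℕ} (hp : p.Prime) {a b : ℤ} (hb : (b : ZMod p) = 1) {c : ℚ}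
    (hc : (b : ℚ) * c = a) {n : ℕ} (hn : n ≠ 0) (hE : ¬ Exc p (a : ZMod p) n) : Good c n := by
  have := Fact.mk hp
  obtain ⟨P, hP, hpP, σ, hσ⟩ := (Pool.Agent.W571.FM.main p hp).1
  refine ⟨σ, fun W hW x hx hfix => hE ?_⟩
  have hb0 : (b : ℚ) ≠ 0 := by
    intro h
    have h1 : b = 0 := by exact_mod_cast h
    rw [h1, Int.cast_zero] at hb
    exact zero_ne_one hb
  have hbQ : (b : QB) ≠ 0 := by exact_mod_cast hb0
  -- conjugation by `b x`
  have hconj : (C (b : QB) * X + C 0).comp (X ^ 2 + C (c : QB)) =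
      (gq (((b : OO ℚ) : QB)) (((0 : OO ℚ) : QB)) (((a * b : ℤ) : OO ℚ) : QB)).comp
        (C (b : QB) * X + C 0) := by
    have e1 : ((b : OO ℚ) : QB) = (b : QB) := by simp
    have e2 : ((0 : OO ℚ) : QB) = 0 := by simp
    have e3 : ((((a * b : ℤ) : OO ℚ)) : QB) = (b : QB) ^ 2 * (c : QB) := by
      have e4 : ((((a * b : ℤ) : OO ℚ)) : QB) = ((a * b : ℤ) : QB) := by simp
      rw [e4, Int.cast_mul]
      have e5 : (a : QB) = (b : QB) * (c : QB) := by
        have := congrArg (fun q : ℚ => (q : QB)) hc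
        push_cast at this
        exact this.symm
      rw [e5]
      ring
    rw [e1, e2, e3, gq]
    simp only [mul_comp, add_comp, pow_comp, C_comp, X_comp, C_0, add_zero, zero_mul]
    have e6 : (C (b : QB)⁻¹ : QB[X]) * C (b : QB) = 1 := by
      rw [← C_mul, inv_mul_cancel₀ hbQ, C_1]
    rw [C_mul, C_pow]
    calc _ = 1 * C (b : QB) * (X ^ 2 + C (c : QB)) := by ring
      _ = (C (b : QB)⁻¹ * C (b : QB)) * C (b : QB) * (X ^ 2 + C (c : QB)) := by rw [e6]
      _ = _ := by ring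
  obtain ⟨W₁, hW₁, hW₁r⟩ := conj_root hbQ hconj hW
  let _ : Field (OO ℚ ⧸ P) := Ideal.Quotient.field P
  have hch : CharP (OO ℚ ⧸ P) p := by
    rw [CharP.charP_iff_prime_eq_zero hp]
    have := Ideal.Quotient.eq_zero_iff_mem.2 hpP
    rwa [map_natCast] at this
  set pr : OO ℚ →+* OO ℚ ⧸ P := Ideal.Quotient.mk P with hpr
  set φ : ZMod p →+* OO ℚ ⧸ P := ZMod.castHom (dvd_refl p) _ with hφ
  have hφi : ∀ t : ℤ, φ (t : ZMod p) = pr (t : OO ℚ) := fun t => by simp
  have hprb : pr (b : OO ℚ) = 1 := by rw [← hφi, hb, map_one]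
  obtain ⟨z, hz, W₂, hW₂, hW₂z⟩ := red_at pr (b : OO ℚ) 0 ((a * b : ℤ) : OO ℚ)
    (by rw [hprb]; exact one_ne_zero) W₁ hW₁ _ (hW₁r x hx)
  have hprv : pr ((a * b : ℤ) : OO ℚ) = φ (a : ZMod p) := by
    rw [Int.cast_mul, map_mul, hprb, mul_one, hφi]
  rw [hprb, map_zero, hprv] at hW₂
  have hg : gq (1 : OO ℚ ⧸ P) 0 (φ (a : ZMod p)) = (X ^ 2 + C (a : ZMod p)).map φ := by
    unfold gq
    simp
  rw [hg] at hW₂
  -- the reduction of `z` lies in the prime field
  have hzfix : σ • z = z := by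
    apply RingOfIntegers.ext
    change σ (z : QB) = (z : QB)
    rw [hz, add_zero, map_mul, hfix, map_intCast]
  have hzp : pr z ^ p = pr z := by
    have h1 := hσ z
    rw [hzfix] at h1
    have h2 := Ideal.Quotient.eq_zero_iff_mem.2 h1
    rw [map_sub, map_pow, sub_eq_zero] at h2
    exact h2.symm
  have hzb := (Subfield.mem_bot_iff_pow_eq_self (OO ℚ ⧸ P) p).2 hzp
  rw [mem_bot_iff_intCast p] at hzb
  obtain ⟨t, ht⟩ := hzb
  have ht' : φ (t : ZMod p) = pr z := by rw [← ht]; simp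
  -- descend to `ZMod p`
  have hAp : ∀ s : Finset ℕ, ∏ d ∈ s, (it ((X ^ 2 + C (a : ZMod p)).map φ) d - X) =
      (∏ d ∈ s, (it (X ^ 2 + C (a : ZMod p)) d - X)).map φ := by
    intro s
    simp only [Polynomial.map_prod, Polynomial.map_sub, map_it, map_X]
  have hA1 : Ap ((X ^ 2 + C (a : ZMod p)).map φ) n = (Ap (X ^ 2 + C (a : ZMod p)) n).map φ := hAp _
  have hA2 : Am ((X ^ 2 + C (a : ZMod p)).map φ) n = (Am (X ^ 2 + C (a : ZMod p)) n).map φ := hAp _
  have hdeg : (X ^ 2 + C (a : ZMod p)).natDegree = 2 := natDegree_X_pow_add_C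
  rw [hA1, hA2] at hW₂
  have hdvd : Am (X ^ 2 + C (a : ZMod p)) n ∣ Ap (X ^ 2 + C (a : ZMod p)) n := by
    rw [← Polynomial.map_dvd_map' φ, hW₂]
    exact dvd_mul_right _ _
  obtain ⟨V, hV⟩ := hdvd
  have hVW : V.map φ = W₂ := by
    have h1 := congrArg (Polynomial.map φ) hV
    rw [Polynomial.map_mul, hW₂] at h1
    have h2 : (Am (X ^ 2 + C (a : ZMod p)) n).map φ ≠ 0 := by
      rw [Polynomial.map_ne_zero_iff φ.injective]
      exact Am_ne_zero hdeg n
    exact (mul_left_cancel₀ h2 h1).symm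
  have hVt : V.eval (t : ZMod p) = 0 := by
    apply φ.injective
    rw [map_zero, ← Polynomial.eval_map_apply, hVW, ht', hW₂z]
  have h := local_root (p := p) hdeg hn hV hVt
  refine ⟨(t : ZMod p), ?_⟩
  have hfun : (fun y : ZMod p => (X ^ 2 + C (a : ZMod p)).eval y) = fun y => y ^ 2 + (a : ZMod p) := by
    funext y
    simp
  rw [hfun] at h
  exact h

end Pool.Agent.H294P
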