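import Mathlib

/-!
Ramification in a Galois number field: elements fixed by the inertia group.
-/

set_option autoImplicit false
set_option maxHeartbeats 400000
set_option linter.unusedSectionVars false

namespace Pool.Agent.H294P

open NumberField Ideal Pointwise

section
variable {L : Type*} [Field L] [NumberField L] [IsGalois ℚ L]

theorem liesOver_aux (p : ℕ) [hp : Fact p.Prime] (P : Ideal (𝓞 L)) [hPm : P.IsMaximal]
    (hpP : (p : 𝓞 L) ∈ P) : P.LiesOver (Ideal.span {(p : ℤ)}) := by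
  constructor
  have hmax : (Ideal.span {(p : ℤ)}).IsMaximal := by
    apply PrincipalIdealRing.isMaximal_of_irreducible
    exact (Nat.prime_iff_prime_int.1 hp.out).irreducible
  apply hmax.eq_of_le
  · exact Ideal.IsPrime.ne_top inferInstance
  · rw [Ideal.span_singleton_le_iff_mem, Ideal.under_def, Ideal.mem_comap]
    simpa using hpP

/-- the order of the inertia group is the ramification index -/
theorem not_mem_pow_card (p : ℕ) [hp : Fact p.Prime] (P : Ideal (𝓞 L)) [hPm : P.IsMaximal]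
    (hpP : (p : 𝓞 L) ∈ P) : (p : 𝓞 L) ∉ P ^ (Nat.card (P.inertia Gal(L/ℚ)) + 1) := by
  have := liesOver_aux p P hpP
  have hpr : (Ideal.span {(p : ℤ)}).IsPrime := by
    rw [Ideal.span_singleton_prime (by exact_mod_cast hp.out.ne_zero)]
    exact Nat.prime_iff_prime_int.1 hp.out
  have hmax : (Ideal.span {(p : ℤ)}).IsMaximal := by
    apply PrincipalIdealRing.isMaximal_of_irreducible
    exact (Nat.prime_iff_prime_int.1 hp.out).irreducible
  have hne : (Ideal.span {(p : ℤ)}) ≠ ⊥ := by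
    rw [Ne, Ideal.span_singleton_eq_bot]
    exact_mod_cast hp.out.ne_zero
  have : Finite (ℤ ⧸ Ideal.span {(p : ℤ)}) := Ring.HasFiniteQuotients.finiteQuotient hne
  have h1 := Ideal.card_inertia_eq_ramificationIdxIn (G := Gal(L/ℚ)) (Ideal.span {(p : ℤ)}) P
  rw [Ideal.ramificationIdxIn_eq_ramificationIdx (Ideal.span {(p : ℤ)}) P Gal(L/ℚ),
    ← Ideal.ramificationIdx'_eq_ramificationIdx _ P hne] at h1
  intro hmem
  have hle : (Ideal.span {(p : ℤ)}).map (algebraMap ℤ (𝓞 L)) ≤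
      P ^ (Nat.card (P.inertia Gal(L/ℚ)) + 1) := by
    rw [Ideal.map_span, Set.image_singleton, Ideal.span_singleton_le_iff_mem]
    simpa using hmem
  have hpos : 0 < Nat.card (P.inertia Gal(L/ℚ)) := Nat.card_pos
  have hbdd : BddAbove {n | (Ideal.span {(p : ℤ)}).map (algebraMap ℤ (𝓞 L)) ≤ P ^ n} := by
    by_contra hb
    have h2 : sSup {n | (Ideal.span {(p : ℤ)}).map (algebraMap ℤ (𝓞 L)) ≤ P ^ n} = 0 := by
      rw [csSup_of_not_bddAbove hb]
      simp
    rw [Ideal.ramificationIdx', h2] at h1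
    omega
  have h3 := le_csSup hbdd hle
  rw [Ideal.ramificationIdx'] at h1
  omega

/-- elements of `P` fixed by a subgroup of the inertia group -/
theorem mem_pow_card (P : Ideal (𝓞 L)) [hPm : P.IsMaximal] (hP0 : P ≠ ⊥)
    (I : Subgroup Gal(L/ℚ)) (hI : I ≤ P.inertia Gal(L/ℚ)) {x : 𝓞 L} (hx : x ∈ P)
    (hfix : ∀ τ ∈ I, τ • x = x) : x ∈ P ^ (Nat.card I) := by
  set E := (FixedPoints.intermediateField I : IntermediateField ℚ L) with hE
  have hg1 : IsGaloisGroup I E L := IsGaloisGroup.subgroup Gal(L/ℚ) ℚ L I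
  have hg2 : IsGaloisGroup I (𝓞 E) (𝓞 L) := IsGaloisGroup.of_isFractionRing I (𝓞 E) (𝓞 L) E L
  set 𝔭 : Ideal (𝓞 E) := P.under (𝓞 E) with h𝔭
  have hlo : P.LiesOver 𝔭 := ⟨rfl⟩
  have hm : 𝔭.IsMaximal := Ideal.IsMaximal.under (𝓞 E) P
  have hne : 𝔭 ≠ ⊥ := Ideal.under_ne_bot (𝓞 E) hP0
  have : Finite (𝓞 E ⧸ 𝔭) := Ring.HasFiniteQuotients.finiteQuotient hne
  have h1 := Ideal.card_inertia_eq_ramificationIdxIn (G := I) 𝔭 P
  rw [Ideal.ramificationIdxIn_eq_ramificationIdx 𝔭 P I,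
    ← Ideal.ramificationIdx'_eq_ramificationIdx 𝔭 P hne] at h1
  have h2 : Nat.card (P.inertia I) = Nat.card I := by
    have h3 : P.inertia I = ⊤ := by
      rw [eq_top_iff]
      intro τ _ y
      exact hI τ.2 y
    rw [h3, Subgroup.card_top]
  rw [h2] at h1
  -- `x` comes from `E`
  obtain ⟨y, hy⟩ := hg2.isInvariant.isInvariant x (fun τ => hfix τ.1 τ.2)
  have h4 : y ∈ 𝔭 := by
    rw [h𝔭, Ideal.under_def, Ideal.mem_comap, hy]
    exact hx
  rw [h1, ← hy]
  exact Ideal.le_pow_ramificationIdx' (Ideal.mem_map_of_mem _ h4)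

end

end Pool.Agent.H294P
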