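import Pool.Agent.H294P.Mod

/-!
The `p`-adic size of `h^p(a) - a` for `h(a) = a`, `h'(a) = 1` modulo `p`.
-/

set_option autoImplicit false

namespace Pool.Agent.H294P

open Polynomial

section ring
variable {R : Type*} [CommRing R]

theorem iter_step (p : R) (y' e' κ u k : R) (j T S : R) :
    1 + (1 + p * e') * (j + p * e' * T + κ * (p * y') * S + p ^ 2 * u) +
      κ * (p * y') * (j + p * e' * T + κ * (p * y') * S + p ^ 2 * u) ^ 2 +
      (p * y') ^ 2 * (j + p * e' * T + κ * (p * y') * S + p ^ 2 * u) ^ 3 * k =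
    (j + 1) + p * e' * (T + j) + κ * (p * y') * (S + j ^ 2) +
      p ^ 2 * (u + e' * (e' * T + κ * y' * S + p * u) +
        κ * y' * (e' * T + κ * y' * S + p * u) * (2 * j + p * (e' * T + κ * y' * S + p * u)) +
        y' ^ 2 * (j + p * e' * T + κ * (p * y') * S + p ^ 2 * u) ^ 3 * k) := by
  ring

/-- the sums `Σ_{i<j} i` and `Σ_{i<j} i²` -/
def TT (j : ℕ) : ℕ := ∑ i ∈ Finset.range j, i
def SS (j : ℕ) : ℕ := ∑ i ∈ Finset.range j, i ^ 2

theorem iter_expand (p : ℕ) (y' e' κ : R) (K : R[X]) (H : R → R)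
    (hH : ∀ w, H w = p * y' + (1 + p * e') * w + κ * w ^ 2 + w ^ 3 * K.eval w) (j : ℕ) :
    ∃ u : R, H^[j] 0 = (p * y') * (j + p * e' * TT j + κ * (p * y') * SS j + p ^ 2 * u) := by
  induction j with
  | zero => exact ⟨0, by simp [TT, SS]⟩
  | succ j ih =>
    obtain ⟨u, hu⟩ := ih
    rw [Function.iterate_succ_apply', hu]
    set s : R := j + p * e' * TT j + κ * (p * y') * SS j + p ^ 2 * u with hs
    have hT : (TT (j + 1) : R) = TT j + j := by
      unfold TT
      rw [Finset.sum_range_succ]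
      push_cast
      ring
    have hS : (SS (j + 1) : R) = SS j + j ^ 2 := by
      unfold SS
      rw [Finset.sum_range_succ]
      push_cast
      ring
    have h1 := iter_step (p : R) y' e' κ u (K.eval (p * y' * s)) j (TT j) (SS j)
    rw [← hs] at h1
    refine ⟨u + e' * (e' * TT j + κ * y' * SS j + p * u) +
        κ * y' * (e' * TT j + κ * y' * SS j + p * u) *
          (2 * j + p * (e' * TT j + κ * y' * SS j + p * u)) +
        y' ^ 2 * s ^ 3 * K.eval (p * y' * s), ?_⟩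
    rw [hH, hT, hS]
    push_cast
    rw [← h1]
    ring

theorem TT_dvd {p : ℕ} (hp : p % 2 = 1) : p ∣ TT p := by
  have h1 : TT p * 2 = p * (p - 1) := Finset.sum_range_id_mul_two p
  have h2 : p ∣ TT p * 2 := by rw [h1]; exact dvd_mul_right _ _
  have h3 : Nat.Coprime p 2 := (Nat.coprime_two_right).2 (Nat.odd_iff.2 hp)
  exact h3.dvd_of_dvd_mul_right h2

theorem SS_eq (j : ℕ) : 6 * SS (j + 1) = j * (j + 1) * (2 * j + 1) := by
  induction j with
  | zero => simp [SS]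
  | succ j ih =>
    have h1 : SS (j + 1 + 1) = SS (j + 1) + (j + 1) ^ 2 := by
      unfold SS
      rw [Finset.sum_range_succ _ (j + 1)]
    rw [h1, mul_add, ih]
    ring

theorem SS_dvd {p : ℕ} (hp : p.Prime) (h2 : p ≠ 2) (h3 : p ≠ 3) : p ∣ SS p := by
  obtain ⟨j, rfl⟩ := Nat.exists_eq_succ_of_ne_zero hp.ne_zero
  have h1 : (j + 1) ∣ 6 * SS (j + 1) := by
    rw [SS_eq]
    exact dvd_mul_of_dvd_left (dvd_mul_left _ _) _
  rcases (hp.dvd_mul).1 h1 with h4 | h4
  · exfalso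
    have h5 : (j + 1) ∣ 2 * 3 := h4
    rcases (hp.dvd_mul).1 h5 with h6 | h6
    · exact h2 ((Nat.prime_dvd_prime_iff_eq hp Nat.prime_two).1 h6)
    · exact h3 ((Nat.prime_dvd_prime_iff_eq hp Nat.prime_three).1 h6)
  · exact h4

/-- for an odd prime `p ≥ 5`, or `p = 3` and `3 ∣ κ`, `h^p(a) - a = (h(a) - a) (p + p² u)` -/
theorem iter_p {p : ℕ} (hp : p.Prime) (h2 : p ≠ 2) (y' e' κ : R) (K : R[X]) (H : R → R)
    (hH : ∀ w, H w = p * y' + (1 + p * e') * w + κ * w ^ 2 + w ^ 3 * K.eval w)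
    (h3 : p ≠ 3 ∨ (p : R) ∣ κ) : ∃ u : R, H^[p] 0 = (p * y') * (p + p ^ 2 * u) := by
  obtain ⟨u, hu⟩ := iter_expand p y' e' κ K H hH p
  obtain ⟨t, ht⟩ := TT_dvd (hp.eq_two_or_odd.resolve_left h2)
  have h5 : ∃ v : R, κ * SS p = p * v := by
    rcases h3 with h3 | ⟨k', hk'⟩
    · obtain ⟨v, hv⟩ := SS_dvd hp h2 h3
      refine ⟨κ * v, ?_⟩
      rw [hv]
      push_cast
      ring
    · exact ⟨k' * SS p, by rw [hk']; ring⟩
  obtain ⟨v, hv⟩ := h5
  refine ⟨u + e' * t + y' * v, ?_⟩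
  rw [hu]
  congr 1
  have h6 : κ * (p * y') * (SS p : R) = p * y' * (κ * SS p) := by ring
  rw [h6, hv, ht]
  push_cast
  ring

/-- the expansion of a polynomial at a point up to the third order -/
theorem expand3 (H : R[X]) (w : R) : H.eval w = H.coeff 0 + H.coeff 1 * w + H.coeff 2 * w ^ 2 +
    w ^ 3 * H.divX.divX.divX.eval w := by
  have h1 := congrArg (Polynomial.eval w) (divX_mul_X_add H)
  have h2 := congrArg (Polynomial.eval w) (divX_mul_X_add H.divX)
  have h3 := congrArg (Polynomial.eval w) (divX_mul_X_add H.divX.divX)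
  simp only [eval_add, eval_mul, eval_X, eval_C, coeff_divX, zero_add] at h1 h2 h3
  have e1 : (0 + 1 : ℕ) = 1 := rfl
  rw [← h1, ← h2, ← h3]
  ring_nf

end ring

end Pool.Agent.H294P
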