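import Pool.Agent.H294P.Ord

/-!
The local analysis: which points are roots of the reduction of a dynatomic polynomial.
-/

set_option autoImplicit false

namespace Pool.Agent.H294P

open Polynomial ArithmeticFunction Finset

theorem moeb_sum {n q : ℕ} (hn : n ≠ 0) (hq : q.Prime) (hqn : q ∣ n) (a : ℕ → ℤ)
    (ha : ∀ d, d ∣ n → ¬ q ∣ n / d → a d = a (d / q)) :
    ∑ d ∈ n.divisors, moebius (n / d) * a d = 0 := by
  classical
  have h0 : ∑ d ∈ n.divisors, moebius (n / d) * a d = ∑ e ∈ n.divisors, moebius e * a (n / e) := by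
    rw [← Nat.sum_div_divisors n (fun e => moebius e * a (n / e))]
    apply Finset.sum_congr rfl
    intro d hd
    rw [Nat.div_div_self (Nat.dvd_of_mem_divisors hd) hn]
  have h1 : ∑ e ∈ n.divisors, moebius e * a (n / e) =
      ∑ e ∈ n.divisors.filter Squarefree, moebius e * a (n / e) := by
    rw [Finset.sum_filter]
    apply Finset.sum_congr rfl
    intro e _
    split_ifs with h
    · rfl
    · rw [moebius_eq_zero_of_not_squarefree h, zero_mul]
  rw [h0, h1]
  have memT : ∀ e, e ∈ n.divisors.filter Squarefree ↔ e ∣ n ∧ Squarefree e := by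
    intro e
    rw [Finset.mem_filter, Nat.mem_divisors]
    exact ⟨fun h => ⟨h.1.1, h.2⟩, fun h => ⟨⟨h.1, hn⟩, h.2⟩⟩
  have up : ∀ e, e ∣ n → Squarefree e → ¬ q ∣ e → e * q ∣ n ∧ Squarefree (e * q) ∧
      moebius (e * q) = - moebius e ∧ a (n / (e * q)) = a (n / e) := by
    intro e he hs hqe
    have hc : Nat.Coprime e q := ((Nat.Prime.coprime_iff_not_dvd hq).2 hqe).symm
    refine ⟨hc.mul_dvd_of_dvd_of_dvd he hqn, (Nat.squarefree_mul hc).2 ⟨hs, hq.squarefree⟩, ?_, ?_⟩
    · rw [isMultiplicative_moebius.map_mul_of_coprime hc, moebius_apply_prime hq]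
      ring
    · have h2 := ha (n / e) (Nat.div_dvd_of_dvd he) (by rw [Nat.div_div_self he hn]; exact hqe)
      rw [h2, Nat.div_div_eq_div_mul]
  refine Finset.sum_involution (fun e _ => if q ∣ e then e / q else e * q) ?_ ?_ ?_ ?_
  · intro e he
    obtain ⟨hen, hs⟩ := (memT e).1 he
    by_cases hqe : q ∣ e
    · obtain ⟨t, rfl⟩ := hqe
      have ht : ¬ q ∣ t := by
        intro h
        have h3 := hs q (mul_dvd_mul_left q h)
        exact hq.one_lt.ne' (Nat.isUnit_iff.1 h3)
      have h4 := up t (dvd_trans (Dvd.intro_left q rfl) hen) (hs.squarefree_of_dvd (Dvd.intro_left q rfl)) ht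
      simp only [dvd_mul_right, if_true]
      rw [Nat.mul_div_cancel_left t hq.pos, mul_comm q t, h4.2.2.1, h4.2.2.2]
      ring
    · simp only [hqe, if_false]
      have h4 := up e hen hs hqe
      rw [h4.2.2.1, h4.2.2.2]
      ring
  · intro e he _
    obtain ⟨hen, hs⟩ := (memT e).1 he
    have he0 : e ≠ 0 := hs.ne_zero
    have h5 := hq.one_lt
    by_cases hqe : q ∣ e
    · simp only [hqe, if_true]
      exact (Nat.div_lt_self (Nat.pos_of_ne_zero he0) h5).ne
    · simp only [hqe, if_false]
      intro h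
      have : e * q = e * 1 := by rw [h, mul_one]
      exact h5.ne' (Nat.eq_of_mul_eq_mul_left (Nat.pos_of_ne_zero he0) this)
  · intro e he
    obtain ⟨hen, hs⟩ := (memT e).1 he
    rw [memT]
    by_cases hqe : q ∣ e
    · simp only [hqe, if_true]
      exact ⟨dvd_trans (Nat.div_dvd_of_dvd hqe) hen, hs.squarefree_of_dvd (Nat.div_dvd_of_dvd hqe)⟩
    · simp only [hqe, if_false]
      exact ⟨(up e hen hs hqe).1, (up e hen hs hqe).2.1⟩
  · intro e he
    obtain ⟨hen, hs⟩ := (memT e).1 he
    by_cases hqe : q ∣ e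
    · obtain ⟨t, rfl⟩ := hqe
      have ht : ¬ q ∣ t := by
        intro h
        have h3 := hs q (mul_dvd_mul_left q h)
        exact hq.one_lt.ne' (Nat.isUnit_iff.1 h3)
      simp only [dvd_mul_right, if_true]
      rw [Nat.mul_div_cancel_left t hq.pos]
      simp only [ht, if_false]
      ring
    · simp only [hqe, if_false]
      simp only [dvd_mul_left, if_true]
      rw [Nat.mul_div_cancel e hq.pos]

section field
variable {k : Type*} [Field k]

/-- the order of vanishing of `g^d - X` at `x` -/
noncomputable def od (g : k[X]) (x : k) (d : ℕ) : ℕ := rootMultiplicity x (it g d - X)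

theorem od_zero {g : k[X]} {x : k} {d : ℕ} 
    (h : ¬ Function.minimalPeriod (fun y => g.eval y) x ∣ d) : od g x d = 0 := by
  unfold od
  apply rootMultiplicity_eq_zero
  intro h1
  apply h
  rw [IsRoot, eval_sub, eval_X, eval_it, sub_eq_zero] at h1
  exact Function.IsPeriodicPt.minimalPeriod_dvd h1

theorem od_one {g : k[X]} {x : k} {m j : ℕ} (hm : (it g m).eval x = x)
    (h : (derivative (it g m)).eval x ^ j ≠ 1) : od g x (m * j) = 1 := by
  unfold od
  rw [it_mul]
  apply ord_eq_one
  · rw [eval_sub, eval_X, eval_it, Function.iterate_fixed hm, sub_self]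
  · rw [derivative_sub, eval_sub, derivative_X, eval_one, derivative_it _ _ _ hm]
    exact sub_ne_zero.2 h

theorem od_mul {g : k[X]} (hg : g.natDegree = 2) {x : k} {m j q : ℕ} (hm0 : m ≠ 0) (hj : j ≠ 0)
    (hm : (it g m).eval x = x)
    (h : (derivative (it g m)).eval x ^ j = 1) (hq : (q : k) ≠ 0) :
    od g x (m * (j * q)) = od g x (m * j) := by
  unfold od
  rw [← mul_assoc, it_mul g (m * j) q, ord_it]
  · exact itX_ne_zero hg (mul_ne_zero hm0 hj)
  · rw [it_mul, eval_it]
    exact Function.iterate_fixed hm j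
  · rw [it_mul, derivative_it _ _ _ hm, h]
  · exact hq

/-- the local analysis -/
theorem local_analysis {p : ℕ} [CharP k p] {g : k[X]} (hg : g.natDegree = 2)
    {n : ℕ} (hn : n ≠ 0) {x : k}
    (hS : ∑ d ∈ n.divisors, moebius (n / d) * (od g x d : ℤ) ≠ 0) :
    let m := Function.minimalPeriod (fun y => g.eval y) x
    m ∣ n ∧ (n = m ∨ ∃ e : ℕ, n = m * orderOf ((derivative (it g m)).eval x) * p ^ e) := by
  intro m
  have hmn : m ∣ n := by
    by_contra h
    apply hS
    apply Finset.sum_eq_zero
    intro d hd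
    rw [od_zero (fun h1 => h (dvd_trans h1 (Nat.dvd_of_mem_divisors hd)))]
    simp
  refine ⟨hmn, ?_⟩
  obtain ⟨N, rfl⟩ := hmn
  have hm0 : m ≠ 0 := left_ne_zero_of_mul hn
  have hN0 : N ≠ 0 := right_ne_zero_of_mul hn
  have hm : (it g m).eval x = x := by
    rw [eval_it]
    exact Function.iterate_minimalPeriod
  set l := (derivative (it g m)).eval x with hl
  set r := orderOf l with hr
  by_contra hcon
  push Not at hcon
  obtain ⟨hc1, hc2⟩ := hcon
  have hN1 : N ≠ 1 := by
    rintro rfl
    exact hc1 (mul_one m)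
  apply hS
  -- reduction to the divisors `m * j`
  have key : ∀ q : ℕ, q.Prime → q ∣ N → (∀ j t : ℕ, j * q * t = N → ¬ q ∣ t →
      od g x (m * (j * q)) = od g x (m * j)) →
      ∑ d ∈ (m * N).divisors, moebius (m * N / d) * (od g x d : ℤ) = 0 := by
    intro q hq hqN H
    apply moeb_sum hn hq (dvd_mul_of_dvd_right hqN m)
    intro d hd hqd
    congr 1
    by_cases hmd : m ∣ d
    · obtain ⟨j, rfl⟩ := hmd
      have hj : j ∣ N := Nat.dvd_of_mul_dvd_mul_left (Nat.pos_of_ne_zero hm0) hd
      obtain ⟨t, ht⟩ := hj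
      have hj0 : 0 < j := by
        rcases Nat.eq_zero_or_pos j with h | h
        · rw [h, zero_mul] at ht
          exact absurd ht hN0
        · exact h
      have h2 : m * N / (m * j) = t := by
        rw [Nat.mul_div_mul_left _ _ (Nat.pos_of_ne_zero hm0), ht, Nat.mul_div_cancel_left t hj0]
      rw [h2] at hqd
      have hqj : q ∣ j := by
        rw [ht] at hqN
        exact (hq.dvd_mul.1 hqN).resolve_right hqd
      obtain ⟨s, rfl⟩ := hqj
      have h3 : m * (q * s) / q = m * s := by
        rw [show m * (q * s) = (m * s) * q by ring, Nat.mul_div_cancel _ hq.pos]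
      rw [h3, mul_comm q s]
      exact H s t (by rw [ht]; ring) hqd
    · rw [od_zero hmd]
      by_cases hqd' : q ∣ d
      · obtain ⟨s, rfl⟩ := hqd'
        rw [Nat.mul_div_cancel_left s hq.pos, od_zero]
        intro h
        exact hmd (dvd_mul_of_dvd_right h q)
      · exfalso
        apply hqd
        obtain ⟨t, ht⟩ := hd
        have h4 : 0 < d := by
          rcases Nat.eq_zero_or_pos d with h | h
          · rw [h, zero_mul] at ht
            exact absurd ht hn
          · exact h
        rw [ht, Nat.mul_div_cancel_left t h4]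
        have h5 : q ∣ d * t := by
          rw [← ht]
          exact dvd_mul_of_dvd_right hqN m
        exact (hq.dvd_mul.1 h5).resolve_left hqd'
  by_cases hrN : r ∣ N
  · obtain ⟨N₁, hN₁⟩ := hrN
    have hN₁0 : N₁ ≠ 0 := by
      rintro rfl
      exact hN0 (by rw [hN₁, mul_zero])
    have hr0 : r ≠ 0 := by
      intro h
      exact hN0 (by rw [hN₁, h, zero_mul])
    have : ∃ q : ℕ, q.Prime ∧ q ∣ N₁ ∧ q ≠ p := by
      by_contra hno
      push Not at hno
      have h6 := Nat.eq_prime_pow_of_unique_prime_dvd hN₁0 (p := p) (fun {d} h7 h8 => hno d h7 h8)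
      exact hc2 _ (by rw [hN₁, mul_assoc, ← h6])
    obtain ⟨q, hq, hqN₁, hqp⟩ := this
    have hqk : (q : k) ≠ 0 := by
      intro h
      rw [CharP.cast_eq_zero_iff k p] at h
      rcases (Nat.dvd_prime hq).1 h with h1 | h1
      · exact CharP.char_ne_one k p h1
      · exact hqp h1.symm
    apply key q hq (by rw [hN₁]; exact dvd_mul_of_dvd_right hqN₁ r)
    intro j t hjt hqt
    have hj0 : j ≠ 0 := by
      rintro rfl
      apply hN0
      rw [← hjt]
      ring
    by_cases hrj : r ∣ j * q
    · -- then `r ∣ j`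
      obtain ⟨s, hs⟩ := hrj
      have h9 : q ∣ s := by
        have h10 : s * t = N₁ := by
          apply Nat.eq_of_mul_eq_mul_left (Nat.pos_of_ne_zero hr0)
          rw [← hN₁, ← hjt, hs]
          ring
        rw [← h10] at hqN₁
        exact (hq.dvd_mul.1 hqN₁).resolve_right hqt
      obtain ⟨s', rfl⟩ := h9
      have h11 : j = r * s' := by
        apply Nat.eq_of_mul_eq_mul_right hq.pos
        rw [hs]
        ring
      apply od_mul hg hm0 hj0 hm _ hqk
      rw [← hl, h11, pow_mul, hr, pow_orderOf_eq_one, one_pow]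
    · rw [od_one hm, od_one hm]
      · intro h
        exact hrj (dvd_mul_of_dvd_left (orderOf_dvd_of_pow_eq_one h) q)
      · intro h
        exact hrj (orderOf_dvd_of_pow_eq_one h)
  · obtain ⟨q, hq, hqN⟩ := Nat.exists_prime_and_dvd hN1
    apply key q hq hqN
    intro j t hjt hqt
    rw [od_one hm, od_one hm]
    · intro h
      apply hrN
      rw [← hjt, mul_assoc]
      exact dvd_mul_of_dvd_left (orderOf_dvd_of_pow_eq_one h) _
    · intro h
      apply hrN
      rw [← hjt]
      exact dvd_mul_of_dvd_left (orderOf_dvd_of_pow_eq_one h) _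

/-- the numerator of the product defining the dynatomic polynomial -/
noncomputable def Ap {R : Type*} [CommRing R] (g : R[X]) (n : ℕ) : R[X] :=
  ∏ d ∈ n.divisors.filter (fun d => moebius (n / d) = 1), (it g d - X)

/-- the denominator of the product defining the dynatomic polynomial -/
noncomputable def Am {R : Type*} [CommRing R] (g : R[X]) (n : ℕ) : R[X] :=
  ∏ d ∈ n.divisors.filter (fun d => moebius (n / d) = -1), (it g d - X)

theorem Ap_ne_zero {g : k[X]} (hg : g.natDegree = 2) (n : ℕ) : Ap g n ≠ 0 := by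
  unfold Ap
  rw [Finset.prod_ne_zero_iff]
  intro d hd
  exact itX_ne_zero hg (Nat.pos_of_mem_divisors (Finset.mem_filter.1 hd).1).ne'

theorem Am_ne_zero {g : k[X]} (hg : g.natDegree = 2) (n : ℕ) : Am g n ≠ 0 := by
  unfold Am
  rw [Finset.prod_ne_zero_iff]
  intro d hd
  exact itX_ne_zero hg (Nat.pos_of_mem_divisors (Finset.mem_filter.1 hd).1).ne'

theorem ord_prod {ι : Type*} (s : Finset ι) (F : ι → k[X]) (x : k) (h : ∀ i ∈ s, F i ≠ 0) :
    rootMultiplicity x (∏ i ∈ s, F i) = ∑ i ∈ s, rootMultiplicity x (F i) := by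
  classical
  induction s using Finset.induction_on with
  | empty => simp
  | insert i s hi ih =>
    rw [Finset.prod_insert hi, Finset.sum_insert hi, rootMultiplicity_mul,
      ih (fun j hj => h j (Finset.mem_insert_of_mem hj))]
    apply mul_ne_zero (h i (Finset.mem_insert_self _ _))
    rw [Finset.prod_ne_zero_iff]
    exact fun j hj => h j (Finset.mem_insert_of_mem hj)

theorem sum_moeb (n : ℕ) (a : ℕ → ℤ) : ∑ d ∈ n.divisors, moebius (n / d) * a d =
    ∑ d ∈ n.divisors.filter (fun d => moebius (n / d) = 1), a d -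
    ∑ d ∈ n.divisors.filter (fun d => moebius (n / d) = -1), a d := by
  rw [Finset.sum_filter, Finset.sum_filter, ← Finset.sum_sub_distrib]
  apply Finset.sum_congr rfl
  intro d _
  by_cases h : Squarefree (n / d)
  · rcases (moebius_ne_zero_iff_eq_or.1 (moebius_ne_zero_iff_squarefree.2 h)) with h1 | h1
    · rw [h1]; simp
    · rw [h1]; simp
  · rw [moebius_eq_zero_of_not_squarefree h]
    simp

/-- if `A₊ = A₋ W` with `W(x) = 0` then the local analysis applies at `x` -/
theorem local_root {p : ℕ} [CharP k p] {g : k[X]} (hg : g.natDegree = 2)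
    {n : ℕ} (hn : n ≠ 0) {x : k} {W : k[X]} (hW : Ap g n = Am g n * W) (hx : W.eval x = 0) :
    let m := Function.minimalPeriod (fun y => g.eval y) x
    m ∣ n ∧ (n = m ∨ ∃ e : ℕ, n = m * orderOf ((derivative (it g m)).eval x) * p ^ e) := by
  apply local_analysis hg hn
  rw [sum_moeb]
  have hW0 : W ≠ 0 := by
    rintro rfl
    rw [mul_zero] at hW
    exact Ap_ne_zero hg n hW
  have h1 : rootMultiplicity x (Ap g n) = rootMultiplicity x (Am g n) + rootMultiplicity x W := by
    rw [hW, rootMultiplicity_mul (mul_ne_zero (Am_ne_zero hg n) hW0)]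
  have h2 : 0 < rootMultiplicity x W := (rootMultiplicity_pos hW0).2 hx
  unfold Ap Am at h1
  rw [ord_prod, ord_prod] at h1
  · have h3 : (∑ d ∈ n.divisors.filter (fun d => moebius (n / d) = 1), (od g x d : ℤ)) =
        ∑ d ∈ n.divisors.filter (fun d => moebius (n / d) = -1), (od g x d : ℤ) +
          (rootMultiplicity x W : ℤ) := by
      exact_mod_cast h1
    rw [h3]
    intro h4
    have : (rootMultiplicity x W : ℤ) = 0 := by linarith
    omega
  · intro d hd
    exact itX_ne_zero hg (Nat.pos_of_mem_divisors (Finset.mem_filter.1 hd).1).ne'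
  · intro d hd
    exact itX_ne_zero hg (Nat.pos_of_mem_divisors (Finset.mem_filter.1 hd).1).ne'

end field

end Pool.Agent.H294P
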