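import Pool.Agent.H294P.Good

/-!
The prime 2: potentially good reduction, `|c|₂ ≤ 4`.
-/

set_option autoImplicit false
set_option maxHeartbeats 400000

namespace Pool.Agent.H294P

open Polynomial NumberField Finset
open Pool.Agent.W569.FM

theorem good_two {a b : ℤ} (hb : Odd b) {c : ℚ} (hc : (b : ℚ) * (4 * c) = a) {n : ℕ} (hn : 2 < n)
    (h : Even a ∨ ∀ e : ℕ, n ≠ 2 ^ e) : Good c n := by
  have h2p : Nat.Prime 2 := Nat.prime_two
  obtain ⟨P, hP, hpP, σ, hσ⟩ := (Pool.Agent.W571.FM.main 2 h2p).1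
  refine ⟨σ, fun W hW x hx hfix => ?_⟩
  have hb0 : (b : ℚ) ≠ 0 := by
    intro h
    have h1 : b = 0 := by exact_mod_cast h
    rw [h1] at hb
    exact (by decide : ¬ Odd (0 : ℤ)) hb
  have hbQ : (b : QB) ≠ 0 := by exact_mod_cast hb0
  -- a fixed point
  obtain ⟨β, hβ⟩ : ∃ β : QB, β ^ 2 + (c : QB) = β := by
    have hdeg : (X ^ 2 - X + C (c : QB) : QB[X]).degree ≠ 0 := by
      have : (X ^ 2 - X + C (c : QB) : QB[X]).degree = 2 := by compute_degree!
      rw [this]
      norm_num
    obtain ⟨β, hβ⟩ := IsAlgClosed.exists_root (X ^ 2 - X + C (c : QB) : QB[X]) hdeg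
    refine ⟨β, ?_⟩
    have h1 : β ^ 2 - β + (c : QB) = 0 := by simpa using hβ
    linear_combination h1
  have hcQ : (b : QB) * (4 * (c : QB)) = (a : QB) := by
    have := congrArg (fun q : ℚ => (q : QB)) hc
    push_cast at this
    exact this
  have hL2 : (2 * (b : QB) * β) ^ 2 = 2 * (b : QB) * (2 * (b : QB) * β) - (a : QB) * b := by
    rw [← hcQ]
    linear_combination (4 * (b : QB) ^ 2) * hβ
  have hLint : IsIntegral ℤ (2 * (b : QB) * β) := by
    refine ⟨X ^ 2 + (C (a * b) - C (2 * b) * X), ?_, ?_⟩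
    · apply (monic_X_pow 2).add_of_left
      rw [degree_X_pow]
      refine lt_of_le_of_lt (b := (1 : WithBot ℕ)) ?_ (by norm_num)
      compute_degree
    · simp only [eval₂_add, eval₂_sub, eval₂_pow, eval₂_mul, eval₂_X, eval₂_C]
      simp only [eq_intCast]
      push_cast
      linear_combination hL2
  set L : OO ℚ := ⟨2 * (b : QB) * β, hLint⟩ with hL
  have hLc : (L : QB) = 2 * (b : QB) * β := rfl
  have hLO : L ^ 2 = 2 * (b : OO ℚ) * L - (a : OO ℚ) * b := by
    apply RingOfIntegers.ext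
    have e1 : ((L ^ 2 : OO ℚ) : QB) = (L : QB) ^ 2 := by simp
    have e2 : ((2 * (b : OO ℚ) * L - (a : OO ℚ) * b : OO ℚ) : QB) =
        2 * (b : QB) * (L : QB) - (a : QB) * b := by
      change algebraMap (OO ℚ) QB (2 * (b : OO ℚ) * L - (a : OO ℚ) * b) = _
      rw [map_sub, map_mul, map_mul, map_mul, map_ofNat, map_intCast, map_intCast]
    rw [e1, e2, hLc]
    exact hL2
  -- conjugation by `b (x - β)`
  have hconj : (C (b : QB) * X + C (-(b * β))).comp (X ^ 2 + C (c : QB)) =
      (gq (((b : OO ℚ) : QB)) (L : QB) (((0 : OO ℚ) : QB))).comp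
        (C (b : QB) * X + C (-(b * β))) := by
    have e1 : ((b : OO ℚ) : QB) = (b : QB) := by simp
    have e2 : ((0 : OO ℚ) : QB) = 0 := by simp
    rw [e1, e2, hLc, gq]
    simp only [mul_comp, add_comp, pow_comp, C_comp, X_comp, C_0, add_zero]
    have e6 : (C (b : QB)⁻¹ : QB[X]) * C (b : QB) = 1 := by
      rw [← C_mul, inv_mul_cancel₀ hbQ, C_1]
    have e7 : (C β : QB[X]) ^ 2 + C (c : QB) = C β := by
      rw [← C_pow, ← C_add, hβ]
    have e8 : (C (-(b * β)) : QB[X]) = - (C (b : QB) * C β) := by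
      rw [C_neg, C_mul]
    have e9 : (C (2 * (b : QB) * β) : QB[X]) = 2 * C (b : QB) * C β := by
      rw [C_mul, C_mul]
      rfl
    rw [e8, e9]
    calc _ = 1 * C (b : QB) * (X ^ 2 + C (c : QB) - C β) := by ring
      _ = (C (b : QB)⁻¹ * C (b : QB)) * C (b : QB) * (X ^ 2 + C (c : QB) - C β) := by rw [e6]
      _ = _ := by linear_combination (C (b : QB)⁻¹ * C (b : QB) * C (b : QB)) * e7
  obtain ⟨W₁, hW₁, hW₁r⟩ := conj_root hbQ hconj hW
  let _ : Field (OO ℚ ⧸ P) := Ideal.Quotient.field P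
  have hch : CharP (OO ℚ ⧸ P) 2 := by
    rw [CharP.charP_iff_prime_eq_zero h2p]
    have := Ideal.Quotient.eq_zero_iff_mem.2 hpP
    rwa [map_natCast] at this
  have h20 : (2 : OO ℚ ⧸ P) = 0 := by
    have := CharP.cast_eq_zero (OO ℚ ⧸ P) 2
    exact_mod_cast this
  set pr : OO ℚ →+* OO ℚ ⧸ P := Ideal.Quotient.mk P with hpr
  have hprb : pr (b : OO ℚ) = 1 := by
    obtain ⟨t, ht⟩ := hb
    rw [ht]
    push_cast
    rw [map_add, map_mul, map_one, map_ofNat, h20, zero_mul, zero_add]
  obtain ⟨z, hz, W₂, hW₂, hW₂z⟩ := red_at pr (b : OO ℚ) L 0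
    (by rw [hprb]; exact one_ne_zero) W₁ hW₁ _ (hW₁r x hx)
  rw [hprb, map_zero] at hW₂
  have hdeg : (gq (1 : OO ℚ ⧸ P) (pr L) 0).natDegree = 2 := natDegree_gq one_ne_zero _ _
  have hloc := local_root (p := 2) hdeg (by omega) hW₂ hW₂z
  set g := gq (1 : OO ℚ ⧸ P) (pr L) 0 with hg
  have hgX : g = X ^ 2 + C (pr L) * X := by
    rw [hg]
    unfold gq
    simp
  have hprL : pr L ^ 2 = pr (a : OO ℚ) := by
    have h1 := congrArg pr hLO
    rw [map_pow, map_sub, map_mul, map_mul, map_mul, map_ofNat, h20, hprb] at h1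
    rw [h1]
    have h3 : (-1 : OO ℚ ⧸ P) = 1 := by
      have : (1 : OO ℚ ⧸ P) + 1 = 0 := by rw [one_add_one_eq_two, h20]
      exact (eq_neg_of_add_eq_zero_left this).symm
    have h4 : (0 : OO ℚ ⧸ P) * 1 * pr L - pr (a : OO ℚ) * 1 = (-1) * pr (a : OO ℚ) := by ring
    rw [h4, h3, one_mul]
  -- the action of the Frobenius element
  have hσβ : σ β = β ∨ σ β = 1 - β := by
    have h1 := congrArg σ hβ
    rw [map_add, map_pow, map_ratCast] at h1
    have h2 : (σ β - β) * (σ β - (1 - β)) = 0 := by linear_combination h1 - hβ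
    rcases mul_eq_zero.1 h2 with h3 | h3
    · exact Or.inl (sub_eq_zero.1 h3)
    · exact Or.inr (sub_eq_zero.1 h3)
  have hzfr : pr (σ • z) = pr z ^ 2 := by
    have h1 := hσ z
    have h2 := Ideal.Quotient.eq_zero_iff_mem.2 h1
    rw [map_sub, map_pow, sub_eq_zero] at h2
    exact h2
  have hzz : pr z ^ 2 = pr z ∨ pr z ^ 2 = pr z + pr L - 1 := by
    rcases hσβ with h1 | h1
    · left
      rw [← hzfr]
      congr 1
      apply RingOfIntegers.ext
      change σ (z : QB) = (z : QB)
      rw [hz, map_add, map_mul, map_neg, map_mul, hfix, h1, map_intCast]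
    · right
      have h3 : σ • z = z + L - (b : OO ℚ) := by
        apply RingOfIntegers.ext
        change σ (z : QB) = ((z + L - (b : OO ℚ) : OO ℚ) : QB)
        have e3 : ((z + L - (b : OO ℚ) : OO ℚ) : QB) = (z : QB) + (L : QB) - (b : QB) := by simp
        rw [e3, hz, hLc, map_add, map_mul, map_neg, map_mul, hfix, h1, map_intCast]
        ring
      rw [← hzfr, h3, map_sub, map_add, hprb]
  have hfun : (fun y => g.eval y) = fun y => y ^ 2 + pr L * y := by
    funext y
    rw [hgX]
    simp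
  rw [hfun] at hloc
  rcases Int.even_or_odd a with ha | ha
  · -- `|c|₂ ≤ 2`
    have hL0 : pr L = 0 := by
      have h1 : pr L ^ 2 = 0 := by
        rw [hprL]
        obtain ⟨t, rfl⟩ := ha
        push_cast
        rw [map_add, ← two_mul, h20, zero_mul]
      exact pow_eq_zero_iff two_ne_zero |>.1 h1
    rw [hL0] at hzz hloc
    simp only [zero_mul, add_zero] at hloc hzz
    set m := Function.minimalPeriod (fun y : OO ℚ ⧸ P => y ^ 2) (pr z) with hm
    have hm2 : m ∣ 2 := by
      apply Function.IsPeriodicPt.minimalPeriod_dvd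
      change ((pr z) ^ 2) ^ 2 = pr z
      rcases hzz with h1 | h1
      · rw [h1, h1]
      · rw [h1, sub_sq, h1]
        linear_combination (- pr z) * h20
    have hm0 : m ≠ 0 := fun h0 => by
      rw [h0] at hm2
      exact absurd (Nat.eq_zero_of_zero_dvd hm2) (by norm_num)
    have hmle : m ≤ 2 := Nat.le_of_dvd (by norm_num) hm2
    obtain ⟨_, h1 | ⟨e, h1⟩⟩ := hloc
    · omega
    · have h3 : (derivative (it g m)).eval (pr z) = 0 := by
        obtain ⟨m', hm'⟩ := Nat.exists_eq_succ_of_ne_zero hm0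
        rw [hm', it_succ, derivative_comp, eval_mul]
        have h4 : derivative g = 0 := by
          rw [hgX, hL0, C_0, zero_mul, add_zero, derivative_X_pow]
          have : ((2 : ℕ) : OO ℚ ⧸ P) = 0 := CharP.cast_eq_zero _ 2
          rw [this, C_0, zero_mul]
        rw [h4, zero_comp, eval_zero, mul_zero]
      have h5 : orderOf (0 : OO ℚ ⧸ P) = 0 := by
        rw [orderOf_eq_zero_iff']
        intro j hj
        rw [zero_pow hj.ne']
        exact zero_ne_one
      rw [h3, h5] at h1
      simp at h1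
      omega
  · -- `|c|₂ = 4`
    have hne : ∀ e : ℕ, n ≠ 2 ^ e := by
      rcases h with h | h
      · exact absurd h (Int.not_even_iff_odd.2 ha)
      · exact h
    have hL1 : pr L = 1 := by
      have h1 : pr L ^ 2 = 1 := by
        rw [hprL]
        obtain ⟨t, rfl⟩ := ha
        push_cast
        rw [map_add, map_mul, map_ofNat, h20, zero_mul, zero_add, map_one]
      have h3 : (pr L - 1) ^ 2 = 0 := by
        linear_combination h1 + (1 - pr L) * h20
      exact sub_eq_zero.1 (pow_eq_zero_iff two_ne_zero |>.1 h3)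
    have hz2 : pr z ^ 2 = pr z := by
      rcases hzz with h1 | h1
      · exact h1
      · rw [h1, hL1]
        ring
    have hz01 : pr z = 0 ∨ pr z = 1 := by
      have h3 : pr z * (pr z - 1) = 0 := by linear_combination hz2
      rcases mul_eq_zero.1 h3 with h4 | h4
      · exact Or.inl h4
      · exact Or.inr (sub_eq_zero.1 h4)
    rw [hL1] at hloc
    simp only [one_mul] at hloc
    rcases hz01 with h0 | h0
    · rw [h0] at hloc
      have hm1 : Function.minimalPeriod (fun y : OO ℚ ⧸ P => y ^ 2 + y) 0 = 1 := by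
        rw [Function.minimalPeriod_eq_one_iff_isFixedPt]
        change (0 : OO ℚ ⧸ P) ^ 2 + 0 = 0
        ring
      rw [hm1, it_one] at hloc
      obtain ⟨_, h1 | ⟨e, h1⟩⟩ := hloc
      · omega
      · have h3 : (derivative g).eval 0 = 1 := by
          rw [hgX, hL1]
          simp
        rw [h3, orderOf_one, one_mul, one_mul] at h1
        exact hne e h1
    · rw [h0] at hloc
      have hm0 : Function.minimalPeriod (fun y : OO ℚ ⧸ P => y ^ 2 + y) 1 = 0 := by
        apply Function.minimalPeriod_eq_zero_of_notMem_periodicPts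
        rintro ⟨d, hd, hdp⟩
        have hit : ∀ i : ℕ, (fun y : OO ℚ ⧸ P => y ^ 2 + y)^[i + 1] 1 = 0 := by
          intro i
          induction i with
          | zero =>
            change (1 : OO ℚ ⧸ P) ^ 2 + 1 = 0
            rw [one_pow, one_add_one_eq_two, h20]
          | succ i ih =>
            rw [Function.iterate_succ_apply', ih]
            ring
        obtain ⟨i, rfl⟩ := Nat.exists_eq_succ_of_ne_zero hd.ne'
        have h6 : (fun y : OO ℚ ⧸ P => y ^ 2 + y)^[i + 1] 1 = 1 := hdp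
        rw [hit] at h6
        exact zero_ne_one h6
      rw [hm0] at hloc
      have := Nat.eq_zero_of_zero_dvd hloc.1
      omega

end Pool.Agent.H294P
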