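import Pool.Agent.H294P.Real
import Pool.Agent.H294P.Two
import Pool.Agent.H294P.Exc

/-!
Assembly.
-/

set_option autoImplicit false
set_option maxHeartbeats 400000

namespace Pool.Agent.H294P

open Polynomial NumberField Finset
open Pool.Agent.W569.FM

theorem exists_frac {p : ℕ} (hp : p.Prime) {c : ℚ} (h : ¬ p ∣ c.den) :
    ∃ a b : ℤ, (b : ZMod p) = 1 ∧ (b : ℚ) * c = a := by
  have := Fact.mk hp
  have hu : IsUnit (c.den : ZMod p) := by
    rw [ZMod.isUnit_iff_coprime, Nat.coprime_comm]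
    exact (Nat.Prime.coprime_iff_not_dvd hp).2 h
  obtain ⟨t, ht⟩ := ZMod.intCast_surjective ((c.den : ZMod p)⁻¹)
  refine ⟨t * c.num, t * c.den, ?_, ?_⟩
  · push_cast
    rw [ht]
    exact inv_mul_cancel₀ hu.ne_zero
  · push_cast
    rw [mul_assoc, mul_comm (c.den : ℚ), Rat.mul_den_eq_num]

theorem exc_of_not {p : ℕ} (hp : p.Prime) {c : ℚ} (h : ¬ p ∣ c.den) {n : ℕ} (hn : n ≠ 0)
    (hG : ¬ Good c n) :
    ∃ a b : ℤ, (b : ZMod p) = 1 ∧ (b : ℚ) * c = a ∧ Exc p (a : ZMod p) n := by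
  obtain ⟨a, b, hb, hc⟩ := exists_frac hp h
  refine ⟨a, b, hb, hc, ?_⟩
  by_contra hE
  exact hG (good_prime hp hb hc hn hE)

theorem class_of_dvd {p : ℕ} (hp : p.Prime) {c : ℚ} {r : ℤ} (h : (p : ℤ) ∣ (c - r).num) :
    ¬ p ∣ c.den ∧ ∀ a b : ℤ, (b : ZMod p) = 1 → (b : ℚ) * c = a → (a : ZMod p) = r := by
  have hden : (c - r).den = c.den := Rat.sub_intCast_den c r
  have hnd : ¬ p ∣ c.den := by
    intro hd
    have h1 := (c - r).reduced
    rw [hden] at h1
    have h2 : p ∣ (c - r).num.natAbs := Int.natCast_dvd.1 h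
    have := Nat.dvd_gcd h2 hd
    rw [Nat.coprime_iff_gcd_eq_one.1 h1] at this
    exact hp.one_lt.ne' (Nat.dvd_one.1 this)
  refine ⟨hnd, fun a b hb hc => ?_⟩
  have := Fact.mk hp
  -- `a - r b = b (c - r)`
  have h1 : ((a - r * b : ℤ) : ℚ) * (c.den : ℚ) = (b : ℚ) * ((c - r).num : ℚ) := by
    have h2 : (c - r) * ((c - r).den : ℚ) = ((c - r).num : ℚ) := Rat.mul_den_eq_num _
    rw [hden] at h2
    rw [← h2]
    push_cast
    rw [← hc]
    ring
  have h3 : (a - r * b) * (c.den : ℤ) = b * (c - r).num := by exact_mod_cast h1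
  have h4 : (p : ℤ) ∣ (a - r * b) * (c.den : ℤ) := by
    rw [h3]
    exact dvd_mul_of_dvd_right h _
  have h5 : (p : ℤ) ∣ (a - r * b) := by
    rcases (Int.Prime.dvd_mul' hp h4) with h6 | h6
    · exact h6
    · exact absurd (Int.natCast_dvd_natCast.1 h6) hnd
  have h6 := (ZMod.intCast_zmod_eq_zero_iff_dvd _ p).2 h5
  push_cast at h6
  rw [hb, mul_one, sub_eq_zero] at h6
  exact h6

theorem norm_gt_one {l : ℕ} [hl : Fact l.Prime] {c : ℚ} (h : l ∣ c.den) : 1 < padicNorm l c := by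
  have hc0 : c ≠ 0 := by
    rintro rfl
    simp at h
    exact hl.out.one_lt.ne' h
  have h1 : ¬ l ∣ c.num.natAbs := by
    intro h2
    have := Nat.dvd_gcd h2 h
    rw [Nat.coprime_iff_gcd_eq_one.1 c.reduced] at this
    exact hl.out.one_lt.ne' (Nat.dvd_one.1 this)
  rw [padicNorm.eq_zpow_of_nonzero hc0]
  apply one_lt_zpow₀
  · exact_mod_cast hl.out.one_lt
  · have h2 : padicValRat l c = padicValInt l c.num - padicValNat l c.den := rfl
    have h3 : padicValInt l c.num = 0 := padicValNat.eq_zero_of_not_dvd h1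
    have h4 : 1 ≤ padicValNat l c.den := one_le_padicValNat_of_dvd c.den_nz h
    have h5 : padicValRat l c = 0 - (padicValNat l c.den : ℤ) := by rw [h2, h3]; rfl
    rw [h5]
    omega

theorem pow_ne_aux {n e e' i : ℕ} (hn : 3 < n) (h3 : n = 3 ^ e ∨ n = 2 * 3 ^ e)
    (h5 : n = i * 5 ^ e') (hi : ¬ 3 ∣ i) : False := by
  have he : e ≠ 0 := by
    rintro rfl
    simp at h3
    omega
  have h3n : 3 ∣ n := by
    rcases h3 with h | h
    · rw [h]
      exact dvd_pow_self 3 he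
    · rw [h]
      exact dvd_mul_of_dvd_right (dvd_pow_self 3 he) 2
  rw [h5] at h3n
  rcases (Nat.prime_three.dvd_mul).1 h3n with h | h
  · exact hi h
  · have := Nat.prime_three.dvd_of_dvd_pow h
    omega

theorem two_of_not {c : ℚ} (h : ¬ 2 ∣ (4 * c).den) {n : ℕ} (hn : 2 < n) (hG : ¬ Good c n) :
    ∃ e : ℕ, n = 2 ^ e := by
  by_contra hcon
  push Not at hcon
  have hodd : Odd ((4 * c).den : ℤ) := by
    rw [Int.odd_coe_nat, ← Nat.not_even_iff_odd, even_iff_two_dvd]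
    exact h
  refine hG (good_two (a := (4 * c).num) (b := (4 * c).den) hodd ?_ hn (Or.inr hcon))
  have := Rat.mul_den_eq_num (4 * c)
  push_cast
  linear_combination this

theorem five_of_not {c : ℚ} (h : ¬ 5 ∣ c.den) {n : ℕ} (hn : 3 < n) (hG : ¬ Good c n) :
    ∃ j u : ℕ, (j = 1 ∨ j = 2 ∨ j = 4 ∨ j = 8) ∧ n = j * 5 ^ u := by
  obtain ⟨a', b', _, _, hE5⟩ := exc_of_not Nat.prime_five h (by omega) hG
  obtain ⟨_, e', he'⟩ | he' := exc_five (by omega) hE5
  swap
  · omega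
  rcases he' with h1 | h1 | h1 | h1
  · exact ⟨1, e', Or.inl rfl, by rw [h1, one_mul]⟩
  · exact ⟨2, e', Or.inr (Or.inl rfl), h1⟩
  · exact ⟨4, e', Or.inr (Or.inr (Or.inl rfl)), h1⟩
  · exact ⟨8, e', Or.inr (Or.inr (Or.inr rfl)), h1⟩

theorem prime_seven : Nat.Prime 7 := by norm_num

theorem seven_of_not {c : ℚ} (h : ¬ 7 ∣ c.den) {n : ℕ} (hn : 3 < n) (hG : ¬ Good c n) :
    ∃ i e : ℕ, (i = 1 ∨ i = 2 ∨ i = 3 ∨ i = 4 ∨ i = 6) ∧ n = i * 7 ^ e := by
  obtain ⟨a', b', _, _, hE⟩ := exc_of_not prime_seven h (by omega) hG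
  exact (exc_seven hn hE).2.2

theorem three_of_not {c : ℚ} (h : ¬ 3 ∣ c.den) {n : ℕ} (hn : 3 < n) (hG : ¬ Good c n) :
    ∃ e : ℕ, n = 3 ^ e ∨ n = 2 * 3 ^ e := by
  obtain ⟨a, b, _, _, hE3⟩ := exc_of_not Nat.prime_three h (by omega) hG
  obtain ⟨_, e, he⟩ | he := exc_three (by omega) hE3
  · exact ⟨e, he⟩
  · omega

/-- if 7 does not divide `n` and `n = i 7^e` then `n = i` -/
theorem seven_elim {n i e : ℕ} (h : n = i * 7 ^ e) (h7 : ¬ 7 ∣ n) : n = i := by
  rcases Nat.eq_zero_or_pos e with h0 | h0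
  · rw [h, h0, pow_zero, mul_one]
  · exfalso
    apply h7
    rw [h]
    exact dvd_mul_of_dvd_right (dvd_pow_self 7 h0.ne') i

theorem five_elim {n i e : ℕ} (h : n = i * 5 ^ e) (h5 : ¬ 5 ∣ n) : n = i := by
  rcases Nat.eq_zero_or_pos e with h0 | h0
  · rw [h, h0, pow_zero, mul_one]
  · exfalso
    apply h5
    rw [h]
    exact dvd_mul_of_dvd_right (dvd_pow_self 5 h0.ne') i

/-- first main theorem -/
theorem main1 {c : ℚ} {n : ℕ} (hn : 3 < n)
    (h : ¬ 2 ∣ (2 * c).den ∨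
      (¬ 3 ∣ c.den ∧ (¬ 5 ∣ c.den ∨ ¬ 2 ∣ (4 * c).den)) ∨
      (¬ 3 ∣ c.den ∧ ¬ 7 ∣ c.den ∧ n ≠ 6) ∨
      (¬ 7 ∣ c.den ∧ (¬ 5 ∣ c.den ∨ ¬ 2 ∣ (4 * c).den) ∧ n ≠ 4) ∨
      (¬ 5 ∣ c.den ∧ ¬ 2 ∣ (4 * c).den ∧ n ≠ 4 ∧ n ≠ 8) ∨
      ((3 : ℤ) ∣ (c - 2).num ∨ (5 : ℤ) ∣ (c - 1).num ∨ (7 : ℤ) ∣ (c - 3).num ∨
        (7 : ℤ) ∣ (c - 6).num) ∨
      -5 / 4 < c ∨
      ∃ (l : ℕ) (_ : Fact l.Prime), l ∣ (4 * c).den ∧ ∀ x : ℚ_[l], x ^ 2 + c ≠ x) : Good c n := by
  have hn0 : n ≠ 0 := by omega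
  by_contra hG
  rcases h with h | ⟨h3, h | h⟩ | ⟨h3, h7, h6⟩ | ⟨h7, h | h, h4⟩ | ⟨h5, h2, h4, h8⟩ |
    (h | h | h | h) | h | ⟨l, hl, hd, hx⟩
  · -- `2 c` is 2-integral
    have hodd : Odd ((2 * c).den : ℤ) := by
      rw [Int.odd_coe_nat, ← Nat.not_even_iff_odd, even_iff_two_dvd]
      exact h
    refine hG (good_two (a := 2 * (2 * c).num) (b := (2 * c).den) hodd ?_ (by omega) (Or.inl ?_))
    · have := Rat.mul_den_eq_num (2 * c)
      push_cast
      linear_combination 2 * this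
    · exact even_two_mul _
  · -- 3 and 5 are good
    obtain ⟨e, he⟩ := three_of_not h3 hn hG
    obtain ⟨j, u, hj, hu⟩ := five_of_not h hn hG
    exact pow_ne_aux hn he hu (by omega)
  · -- 3 is good and `4 c` is 2-integral
    obtain ⟨e, he⟩ := three_of_not h3 hn hG
    obtain ⟨i, hi⟩ := two_of_not h (by omega) hG
    have he0 : e ≠ 0 := by
      rintro rfl
      simp at he
      omega
    have h3n : 3 ∣ n := by
      rcases he with h | h
      · rw [h]
        exact dvd_pow_self 3 he0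
      · rw [h]
        exact dvd_mul_of_dvd_right (dvd_pow_self 3 he0) 2
    rw [hi] at h3n
    have := Nat.prime_three.dvd_of_dvd_pow h3n
    omega
  · -- 3 and 7 are good
    obtain ⟨e, he⟩ := three_of_not h3 hn hG
    obtain ⟨i, e', hi, hie⟩ := seven_of_not h7 hn hG
    have h7n : ¬ 7 ∣ n := by
      intro h
      rcases he with h1 | h1
      · rw [h1] at h
        have := prime_seven.dvd_of_dvd_pow h
        omega
      · rw [h1] at h
        rcases (prime_seven.dvd_mul).1 h with h2 | h2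
        · omega
        · have := prime_seven.dvd_of_dvd_pow h2
          omega
    have hni := seven_elim hie h7n
    have hn4 : n = 4 := by omega
    rw [hn4] at he
    rcases Nat.lt_or_ge e 2 with h9 | h9
    · interval_cases e <;> omega
    · have h10 : 3 ^ 2 ≤ 3 ^ e := Nat.pow_le_pow_right (by norm_num) h9
      omega
  · -- 5 and 7 are good
    obtain ⟨j, u, hj, hu⟩ := five_of_not h hn hG
    obtain ⟨i, e', hi, hie⟩ := seven_of_not h7 hn hG
    have h7n : ¬ 7 ∣ n := by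
      intro h
      rw [hu] at h
      rcases (prime_seven.dvd_mul).1 h with h2 | h2
      · have := Nat.le_of_dvd (by omega) h2
        omega
      · have := prime_seven.dvd_of_dvd_pow h2
        omega
    have hni := seven_elim hie h7n
    have hn6 : n = 6 := by omega
    have h5n : ¬ 5 ∣ n := by omega
    have := five_elim hu h5n
    omega
  · -- `4 c` is 2-integral and 7 is good
    obtain ⟨v, hv⟩ := two_of_not h (by omega) hG
    obtain ⟨i, e', hi, hie⟩ := seven_of_not h7 hn hG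
    have h7n : ¬ 7 ∣ n := by
      intro h
      rw [hv] at h
      have := prime_seven.dvd_of_dvd_pow h
      omega
    have hni := seven_elim hie h7n
    have hn6 : n = 6 := by omega
    have h3n : 3 ∣ 2 ^ v := by rw [← hv, hn6]; norm_num
    have := Nat.prime_three.dvd_of_dvd_pow h3n
    omega
  · -- `4 c` is 2-integral and 5 is good
    obtain ⟨v, hv⟩ := two_of_not h2 (by omega) hG
    obtain ⟨j, u, hj, hu⟩ := five_of_not h5 hn hG
    have h5n : ¬ 5 ∣ n := by
      intro h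
      rw [hv] at h
      have := Nat.prime_five.dvd_of_dvd_pow h
      omega
    have := five_elim hu h5n
    omega
  · -- `c = 2` modulo 3
    obtain ⟨hden, hcl⟩ := class_of_dvd Nat.prime_three (c := c) (r := 2) (by exact_mod_cast h)
    obtain ⟨a, b, hb, hc, hE3⟩ := exc_of_not Nat.prime_three hden hn0 hG
    have h2 := hcl a b hb hc
    obtain ⟨h1, _⟩ | he := exc_three hn0 hE3
    · exact h1 (by rw [h2]; rfl)
    · omega
  · -- `c = 1` modulo 5
    obtain ⟨hden, hcl⟩ := class_of_dvd Nat.prime_five (c := c) (r := 1) (by exact_mod_cast h)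
    obtain ⟨a, b, hb, hc, hE5⟩ := exc_of_not Nat.prime_five hden hn0 hG
    have h2 := hcl a b hb hc
    obtain ⟨h1, _⟩ | he := exc_five hn0 hE5
    · exact h1 (by rw [h2]; rfl)
    · omega
  · -- `c = 3` modulo 7
    obtain ⟨hden, hcl⟩ := class_of_dvd prime_seven (c := c) (r := 3) (by exact_mod_cast h)
    obtain ⟨a, b, hb, hc, hE⟩ := exc_of_not prime_seven hden hn0 hG
    have h2 := hcl a b hb hc
    exact (exc_seven hn hE).1 (by rw [h2]; rfl)
  · -- `c = 6` modulo 7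
    obtain ⟨hden, hcl⟩ := class_of_dvd prime_seven (c := c) (r := 6) (by exact_mod_cast h)
    obtain ⟨a, b, hb, hc, hE⟩ := exc_of_not prime_seven hden hn0 hG
    have h2 := hcl a b hb hc
    exact (exc_seven hn hE).2.1 (by rw [h2]; rfl)
  · exact hG (good_real' h hn)
  · exact hG (good_bad l (norm_gt_one hd) hx n)

/-- two good primes bound `n` -/
theorem bound_two {p q : ℕ} (hp : p.Prime) (hq : q.Prime) (hpq : p ≠ q) {c : ℚ}
    (h1 : ¬ p ∣ c.den) (h2 : ¬ q ∣ c.den) {n : ℕ} (hn : n ≠ 0) (hG : ¬ Good c n) :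
    n ≤ (p * p) * (q * q) := by
  have := Fact.mk hp
  have := Fact.mk hq
  obtain ⟨a, b, _, _, hE⟩ := exc_of_not hp h1 hn hG
  obtain ⟨a', b', _, _, hE'⟩ := exc_of_not hq h2 hn hG
  obtain ⟨s, e, hs0, hs, hse⟩ := exc_bound hn hE
  obtain ⟨t, i, ht0, ht, hti⟩ := exc_bound hn hE'
  have h3 : p ^ e ∣ t * q ^ i := by
    rw [← hti, hse]
    exact dvd_mul_left _ _
  have h4 : Nat.Coprime (p ^ e) (q ^ i) := Nat.Coprime.pow _ _ ((Nat.coprime_primes hp hq).2 hpq)
  have h5 : p ^ e ∣ t := h4.dvd_of_dvd_mul_right h3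
  have h6 : p ^ e ≤ q * q := (Nat.le_of_dvd (Nat.pos_of_ne_zero ht0) h5).trans ht
  rw [hse]
  exact Nat.mul_le_mul hs h6

/-- second main theorem -/
theorem main2 (s : ℕ) : ∃ N : ℕ, ∀ c : ℚ, c.den.primeFactors.card ≤ s → ∀ n : ℕ, N ≤ n →
    Good c n := by
  classical
  set P : ℕ → ℕ := fun i => Nat.nth Nat.Prime i with hP
  have hPp : ∀ i, (P i).Prime := fun i => Nat.prime_nth_prime i
  have hPm : StrictMono P := Nat.nth_strictMono Nat.infinite_setOfPred_prime
  set Q := P (s + 1) with hQ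
  refine ⟨(Q * Q) * (Q * Q) + 1, fun c hc n hn => ?_⟩
  by_contra hG
  -- two good primes among the first `s + 2`
  set T : Finset ℕ := (Finset.range (s + 2)).filter (fun i => ¬ P i ∣ c.den) with hT
  have hcard : 1 < T.card := by
    have h1 : ((Finset.range (s + 2)).filter (fun i => P i ∣ c.den)).card ≤ s := by
      refine le_trans ?_ hc
      apply Finset.card_le_card_of_injOn P
      · intro i hi
        rw [Finset.mem_coe, Finset.mem_filter] at hi
        rw [Finset.mem_coe, Nat.mem_primeFactors]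
        exact ⟨hPp i, hi.2, c.den_nz⟩
      · exact hPm.injective.injOn
    have h2 := Finset.card_filter_add_card_filter_not (s := Finset.range (s + 2))
      (fun i => P i ∣ c.den)
    rw [Finset.card_range] at h2
    have h3 : ((Finset.range (s + 2)).filter (fun a => ¬ P a ∣ c.den)).card = T.card := by
      rw [hT]
    omega
  obtain ⟨i, hi, j, hj, hij⟩ := Finset.one_lt_card.1 hcard
  rw [hT, Finset.mem_filter, Finset.mem_range] at hi hj
  have hiQ : P i ≤ Q := hPm.monotone (by omega)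
  have hjQ : P j ≤ Q := hPm.monotone (by omega)
  have hb := bound_two (hPp i) (hPp j) (fun h => hij (hPm.injective h)) hi.2 hj.2
    (by omega : n ≠ 0) hG
  have := Nat.mul_le_mul (Nat.mul_le_mul hiQ hiQ) (Nat.mul_le_mul hjQ hjQ)
  omega

/-- third main theorem -/
theorem main3 {p l : ℕ} (hp : p.Prime) (hl : l.Prime) (hpl : p + 1 < 2 * l) (hne : p ≠ l) {c : ℚ}
    (h : ¬ p ∣ c.den) {n : ℕ} (hn : 2 < n) (hln : l ∣ n) : Good c n := by
  have := Fact.mk hp
  by_contra hG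
  obtain ⟨a, b, _, _, hE⟩ := exc_of_not hp h (by omega) hG
  obtain ⟨t, m, hm, hm0, h1, h2, h3⟩ := exc_aux (by omega) hE
  have hl2 : l ≠ 2 := by
    rintro rfl
    have := hp.two_le
    omega
  rcases eq_or_ne p 2 with rfl | hp2
  · -- `p = 2`
    rcases h3 with h3 | ⟨r, hr, hr0, _, _, _, e, he⟩
    · omega
    · have hr1 : r = 1 := by omega
      rw [he, hr1, mul_one] at hln
      rcases (hl.dvd_mul).1 hln with h4 | h4
      · have := Nat.le_of_dvd (Nat.pos_of_ne_zero hm0) h4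
        have := hl.two_le
        omega
      · have h5 := hl.dvd_of_dvd_pow h4
        exact hl2 ((Nat.prime_dvd_prime_iff_eq hl Nat.prime_two).1 h5)
  · have hm2 := period_le hp2 h1 h2
    have hmod : p % 2 = 1 := hp.eq_two_or_odd.resolve_left hp2
    rcases h3 with h3 | ⟨r, hr, hr0, _, _, hrd, e, he⟩
    · have := Nat.le_of_dvd (Nat.pos_of_ne_zero hm0) (h3 ▸ hln)
      omega
    · rw [he] at hln
      rcases (hl.dvd_mul).1 hln with h4 | h4
      · rcases (hl.dvd_mul).1 h4 with h5 | h5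
        · have := Nat.le_of_dvd (Nat.pos_of_ne_zero hm0) h5
          omega
        · -- `l ∣ p - 1`, which is even
          have h6 : l ∣ p - 1 := dvd_trans h5 hrd
          have h7 : Nat.Coprime 2 l := (Nat.coprime_primes Nat.prime_two hl).2 (Ne.symm hl2)
          have h8 : 2 ∣ p - 1 := by omega
          have h9 := h7.mul_dvd_of_dvd_of_dvd h8 h6
          have := Nat.le_of_dvd (by have := hp.two_le; omega) h9
          omega
      · have h5 := hl.dvd_of_dvd_pow h4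
        exact hne ((Nat.prime_dvd_prime_iff_eq hl hp).1 h5).symm

end Pool.Agent.H294P
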