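import Pool.Agent.H294P.Loc

/-!
Monic integral models of the iterates of `(X² + u X + v) / b`, and reduction.
-/

set_option autoImplicit false

namespace Pool.Agent.H294P

open Polynomial ArithmeticFunction Finset

section ring
variable {R : Type*} [CommRing R]

/-- `b^(2^d-1)` times the `d`-th iterate of `(X² + u X + v) / b` -/
noncomputable def G (b u v : R) : ℕ → R[X]
  | 0 => X
  | d + 1 => (G b u v d) ^ 2 + C (u * b ^ (2 ^ d - 1)) * G b u v d + C (v * b ^ (2 ^ (d + 1) - 2))

theorem G_monic [Nontrivial R] (b u v : R) (d : ℕ) :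
    (G b u v d).Monic ∧ (G b u v d).natDegree = 2 ^ d := by
  induction d with
  | zero => exact ⟨monic_X, by simp [G]⟩
  | succ d ih =>
    obtain ⟨h1, h2⟩ := ih
    have h3 : ((G b u v d) ^ 2).natDegree = 2 ^ (d + 1) := by
      rw [h1.natDegree_pow, h2, pow_succ, mul_comm]
    have h4 : (C (u * b ^ (2 ^ d - 1)) * G b u v d + C (v * b ^ (2 ^ (d + 1) - 2))).natDegree <
        ((G b u v d) ^ 2).natDegree := by
      rw [h3]
      have h5 : (2 : ℕ) ^ d < 2 ^ (d + 1) := Nat.pow_lt_pow_right (by norm_num) (by omega)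
      refine lt_of_le_of_lt (natDegree_add_le _ _) (max_lt ?_ ?_)
      · refine lt_of_le_of_lt (natDegree_C_mul_le _ _) ?_
        rw [h2]
        exact h5
      · rw [natDegree_C]
        positivity
    have h6 : G b u v (d + 1) = (G b u v d) ^ 2 + (C (u * b ^ (2 ^ d - 1)) * G b u v d +
        C (v * b ^ (2 ^ (d + 1) - 2))) := by
      rw [G]
      ring
    rw [h6]
    constructor
    · exact (h1.pow 2).add_of_left (degree_lt_degree h4)
    · rw [natDegree_add_eq_left_of_natDegree_lt h4, h3]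

/-- the monic integral model of `g^d - X` -/
noncomputable def B (b u v : R) (d : ℕ) : R[X] := G b u v d - C (b ^ (2 ^ d - 1)) * X

theorem B_monic [Nontrivial R] (b u v : R) {d : ℕ} (hd : d ≠ 0) : (B b u v d).Monic := by
  unfold B
  have h1 := G_monic b u v d
  apply h1.1.sub_of_left
  apply degree_lt_degree
  rw [h1.2]
  refine lt_of_le_of_lt (natDegree_C_mul_le _ _) ?_
  refine lt_of_le_of_lt natDegree_X_le ?_
  exact Nat.one_lt_two_pow hd

noncomputable def BP (b u v : R) (n : ℕ) : R[X] :=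
  ∏ d ∈ n.divisors.filter (fun d => moebius (n / d) = 1), B b u v d

noncomputable def BM (b u v : R) (n : ℕ) : R[X] :=
  ∏ d ∈ n.divisors.filter (fun d => moebius (n / d) = -1), B b u v d

theorem BM_monic [Nontrivial R] (b u v : R) (n : ℕ) : (BM b u v n).Monic := by
  apply monic_prod_of_monic
  intro d hd
  exact B_monic b u v (Nat.pos_of_mem_divisors (Finset.mem_filter.1 hd).1).ne'

end ring

section maps
variable {R K : Type*} [CommRing R] [Field K]

/-- the polynomial `(X² + u X + v) / b` -/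
noncomputable def gq (b u v : K) : K[X] := C b⁻¹ * (X ^ 2 + C u * X + C v)

theorem natDegree_gq {b : K} (hb : b ≠ 0) (u v : K) : (gq b u v).natDegree = 2 := by
  unfold gq
  rw [natDegree_C_mul (inv_ne_zero hb)]
  compute_degree!

theorem map_G (φ : R →+* K) (b u v : R) (hb : φ b ≠ 0) (d : ℕ) :
    (G b u v d).map φ = C (φ b ^ (2 ^ d - 1)) * it (gq (φ b) (φ u) (φ v)) d := by
  induction d with
  | zero => simp [G, it_zero]
  | succ d ih =>
    have h1 : 2 ^ (d + 1) - 2 = (2 ^ d - 1) + (2 ^ d - 1) := by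
      rw [pow_succ]
      have := Nat.one_le_two_pow (n := d)
      omega
    have h2 : 2 ^ (d + 1) - 1 = (2 ^ d - 1) + (2 ^ d - 1) + 1 := by
      rw [pow_succ]
      have := Nat.one_le_two_pow (n := d)
      omega
    have h3 : it (gq (φ b) (φ u) (φ v)) (d + 1) = C (φ b)⁻¹ *
        (it (gq (φ b) (φ u) (φ v)) d ^ 2 + C (φ u) * it (gq (φ b) (φ u) (φ v)) d + C (φ v)) := by
      rw [it_succ]
      generalize it (gq (φ b) (φ u) (φ v)) d = T
      rw [gq, mul_comp, add_comp, add_comp, pow_comp, mul_comp, X_comp, C_comp, C_comp, C_comp]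
    have h4 : (C (φ b) : K[X]) * C (φ b)⁻¹ = 1 := by
      rw [← C_mul, mul_inv_cancel₀ hb, C_1]
    rw [G, Polynomial.map_add, Polynomial.map_add, Polynomial.map_pow, Polynomial.map_mul,
      map_C, map_C, ih, h3, h1, h2]
    simp only [map_mul, map_pow]
    generalize it (gq (φ b) (φ u) (φ v)) d = T
    generalize (2 ^ d - 1 : ℕ) = e
    rw [pow_add, pow_add, pow_one]
    calc _ = (C (φ b) ^ e * C (φ b) ^ e) * (T ^ 2 + C (φ u) * T + C (φ v)) := by ring
      _ = (C (φ b) ^ e * C (φ b) ^ e) * (T ^ 2 + C (φ u) * T + C (φ v)) *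
          (C (φ b) * C (φ b)⁻¹) := by rw [h4, mul_one]
      _ = _ := by ring

theorem map_B (φ : R →+* K) (b u v : R) (hb : φ b ≠ 0) (d : ℕ) :
    (B b u v d).map φ = C (φ b ^ (2 ^ d - 1)) * (it (gq (φ b) (φ u) (φ v)) d - X) := by
  unfold B
  rw [Polynomial.map_sub, map_G φ b u v hb, Polynomial.map_mul, map_X, map_C, map_pow, map_pow,
    map_pow]
  ring

theorem map_prodB (φ : R →+* K) (b u v : R) (hb : φ b ≠ 0) (s : Finset ℕ) :
    ∃ t : K, t ≠ 0 ∧ (∏ d ∈ s, B b u v d).map φ =
      C t * ∏ d ∈ s, (it (gq (φ b) (φ u) (φ v)) d - X) := by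
  refine ⟨∏ d ∈ s, φ b ^ (2 ^ d - 1), ?_, ?_⟩
  · rw [Finset.prod_ne_zero_iff]
    exact fun d _ => pow_ne_zero _ hb
  · rw [Polynomial.map_prod, map_prod, ← Finset.prod_mul_distrib]
    exact Finset.prod_congr rfl fun d _ => map_B φ b u v hb d

/-- the reduction of a root -/
theorem red {F k : Type*} [Field F] [Field k] [IsDomain R] (io : R →+* F)
    (hio : Function.Injective io) (pr : R →+* k) (b u v : R) (hb : pr b ≠ 0) (n : ℕ) (z : R)
    (W : F[X]) (hW : Ap (gq (io b) (io u) (io v)) n = Am (gq (io b) (io u) (io v)) n * W)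
    (hz : W.eval (io z) = 0) :
    ∃ W' : k[X], Ap (gq (pr b) (pr u) (pr v)) n = Am (gq (pr b) (pr u) (pr v)) n * W' ∧
      W'.eval (pr z) = 0 := by
  have hb0 : io b ≠ 0 := by
    intro h
    apply hb
    rw [hio (h.trans (_root_.map_zero io).symm), _root_.map_zero]
  obtain ⟨t, ht, htP⟩ := map_prodB io b u v hb0 (n.divisors.filter (fun d => moebius (n / d) = 1))
  obtain ⟨s, hs, hsM⟩ := map_prodB io b u v hb0 (n.divisors.filter (fun d => moebius (n / d) = -1))
  change (BP b u v n).map io = C t * Ap _ n at htP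
  change (BM b u v n).map io = C s * Am _ n at hsM
  have hdvd : (BM b u v n).map io ∣ (BP b u v n).map io := by
    rw [htP, hsM, hW]
    refine ⟨C (t * s⁻¹) * W, ?_⟩
    rw [C_mul]
    have : (C s : F[X]) * C s⁻¹ = 1 := by rw [← C_mul, mul_inv_cancel₀ hs, C_1]
    calc _ = C t * (Am (gq (io b) (io u) (io v)) n * W) * (C s * C s⁻¹) := by rw [this, mul_one]
      _ = _ := by ring
  rw [Polynomial.map_dvd_map io hio (BM_monic b u v n)] at hdvd
  obtain ⟨Q, hQ⟩ := hdvd
  have hQW : Q.map io = C (t * s⁻¹) * W := by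
    have h1 : (BM b u v n).map io * Q.map io = (BM b u v n).map io * (C (t * s⁻¹) * W) := by
      rw [← Polynomial.map_mul, ← hQ, htP, hsM, hW, C_mul]
      have : (C s : F[X]) * C s⁻¹ = 1 := by rw [← C_mul, mul_inv_cancel₀ hs, C_1]
      calc _ = C t * (Am (gq (io b) (io u) (io v)) n * W) * (C s * C s⁻¹) := by rw [this, mul_one]
        _ = _ := by ring
    refine mul_left_cancel₀ ?_ h1
    exact ((BM_monic b u v n).map io).ne_zero
  have hQz : Q.eval z = 0 := by
    apply hio
    rw [_root_.map_zero, ← Polynomial.eval_map_apply, hQW, eval_mul, hz, mul_zero]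
  obtain ⟨t', ht', htP'⟩ := map_prodB pr b u v hb (n.divisors.filter (fun d => moebius (n / d) = 1))
  obtain ⟨s', hs', hsM'⟩ := map_prodB pr b u v hb (n.divisors.filter (fun d => moebius (n / d) = -1))
  change (BP b u v n).map pr = C t' * Ap _ n at htP'
  change (BM b u v n).map pr = C s' * Am _ n at hsM'
  refine ⟨C (t'⁻¹ * s') * Q.map pr, ?_, ?_⟩
  · have h1 := congrArg (Polynomial.map pr) hQ
    rw [Polynomial.map_mul, htP', hsM'] at h1
    have : (C t'⁻¹ : k[X]) * C t' = 1 := by rw [← C_mul, inv_mul_cancel₀ ht', C_1]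
    calc _ = (C t'⁻¹ * C t') * Ap (gq (pr b) (pr u) (pr v)) n := by rw [this, one_mul]
      _ = C t'⁻¹ * (C t' * Ap (gq (pr b) (pr u) (pr v)) n) := by ring
      _ = _ := by rw [h1, C_mul]; ring
  · rw [eval_mul, Polynomial.eval_map_apply, hQz, _root_.map_zero, mul_zero]

end maps

section conj
variable {F : Type*} [Field F]

theorem conj_itX {f g : F[X]} {a t : F} (h : (C a * X + C t).comp f = g.comp (C a * X + C t))
    (d : ℕ) : (it g d - X).comp (C a * X + C t) = C a * (it f d - X) := by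
  have h1 := it_semiconj h d
  rw [sub_comp, X_comp, ← h1, add_comp, mul_comp, C_comp, X_comp, C_comp]
  ring

theorem conj_prod {f g : F[X]} {a t : F} (ha : a ≠ 0)
    (h : (C a * X + C t).comp f = g.comp (C a * X + C t))
    (s : Finset ℕ) : ∃ e : F, e ≠ 0 ∧ (∏ d ∈ s, (it g d - X)).comp (C a * X + C t) =
      C e * ∏ d ∈ s, (it f d - X) := by
  refine ⟨a ^ s.card, pow_ne_zero _ ha, ?_⟩
  rw [Polynomial.prod_comp, Finset.prod_congr rfl fun d _ => conj_itX h d, Finset.prod_mul_distrib,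
    Finset.prod_const, map_pow]

theorem conj_root {f g : F[X]} {a t : F} (ha : a ≠ 0)
    (h : (C a * X + C t).comp f = g.comp (C a * X + C t)) {n : ℕ} {Φ : F[X]}
    (hΦ : Ap f n = Am f n * Φ) : ∃ W : F[X], Ap g n = Am g n * W ∧
      ∀ x, Φ.eval x = 0 → W.eval (a * x + t) = 0 := by
  obtain ⟨e, he, heP⟩ := conj_prod ha h (n.divisors.filter (fun d => moebius (n / d) = 1))
  obtain ⟨i, hi, hiM⟩ := conj_prod ha h (n.divisors.filter (fun d => moebius (n / d) = -1))
  change (Ap g n).comp _ = C e * Ap f n at heP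
  change (Am g n).comp _ = C i * Am f n at hiM
  set T : F[X] := C a⁻¹ * (X - C t) with hT
  have hLT : (C a * X + C t).comp T = X := by
    rw [hT, add_comp, mul_comp, C_comp, X_comp, C_comp, ← mul_assoc, ← C_mul,
      mul_inv_cancel₀ ha, C_1]
    ring
  have h1 : Ap g n = C e * (Ap f n).comp T := by
    have := congrArg (fun q : F[X] => q.comp T) heP
    simp only [mul_comp, C_comp, comp_assoc, hLT, comp_X] at this
    exact this
  have h2 : Am g n = C i * (Am f n).comp T := by
    have := congrArg (fun q : F[X] => q.comp T) hiM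
    simp only [mul_comp, C_comp, comp_assoc, hLT, comp_X] at this
    exact this
  refine ⟨C (e * i⁻¹) * Φ.comp T, ?_, ?_⟩
  · have h3 : (C i : F[X]) * C i⁻¹ = 1 := by rw [← C_mul, mul_inv_cancel₀ hi, C_1]
    rw [h1, h2, hΦ, mul_comp, C_mul]
    calc _ = C e * ((Am f n).comp T * Φ.comp T) * (C i * C i⁻¹) := by rw [h3, mul_one]
      _ = _ := by ring
  · intro x hx
    rw [eval_mul, eval_comp, hT, eval_mul, eval_sub, eval_X, eval_C, eval_C, eval_C]
    have : a⁻¹ * (a * x + t - t) = x := by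
      field_simp
      ring
    rw [this, hx, mul_zero]

/-- the identity of rational functions defining the dynatomic polynomial -/
theorem ratfunc_identity {f : F[X]} (hf : f.natDegree = 2) {n : ℕ} {Φ : F[X]}
    (h : algebraMap F[X] (RatFunc F) Φ = ∏ d ∈ n.divisors,
      (algebraMap F[X] (RatFunc F) ((f.comp)^[d] X - X)) ^ (moebius (n / d))) :
    Ap f n = Am f n * Φ := by
  classical
  have hinj : Function.Injective (algebraMap F[X] (RatFunc F)) := RatFunc.algebraMap_injective F
  apply hinj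
  have h1 : algebraMap F[X] (RatFunc F) (Am f n) ≠ 0 := by
    intro h2
    exact Am_ne_zero hf n (hinj (h2.trans (_root_.map_zero _).symm))
  rw [map_mul, h]
  have h3 : ∏ d ∈ n.divisors, (algebraMap F[X] (RatFunc F) ((f.comp)^[d] X - X)) ^ (moebius (n / d)) =
      algebraMap F[X] (RatFunc F) (Ap f n) * (algebraMap F[X] (RatFunc F) (Am f n))⁻¹ := by
    unfold Ap Am
    rw [map_prod, map_prod, ← Finset.prod_inv_distrib, Finset.prod_filter, Finset.prod_filter,
      ← Finset.prod_mul_distrib]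
    apply Finset.prod_congr rfl
    intro d _
    change (algebraMap F[X] (RatFunc F) (it f d - X)) ^ (moebius (n / d)) = _
    by_cases hs : Squarefree (n / d)
    · rcases (moebius_ne_zero_iff_eq_or.1 (moebius_ne_zero_iff_squarefree.2 hs)) with h4 | h4
      · rw [h4]; simp
      · rw [h4]; simp
    · rw [moebius_eq_zero_of_not_squarefree hs]
      simp
  rw [h3, mul_comm, mul_assoc, inv_mul_cancel₀ h1, mul_one]

/-- the normal form of a quadratic polynomial -/
theorem normal_form (a₂ a₁ a₀ : F) (h2 : (2 : F) ≠ 0) :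
    (C a₂ * X + C (a₁ / 2)).comp (C a₂ * X ^ 2 + C a₁ * X + C a₀) =
      (X ^ 2 + C (a₂ * a₀ + a₁ / 2 - a₁ ^ 2 / 4)).comp (C a₂ * X + C (a₁ / 2)) := by
  have h4 : (4 : F) ≠ 0 := by
    have : (4 : F) = 2 * 2 := by norm_num
    rw [this]
    exact mul_ne_zero h2 h2
  simp only [add_comp, mul_comp, pow_comp, C_comp, X_comp]
  have e1 : (C a₁ : F[X]) = C 2 * C (a₁ / 2) := by
    rw [← C_mul]
    congr 1
    field_simp
  have e2 : (C (a₂ * a₀ + a₁ / 2 - a₁ ^ 2 / 4) : F[X]) =
      C a₂ * C a₀ + C (a₁ / 2) - C (a₁ / 2) ^ 2 := by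
    rw [← C_mul, ← C_add, ← C_pow, ← C_sub]
    congr 1
    field_simp
    ring
  rw [e2]
  rw [e1]
  have e3 : (C (2 : F) : F[X]) = 2 := rfl
  rw [e3]
  ring

end conj

end Pool.Agent.H294P
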