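import Mathlib

/-!
Iterates of a polynomial and the order of vanishing of `f^d - X` at a periodic point.
-/

set_option autoImplicit false

namespace Pool.Agent.H294P

open Polynomial

section ring
variable {R : Type*} [CommRing R]

/-- the `d`-th iterate of `f` -/
noncomputable def it (f : R[X]) (d : ℕ) : R[X] := (f.comp)^[d] X

theorem it_zero (f : R[X]) : it f 0 = X := rfl

theorem it_succ (f : R[X]) (d : ℕ) : it f (d + 1) = f.comp (it f d) := by
  unfold it
  rw [Function.iterate_succ_apply']

theorem it_one (f : R[X]) : it f 1 = f := by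
  rw [it_succ, it_zero, comp_X]

theorem it_add (f : R[X]) (a b : ℕ) : it f (a + b) = (it f a).comp (it f b) := by
  induction a with
  | zero => rw [it_zero, X_comp, zero_add]
  | succ a ih => rw [Nat.add_right_comm, it_succ, it_succ, ih, comp_assoc]

theorem it_mul (f : R[X]) (a b : ℕ) : it f (a * b) = it (it f a) b := by
  induction b with
  | zero => rfl
  | succ b ih => rw [Nat.mul_succ, Nat.add_comm, it_add, it_succ, ih]

theorem eval_it (f : R[X]) (d : ℕ) (x : R) : (it f d).eval x = (fun y => f.eval y)^[d] x := by
  induction d with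
  | zero => simp [it_zero]
  | succ d ih => rw [it_succ, eval_comp, ih, Function.iterate_succ_apply']

theorem map_it {S : Type*} [CommRing S] (φ : R →+* S) (f : R[X]) (d : ℕ) :
    (it f d).map φ = it (f.map φ) d := by
  induction d with
  | zero => simp [it_zero]
  | succ d ih => rw [it_succ, it_succ, Polynomial.map_comp, ih]

/-- semiconjugacy -/
theorem it_semiconj {f g L : R[X]} (h : L.comp f = g.comp L) (d : ℕ) :
    L.comp (it f d) = (it g d).comp L := by
  induction d with
  | zero => simp [it_zero]
  | succ d ih => rw [it_succ, it_succ, ← comp_assoc, h, comp_assoc, ih, comp_assoc]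

theorem natDegree_it [NoZeroDivisors R] [Nontrivial R] (f : R[X]) (d : ℕ) :
    (it f d).natDegree = f.natDegree ^ d := by
  induction d with
  | zero => simp [it_zero]
  | succ d ih => rw [it_succ, natDegree_comp, ih, pow_succ, mul_comm]

theorem natDegree_itX [NoZeroDivisors R] [Nontrivial R] {f : R[X]} (hf : f.natDegree = 2) {d : ℕ}
    (hd : d ≠ 0) : (it f d - X).natDegree = 2 ^ d := by
  have h1 : (it f d).natDegree = 2 ^ d := by rw [natDegree_it, hf]
  rw [← h1]
  apply natDegree_sub_eq_left_of_natDegree_lt
  rw [h1, natDegree_X]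
  exact Nat.one_lt_two_pow hd

theorem itX_ne_zero [NoZeroDivisors R] [Nontrivial R] {f : R[X]} (hf : f.natDegree = 2) {d : ℕ}
    (hd : d ≠ 0) : it f d - X ≠ 0 := by
  intro h
  have h1 := natDegree_itX hf hd
  rw [h, natDegree_zero] at h1
  exact (pow_ne_zero d two_ne_zero) h1.symm

end ring

section field
variable {k : Type*} [Field k]

theorem derivative_it (f : k[X]) (d : ℕ) (x : k) (hx : f.eval x = x) :
    (derivative (it f d)).eval x = (derivative f).eval x ^ d := by
  induction d with
  | zero => simp [it_zero]
  | succ d ih =>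
    have h1 : (it f d).eval x = x := by
      rw [eval_it]
      exact Function.iterate_fixed hx d
    rw [it_succ, derivative_comp, eval_mul, eval_comp, h1, ih, pow_succ]

theorem ord_eq_one {A : k[X]} {x : k} (h0 : A.eval x = 0) (h1 : (derivative A).eval x ≠ 0) :
    rootMultiplicity x A = 1 := by
  have hA : A ≠ 0 := by
    rintro rfl
    simp at h1
  have h2 : 0 < rootMultiplicity x A := (rootMultiplicity_pos hA).2 h0
  have h3 : ¬ 1 < rootMultiplicity x A := by
    intro h
    exact h1 ((one_lt_rootMultiplicity_iff_isRoot hA).1 h).2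
  omega

/-- the key computation: if `h = X + (X - x)^e w` with `e ≥ 2`, then `h^j = X + (X-x)^e w_j` with
`w_j(x) = j w(x)` -/
theorem it_expand {h w : k[X]} {x : k} {e : ℕ} (he : 2 ≤ e)
    (hh : h = X + (X - C x) ^ e * w) (j : ℕ) :
    ∃ v : k[X], it h j = X + (X - C x) ^ e * v ∧ v.eval x = j * w.eval x := by
  induction j with
  | zero => exact ⟨0, by simp [it_zero], by simp⟩
  | succ j ih =>
    obtain ⟨v, hv, hvx⟩ := ih
    have hx : (it h j).eval x = x := by
      rw [hv]
      simp [zero_pow (show e ≠ 0 by omega)]
    have h1 : it h j - C x = (X - C x) * (1 + (X - C x) ^ (e - 1) * v) := by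
      rw [hv]
      have h2 : (X - C x : k[X]) ^ e = (X - C x) * (X - C x) ^ (e - 1) := by
        rw [← pow_succ']
        congr 1
        omega
      rw [h2]
      ring
    refine ⟨v + (1 + (X - C x) ^ (e - 1) * v) ^ e * w.comp (it h j), ?_, ?_⟩
    · rw [it_succ]
      have h2 : h.comp (it h j) = it h j + (it h j - C x) ^ e * w.comp (it h j) := by
        have h3 := congrArg (fun q : k[X] => q.comp (it h j)) hh
        simp only [add_comp, X_comp, mul_comp, pow_comp, sub_comp, C_comp] at h3
        exact h3
      rw [h2, h1, mul_pow]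
      generalize it h j = T at *
      rw [hv]
      ring
    · rw [eval_add, eval_mul, eval_pow, eval_add, eval_mul, eval_comp, hx, hvx]
      have h3 : ((X - C x : k[X]) ^ (e - 1)).eval x = 0 := by
        rw [eval_pow]
        simp [zero_pow (show e - 1 ≠ 0 by omega)]
      rw [h3]
      simp
      ring

/-- for a parabolic fixed point the order of vanishing of `h^q - X` does not depend on `q`,
`q ≠ 0` in `k` -/
theorem ord_it {h : k[X]} {x : k} (hX : h - X ≠ 0) (h0 : h.eval x = x)
    (h1 : (derivative h).eval x = 1) {q : ℕ} (hq : (q : k) ≠ 0) :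
    rootMultiplicity x (it h q - X) = rootMultiplicity x (h - X) := by
  set e := rootMultiplicity x (h - X) with he
  obtain ⟨w, hw, hwx⟩ := exists_eq_pow_rootMultiplicity_mul_and_not_dvd (h - X) hX x
  rw [← he] at hw
  have he2 : 2 ≤ e := by
    have : 1 < rootMultiplicity x (h - X) := by
      rw [one_lt_rootMultiplicity_iff_isRoot hX]
      constructor
      · simp [IsRoot, h0]
      · simp [IsRoot, h1]
    omega
  have hwx' : w.eval x ≠ 0 := by
    intro h
    exact hwx (dvd_iff_isRoot.2 h)
  obtain ⟨v, hv, hvx⟩ := it_expand he2 (show h = X + (X - C x) ^ e * w by rw [← hw]; ring) q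
  have hvx' : v.eval x ≠ 0 := by
    rw [hvx]
    exact mul_ne_zero hq hwx'
  have hv0 : v ≠ 0 := by
    rintro rfl
    simp at hvx'
  have h2 : it h q - X = v * (X - C x) ^ e := by
    rw [hv]
    ring
  rw [h2, rootMultiplicity_mul_X_sub_C_pow hv0, rootMultiplicity_eq_zero hvx', zero_add]

end field

end Pool.Agent.H294P
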