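import Pool.Agent.H294P.Iter
import Mathlib.NumberTheory.Padics.RingHoms

/-!
The quotient `(g^n - X)/(g^(n/p) - X)` is not divisible by `p²` at suitable integers.
-/

set_option autoImplicit false
set_option maxHeartbeats 400000

namespace Pool.Agent.H294P

open Polynomial

theorem map_G' {R S : Type*} [CommRing R] [CommRing S] (φ : R →+* S) (b u v : R) (β : S)
    (hb : φ b * β = 1) (d : ℕ) :
    (G b u v d).map φ = C (φ b ^ (2 ^ d - 1)) * it (C β * (X ^ 2 + C (φ u) * X + C (φ v))) d := by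
  induction d with
  | zero => simp [G, it_zero]
  | succ d ih =>
    have h1 : 2 ^ (d + 1) - 2 = (2 ^ d - 1) + (2 ^ d - 1) := by
      rw [pow_succ]
      have := Nat.one_le_two_pow (n := d)
      omega
    have h2 : 2 ^ (d + 1) - 1 = (2 ^ d - 1) + (2 ^ d - 1) + 1 := by
      rw [pow_succ]
      have := Nat.one_le_two_pow (n := d)
      omega
    have h3 : it (C β * (X ^ 2 + C (φ u) * X + C (φ v))) (d + 1) = C β *
        (it (C β * (X ^ 2 + C (φ u) * X + C (φ v))) d ^ 2 +
          C (φ u) * it (C β * (X ^ 2 + C (φ u) * X + C (φ v))) d + C (φ v)) := by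
      rw [it_succ]
      generalize it (C β * (X ^ 2 + C (φ u) * X + C (φ v))) d = T
      rw [mul_comp, add_comp, add_comp, pow_comp, mul_comp, X_comp, C_comp, C_comp, C_comp]
    have h4 : (C (φ b) : S[X]) * C β = 1 := by
      rw [← C_mul, hb, C_1]
    rw [G, Polynomial.map_add, Polynomial.map_add, Polynomial.map_pow, Polynomial.map_mul,
      map_C, map_C, ih, h3, h1, h2]
    simp only [map_mul, map_pow]
    generalize it (C β * (X ^ 2 + C (φ u) * X + C (φ v))) d = T
    generalize (2 ^ d - 1 : ℕ) = e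
    rw [pow_add, pow_add, pow_one]
    calc _ = (C (φ b) ^ e * C (φ b) ^ e) * (T ^ 2 + C (φ u) * T + C (φ v)) := by ring
      _ = (C (φ b) ^ e * C (φ b) ^ e) * (T ^ 2 + C (φ u) * T + C (φ v)) *
          (C (φ b) * C β) := by rw [h4, mul_one]
      _ = _ := by ring

theorem dvd_of_toZMod {p : ℕ} [Fact p.Prime] {x : ℤ_[p]} (h : PadicInt.toZMod x = 0) :
    (p : ℤ_[p]) ∣ x := by
  have h1 : x ∈ RingHom.ker (PadicInt.toZMod (p := p)) := h
  rw [PadicInt.ker_toZMod, PadicInt.maximalIdeal_eq_span_p, Ideal.mem_span_singleton] at h1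
  exact h1

theorem psi_bound {p : ℕ} [hp : Fact p.Prime] (hp2 : p ≠ 2) {a b : ℤ} (hb : (b : ZMod p) = 1)
    {n N : ℕ} (hn : n = N * p) {ψ : ℤ[X]}
    (hψ : B b 0 (a * b) n = B b 0 (a * b) N * ψ) {t : ℤ} (ht : (B b 0 (a * b) N).eval t ≠ 0)
    (h0 : (it (X ^ 2 + C (a : ZMod p)) N).eval (t : ZMod p) = t)
    (h1 : (derivative (it (X ^ 2 + C (a : ZMod p)) N)).eval (t : ZMod p) = 1)
    (h3 : p ≠ 3 ∨ (taylor (t : ZMod p) (it (X ^ 2 + C (a : ZMod p)) N)).coeff 2 = 0) :
    ¬ (p : ℤ) ^ 2 ∣ ψ.eval t := by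
  intro hdvd
  obtain ⟨w, hw⟩ := hdvd
  set i : ℤ →+* ℤ_[p] := Int.castRingHom ℤ_[p] with hi
  have hzi : ∀ z : ℤ, PadicInt.toZMod (p := p) (z : ℤ_[p]) = (z : ZMod p) := fun z => by simp
  -- the inverse of `b`
  have hub : IsUnit (b : ℤ_[p]) := by
    rw [PadicInt.isUnit_iff]
    rcases (PadicInt.norm_le_one (b : ℤ_[p])).lt_or_eq with h | h
    · exfalso
      have h5 := (PadicInt.norm_int_lt_one_iff_dvd _).1 h
      rw [← ZMod.intCast_zmod_eq_zero_iff_dvd, hb] at h5
      exact one_ne_zero h5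
    · exact h
  obtain ⟨β, hβ⟩ := hub.exists_right_inv
  have hβ1 : PadicInt.toZMod β = 1 := by
    have := congrArg (PadicInt.toZMod (p := p)) hβ
    rw [map_mul, hzi, hb, one_mul, map_one] at this
    exact this
  set gR : ℤ_[p][X] := C β * (X ^ 2 + C (i 0) * X + C (i (a * b))) with hgR
  have hmapg : gR.map (PadicInt.toZMod (p := p)) = X ^ 2 + C (a : ZMod p) := by
    rw [hgR]
    simp only [Polynomial.map_mul, Polynomial.map_add, Polynomial.map_pow, map_X, map_C]
    rw [hβ1, map_zero, map_zero, hi, eq_intCast, hzi]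
    push_cast
    rw [hb]
    simp
  set h : ℤ_[p][X] := it gR N with hh
  have hmaph : h.map (PadicInt.toZMod (p := p)) = it (X ^ 2 + C (a : ZMod p)) N := by
    rw [hh, map_it, hmapg]
  set H : ℤ_[p][X] := taylor (t : ℤ_[p]) h - C (t : ℤ_[p]) with hH
  have hmapH : ∀ j, j ≠ 0 → PadicInt.toZMod (H.coeff j) =
      (taylor (t : ZMod p) (it (X ^ 2 + C (a : ZMod p)) N)).coeff j := by
    intro j hj
    rw [hH, coeff_sub, coeff_C, if_neg hj, sub_zero, ← hmaph, taylor_apply, taylor_apply]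
    have : (h.map (PadicInt.toZMod (p := p))).comp (X + C (t : ZMod p)) =
        (h.comp (X + C (t : ℤ_[p]))).map (PadicInt.toZMod (p := p)) := by
      rw [Polynomial.map_comp, Polynomial.map_add, map_X, map_C, hzi]
    rw [this, coeff_map]
  have hc0 : H.coeff 0 = h.eval (t : ℤ_[p]) - t := by
    rw [hH, coeff_sub, coeff_C, if_pos rfl, taylor_coeff_zero]
  have hy : (p : ℤ_[p]) ∣ H.coeff 0 := by
    apply dvd_of_toZMod
    rw [hc0, map_sub, hzi, ← hzi, ← Polynomial.eval_map_apply, hmaph, hzi, h0, sub_self]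
  have hη : (p : ℤ_[p]) ∣ H.coeff 1 - 1 := by
    apply dvd_of_toZMod
    rw [map_sub, map_one, hmapH 1 one_ne_zero, taylor_coeff_one, h1, sub_self]
  obtain ⟨y', hy'⟩ := hy
  obtain ⟨e', he'⟩ := hη
  have h3' : p ≠ 3 ∨ (p : ℤ_[p]) ∣ H.coeff 2 := by
    rcases h3 with h3 | h3
    · exact Or.inl h3
    · right
      apply dvd_of_toZMod
      rw [hmapH 2 two_ne_zero, h3]
  obtain ⟨u, hu⟩ := iter_p hp.out hp2 y' e' (H.coeff 2) H.divX.divX.divX (fun w => H.eval w)
    (fun w => by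
      change H.eval w = _
      rw [expand3 H w, hy', show H.coeff 1 = 1 + p * e' by rw [← he']; ring]) h3'
  -- iterates of `H`
  have hHit : ∀ j : ℕ, (fun w => H.eval w)^[j] 0 = (it h j).eval (t : ℤ_[p]) - t := by
    intro j
    induction j with
    | zero => simp [it_zero]
    | succ j ih =>
      rw [Function.iterate_succ_apply', ih, it_succ, eval_comp]
      change H.eval _ = _
      rw [hH, eval_sub, eval_C, taylor_apply, eval_comp, eval_add, eval_X, eval_C]
      congr 2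
      ring
  -- evaluation of the models
  have hB : ∀ d : ℕ, (((B b 0 (a * b) d).eval t : ℤ) : ℤ_[p]) =
      (b : ℤ_[p]) ^ (2 ^ d - 1) * ((it gR d).eval (t : ℤ_[p]) - t) := by
    intro d
    have h5 : (((B b 0 (a * b) d).eval t : ℤ) : ℤ_[p]) =
        ((B b 0 (a * b) d).map i).eval (i t) := by
      rw [Polynomial.eval_map_apply]
      rfl
    rw [h5, B, Polynomial.map_sub, map_G' i b 0 (a * b) β hβ, Polynomial.map_mul, map_C, map_X,
      ← hgR, eval_sub, eval_mul, eval_mul, eval_C, eval_C, eval_X, map_pow, hi, eq_intCast,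
      eq_intCast]
    ring
  have hN := hB N
  have hnn := hB n
  have hy0 : H.coeff 0 ≠ 0 := by
    intro h6
    rw [← hh, ← hc0, h6, mul_zero] at hN
    exact ht (by exact_mod_cast hN)
  have h7 : ((B b 0 (a * b) n).eval t : ℤ) = (B b 0 (a * b) N).eval t * ((p : ℤ) ^ 2 * w) := by
    rw [hψ, eval_mul, hw]
  have h8 := congrArg (fun z : ℤ => (z : ℤ_[p])) h7
  simp only [Int.cast_mul, Int.cast_pow, Int.cast_natCast] at h8
  rw [hN, hnn, hn, it_mul, ← hh, ← hHit, hu, ← hc0, hy'] at h8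
  -- cancel
  have hp0 : (p : ℤ_[p]) ≠ 0 := by exact_mod_cast hp.out.ne_zero
  have h9 : (b : ℤ_[p]) ^ (2 ^ (N * p) - 1) * (1 + p * u) =
      p * ((b : ℤ_[p]) ^ (2 ^ N - 1) * w) := by
    have h10 : (p * y') * p ≠ 0 := mul_ne_zero (hy' ▸ hy0) hp0
    apply mul_left_cancel₀ h10
    linear_combination h8
  have h11 := congrArg (PadicInt.toZMod (p := p)) h9
  rw [map_mul, map_mul, map_pow, hzi, hb, one_pow, one_mul, map_add, map_one, map_mul,
    map_natCast, CharP.cast_eq_zero, zero_mul, zero_mul, add_zero] at h11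
  exact one_ne_zero h11

end Pool.Agent.H294P
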