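import Pool.Agent.H294P.Bad

/-!
The real place: for `c > -5/4` the real periodic points of `X² + c` have period at most two.
-/

set_option autoImplicit false
set_option maxHeartbeats 400000

namespace Pool.Agent.H294P

open Polynomial NumberField Finset
open Pool.Agent.W569.FM

theorem sq_lt_neg {a b : ℝ} (hab : a < b) (hb : b ≤ 0) : b ^ 2 < a ^ 2 := by nlinarith

theorem sq_le_neg {a b : ℝ} (hab : a ≤ b) (hb : b ≤ 0) : b ^ 2 ≤ a ^ 2 := by nlinarith

theorem sq_lt_pos {a b : ℝ} (hab : a < b) (ha : 0 ≤ a) : a ^ 2 < b ^ 2 := by nlinarith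

theorem sq_le_pos {a b : ℝ} (hab : a ≤ b) (ha : 0 ≤ a) : a ^ 2 ≤ b ^ 2 := by nlinarith

theorem it_two {R : Type*} [CommRing R] (f : R[X]) : it f 2 = f.comp f := by
  have := it_succ f 1
  rw [it_one] at this
  exact this

theorem mono_periodic {h : ℝ → ℝ} {S : Set ℝ} (hS : ∀ u ∈ S, h u ∈ S)
    (hm : ∀ u ∈ S, ∀ v ∈ S, u < v → h u < h v) {x : ℝ} (hx : x ∈ S) {d : ℕ} (hd : d ≠ 0)
    (hdx : h^[d] x = x) : h x = x := by
  have hmem : ∀ i : ℕ, h^[i] x ∈ S := by
    intro i
    induction i with
    | zero => exact hx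
    | succ i ih =>
      rw [Function.iterate_succ_apply']
      exact hS _ ih
  obtain ⟨j, rfl⟩ := Nat.exists_eq_succ_of_ne_zero hd
  rcases lt_trichotomy (h x) x with h1 | h1 | h1
  · exfalso
    have hstep : ∀ i : ℕ, h^[i + 1] x < h^[i] x := by
      intro i
      induction i with
      | zero => exact h1
      | succ i ih =>
        have h2 := hm _ (hmem (i + 1)) _ (hmem i) ih
        simpa only [Function.iterate_succ_apply'] using h2
    have hall : ∀ i : ℕ, h^[i + 1] x < x := by
      intro i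
      induction i with
      | zero => exact hstep 0
      | succ i ih => exact (hstep (i + 1)).trans ih
    have := hall j
    rw [hdx] at this
    exact lt_irrefl _ this
  · exact h1
  · exfalso
    have hstep : ∀ i : ℕ, h^[i] x < h^[i + 1] x := by
      intro i
      induction i with
      | zero => exact h1
      | succ i ih =>
        have h2 := hm _ (hmem i) _ (hmem (i + 1)) ih
        simpa only [Function.iterate_succ_apply'] using h2
    have hall : ∀ i : ℕ, x < h^[i + 1] x := by
      intro i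
      induction i with
      | zero => exact hstep 0
      | succ i ih => exact ih.trans (hstep (i + 1))
    have := hall j
    rw [hdx] at this
    exact lt_irrefl _ this

/-- no real 4-cycles for `c > -5/4` -/
theorem no_four {c x y : ℝ} (hc : -5 / 4 < c) (hx0 : 0 ≤ x) (hy0 : 0 ≤ y) (hx1 : x ≤ 5 / 16)
    (hy1 : y ≤ 5 / 16) (hxy : (x ^ 2 + c) ^ 2 + c = y) (hyx : (y ^ 2 + c) ^ 2 + c = x) : x = y := by
  by_contra hne
  have h1 : (x + y) * (x ^ 2 + y ^ 2 + 2 * c) = -1 := by
    have h2 : (x - y) * ((x + y) * (x ^ 2 + y ^ 2 + 2 * c) + 1) = 0 := by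
      linear_combination hxy - hyx
    rcases mul_eq_zero.1 h2 with h3 | h3
    · exact absurd (sub_eq_zero.1 h3) hne
    · linarith
  set s := x + y with hs
  set q := x ^ 2 + y ^ 2 with hq
  have hs0 : 0 < s := by
    rcases (add_nonneg hx0 hy0).lt_or_eq with h | h
    · exact h
    · rw [hs, ← h, zero_mul] at h1
      linarith
  have hs1 : s ≤ 5 / 8 := by linarith
  have hs2 : s ^ 2 < 1 := by
    have := sq_le_pos hs1 hs0.le
    norm_num at this
    linarith
  have h3 : 2 * q - s ^ 2 > 0 := by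
    have h4 : 2 * q - s ^ 2 = (x - y) ^ 2 := by rw [hs, hq]; ring
    rw [h4]
    have : x - y ≠ 0 := sub_ne_zero.2 hne
    positivity
  have h5 : q ^ 2 - (s ^ 2 - q) ^ 2 / 2 + 2 * c * q + 2 * c ^ 2 + 2 * c - s = 0 := by
    rw [hs, hq]
    linear_combination hxy + hyx
  -- `4 c s² (1 - s²) = - (1 - 4 s³ - s⁶)`
  have h6 : s ^ 2 * (1 - s ^ 2) * (-4 * c) = 1 - 4 * s ^ 3 - s ^ 6 := by
    have hq' : s * q = -1 - 2 * c * s := by linear_combination h1
    have h7 : (s * q) ^ 2 - (s ^ 3 - s * q) ^ 2 / 2 + 2 * c * s * (s * q) + 2 * c ^ 2 * s ^ 2 +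
        2 * c * s ^ 2 - s ^ 3 = 0 := by linear_combination s ^ 2 * h5
    rw [hq'] at h7
    linear_combination (-2) * h7
  have h8 : 0 < s ^ 2 * (1 - s ^ 2) := by
    apply mul_pos (by positivity)
    linarith
  have h9 : 1 - 2 * s - s ^ 2 < 0 := by
    have h10 : 1 - 4 * s ^ 3 - s ^ 6 < s ^ 2 * (1 - s ^ 2) * 5 := by
      rw [← h6]
      exact mul_lt_mul_of_pos_left (by linarith) h8
    have h11 : (1 - 2 * s - s ^ 2) * (1 + 2 * s - 2 * s ^ 3 + s ^ 4) < 0 := by
      have : (1 - 2 * s - s ^ 2) * (1 + 2 * s - 2 * s ^ 3 + s ^ 4) =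
        (1 - 4 * s ^ 3 - s ^ 6) - s ^ 2 * (1 - s ^ 2) * 5 := by ring
      rw [this]
      linarith
    have h12 : 0 < 1 + 2 * s - 2 * s ^ 3 + s ^ 4 := by
      have : 2 * s - 2 * s ^ 3 = 2 * s * (1 - s) * (1 + s) := by ring
      have h13 : 0 ≤ 2 * s * (1 - s) * (1 + s) := by
        apply mul_nonneg (mul_nonneg (by linarith) (by linarith)) (by linarith)
      have h14 : 0 < s ^ 4 := by positivity
      linarith
    by_contra hcon
    push Not at hcon
    have := mul_nonneg hcon h12.le
    linarith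
  have h15 : 0 < 1 - 2 * s - s ^ 2 := by
    -- `-4c > s² + 2/s`
    have h16 : s * (-4 * c) > s ^ 3 + 2 := by
      have h17 : s * (2 * q) = -2 - 4 * c * s := by linear_combination 2 * h1
      have h18 := mul_pos hs0 h3
      have h18' : s * (2 * q - s ^ 2) = s * (2 * q) - s ^ 3 := by ring
      rw [h18', h17] at h18
      have h18'' : s * (-4 * c) = - 4 * c * s := by ring
      rw [h18'']
      linarith
    have h19 : 0 < s * (1 - s ^ 2) := by
      apply mul_pos hs0
      linarith
    have h20 := mul_lt_mul_of_pos_left h16 h19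
    have h21 : 0 < (1 + s ^ 2) * (1 - 2 * s - s ^ 2) := by
      have e1 : s * (1 - s ^ 2) * (s * (-4 * c)) = s ^ 2 * (1 - s ^ 2) * (-4 * c) := by ring
      rw [e1, h6] at h20
      have e2 : (1 + s ^ 2) * (1 - 2 * s - s ^ 2) =
        (1 - 4 * s ^ 3 - s ^ 6) - s * (1 - s ^ 2) * (s ^ 3 + 2) := by ring
      rw [e2]
      linarith
    by_contra hcon
    push Not at hcon
    have := mul_nonneg (neg_nonneg.2 hcon) (show 0 ≤ 1 + s ^ 2 by positivity)
    linarith
  linarith

theorem real_period {c : ℝ} (hc : -5 / 4 < c) {x : ℝ} {d : ℕ} (hd : d ≠ 0)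
    (hx : (fun y => y ^ 2 + c)^[d] x = x) : (x ^ 2 + c) ^ 2 + c = x := by
  set f : ℝ → ℝ := fun y => y ^ 2 + c with hf
  have hdi : ∀ i : ℕ, f^[i + d] x = f^[i] x := by
    intro i
    rw [Function.iterate_add_apply, hx]
  have hcle : ∀ i : ℕ, c ≤ f^[i] x := by
    intro i
    obtain ⟨e, rfl⟩ := Nat.exists_eq_succ_of_ne_zero hd
    rw [← hdi, Nat.succ_eq_add_one, ← add_assoc, Function.iterate_succ_apply']
    change c ≤ (f^[i + e] x) ^ 2 + c
    nlinarith [sq_nonneg (f^[i + e] x)]
  -- the maximum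
  obtain ⟨k, hk, hmax⟩ := Finset.exists_max_image (Finset.range d) (fun i => f^[i] x)
    ⟨0, Finset.mem_range.2 (Nat.pos_of_ne_zero hd)⟩
  have hmod : ∀ i : ℕ, f^[i] x = f^[i % d] x := by
    intro i
    have := Function.IsPeriodicPt.iterate_mod_apply (f := f) (x := x) (n := d) hx i
    exact this.symm
  have hM : ∀ i : ℕ, f^[i] x ≤ f^[k] x := by
    intro i
    rw [hmod i]
    exact hmax _ (Finset.mem_range.2 (Nat.mod_lt _ (Nat.pos_of_ne_zero hd)))
  set M := f^[k] x with hMdef
  have hMper : f^[d] M = M := by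
    rw [hMdef, ← Function.iterate_add_apply, add_comm, hdi]
  -- it suffices to consider `M`
  have hred : f (f M) = M → (x ^ 2 + c) ^ 2 + c = x := by
    intro h
    have hkd : k < d := Finset.mem_range.1 hk
    have h1 : f^[d - k] M = x := by
      rw [hMdef, ← Function.iterate_add_apply, Nat.sub_add_cancel hkd.le]
      exact hx
    have h2 : f (f x) = x := by
      have h3 : f^[2] (f^[d - k] M) = f^[d - k] (f^[2] M) :=
        ((Function.Commute.refl f).iterate_iterate 2 (d - k)).eq M
      have h4 : f^[2] M = M := h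
      rw [h4, h1] at h3
      exact h3
    exact h2
  -- `M` is a value
  obtain ⟨j, hj⟩ : ∃ j : ℕ, M = (f^[j] x) ^ 2 + c := by
    obtain ⟨e, he⟩ := Nat.exists_eq_succ_of_ne_zero hd
    refine ⟨k + e, ?_⟩
    have h1 := hdi k
    rw [he, Nat.succ_eq_add_one, ← add_assoc, Function.iterate_succ_apply'] at h1
    exact h1.symm
  set u := f^[j] x with hu
  have huM : u ≤ M := hM j
  have huc : c ≤ u := hcle j
  have hMc : c ≤ M := hcle k
  rcases lt_or_ge M 0 with hM0 | hM0
  · -- the whole orbit is negative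
    apply hred
    have hS : ∀ v ∈ {w : ℝ | ∃ i : ℕ, w = f^[i] x}, f (f v) ∈ {w : ℝ | ∃ i : ℕ, w = f^[i] x} := by
      rintro v ⟨i, rfl⟩
      exact ⟨i + 2, by rw [Function.iterate_succ_apply', Function.iterate_succ_apply']⟩
    refine mono_periodic (h := fun v => f (f v)) (S := {w : ℝ | ∃ i : ℕ, w = f^[i] x}) hS ?_
      ⟨k, rfl⟩ hd ?_
    · rintro v ⟨i, rfl⟩ w ⟨i', rfl⟩ hvw
      have h1 : f^[i] x < 0 := lt_of_le_of_lt (hM i) hM0
      have h2 : f^[i'] x < 0 := lt_of_le_of_lt (hM i') hM0
      have h3 : f (f^[i] x) < 0 := by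
        rw [← Function.iterate_succ_apply' f i x]
        exact lt_of_le_of_lt (hM _) hM0
      have h4 : f (f^[i'] x) < 0 := by
        rw [← Function.iterate_succ_apply' f i' x]
        exact lt_of_le_of_lt (hM _) hM0
      have h5 : f (f^[i'] x) < f (f^[i] x) := by
        change (f^[i'] x) ^ 2 + c < (f^[i] x) ^ 2 + c
        have := sq_lt_neg hvw h2.le
        linarith
      change (f (f^[i] x)) ^ 2 + c < (f (f^[i'] x)) ^ 2 + c
      have := sq_lt_neg h5 h3.le
      linarith
    · have h6 : (fun v => f (f v)) = f^[2] := rfl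
      rw [h6, ← Function.iterate_mul, mul_comm, Function.iterate_mul]
      exact Function.iterate_fixed hMper 2
  · rcases le_or_gt (-M) u with h1 | h1
    · -- fixed point
      apply hred
      have h2 : u ^ 2 ≤ M ^ 2 := by nlinarith
      have h3 : f M ≤ M := by
        have h4 := hM (k + 1)
        rw [Function.iterate_succ_apply'] at h4
        exact h4
      have h5 : M ≤ f M := by
        change M ≤ M ^ 2 + c
        linarith
      have h6 : f M = M := le_antisymm h3 h5
      rw [h6, h6]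
    · -- `M ≤ c² + c`
      have hu0 : u < 0 := by linarith
      have hc0 : c < 0 := by linarith
      have hMc2 : M ≤ c ^ 2 + c := by nlinarith
      have hc1 : c ≤ -1 := by nlinarith
      set t := -c with ht
      have ht1 : 1 ≤ t := by linarith
      have ht2 : t < 5 / 4 := by linarith
      have hct : c = -t := by rw [ht]; ring
      set w := (t ^ 2 - t) with hw
      have hw0 : 0 ≤ w := by nlinarith
      have hw1 : w ≤ 5 / 16 := by nlinarith
      have hc2w : c ^ 2 + c = w := by rw [hct]; ring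
      have hkey : 0 ≤ (w ^ 2 - t) ^ 2 - t := by
        have h2 : (w ^ 2 - t) ^ 2 - t = t * (t - 1) * (1 - 2 * (t ^ 2 * (t - 1))) + w ^ 4 := by
          rw [hw]
          ring
        have h3 : t ^ 2 * (t - 1) ≤ 1 / 2 := by
          have h4 : t ^ 2 ≤ 25 / 16 := by nlinarith
          have h5 : t ^ 2 * (t - 1) ≤ 25 / 16 * (t - 1) :=
            mul_le_mul_of_nonneg_right h4 (by linarith)
          linarith
        rw [h2]
        have h6 : 0 ≤ t * (t - 1) * (1 - 2 * (t ^ 2 * (t - 1))) :=
          mul_nonneg (mul_nonneg (by linarith) (by linarith)) (by linarith)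
        positivity
      -- `g = f ∘ f` maps `[0, w]` to itself and is decreasing
      have hfu : ∀ v : ℝ, 0 ≤ v → v ≤ w → -t ≤ f v ∧ f v ≤ w ^ 2 - t ∧ f v < 0 := by
        intro v hv0 hvw
        have h2 : v ^ 2 ≤ w ^ 2 := sq_le_pos hvw hv0
        have h3 : w ^ 2 ≤ 25 / 256 := by
          have := sq_le_pos hw1 hw0
          norm_num at this ⊢
          exact this
        have h4 : 0 ≤ v ^ 2 := sq_nonneg v
        refine ⟨?_, ?_, ?_⟩
        · change -t ≤ v ^ 2 + c
          linarith
        · change v ^ 2 + c ≤ w ^ 2 - t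
          linarith
        · change v ^ 2 + c < 0
          linarith
      have hg : ∀ v : ℝ, 0 ≤ v → v ≤ w → 0 ≤ f (f v) ∧ f (f v) ≤ w := by
        intro v hv0 hvw
        obtain ⟨h2, h3, h4⟩ := hfu v hv0 hvw
        constructor
        · change 0 ≤ (f v) ^ 2 + c
          have h5 : w ^ 2 - t ≤ 0 := by
            have := sq_le_pos hw1 hw0
            norm_num at this
            linarith
          have h6 : (w ^ 2 - t) ^ 2 ≤ (f v) ^ 2 := sq_le_neg h3 h5
          linarith
        · change (f v) ^ 2 + c ≤ w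
          rw [← hc2w]
          have h6 : (f v) ^ 2 ≤ (-t) ^ 2 := sq_le_neg h2 h4.le
          rw [ht, neg_neg] at h6
          linarith
      have hgd : ∀ v w' : ℝ, 0 ≤ v → v < w' → w' ≤ w → f (f w') < f (f v) := by
        intro v w' hv0 hvw hw'
        obtain ⟨h2, h3, h4⟩ := hfu v hv0 (hvw.le.trans hw')
        obtain ⟨h2', h3', h4'⟩ := hfu w' (hv0.trans hvw.le) hw'
        have h5 : f v < f w' := by
          change v ^ 2 + c < w' ^ 2 + c
          have := sq_lt_pos hvw hv0
          linarith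
        change (f w') ^ 2 + c < (f v) ^ 2 + c
        have := sq_lt_neg h5 h4'.le
        linarith
      have hMw : M ≤ w := by rw [← hc2w]; exact hMc2
      have h4 : f (f (f (f M))) = M := by
        refine mono_periodic (h := fun v => f (f (f (f v)))) (S := {v : ℝ | 0 ≤ v ∧ v ≤ w}) ?_ ?_
          ⟨hM0, hMw⟩ hd ?_
        · rintro v ⟨hv0, hvw⟩
          obtain ⟨h2, h3⟩ := hg v hv0 hvw
          exact hg _ h2 h3
        · rintro v ⟨hv0, hvw⟩ v' ⟨hv0', hvw'⟩ hlt
          exact hgd _ _ (hg v' hv0' hvw').1 (hgd v v' hv0 hlt hvw') (hg v hv0 hvw).2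
        · have h6 : (fun v => f (f (f (f v)))) = f^[4] := rfl
          rw [h6, ← Function.iterate_mul, mul_comm, Function.iterate_mul]
          exact Function.iterate_fixed hMper 4
      apply hred
      obtain ⟨h2, h3⟩ := hg M hM0 hMw
      have h7 := no_four (c := c) (x := M) (y := f (f M)) hc hM0 h2 (hMw.trans hw1) (h3.trans hw1)
        rfl h4
      exact h7.symm

theorem good_real' {c : ℚ} (hc : -5 / 4 < c) {n : ℕ} (hn : 3 < n) : Good c n := by
  obtain ⟨io, _, hio⟩ := restrict ℚ ℂ
  obtain ⟨σ, hσ⟩ := hio (starRingAut (R := ℂ)) (fun q => by simp)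
  refine ⟨σ, fun W hW x hx hfix => ?_⟩
  have h1 := hσ x
  rw [hfix] at h1
  obtain ⟨r, hr⟩ := Complex.conj_eq_iff_real.1 h1.symm
  have hcR : (-5 / 4 : ℝ) < (c : ℝ) := by
    have : ((-5 / 4 : ℚ) : ℝ) < (c : ℝ) := by exact_mod_cast hc
    push_cast at this
    exact this
  -- the polynomial identity over the reals
  have hm : ∀ (K : Type) [Field K] (φ : K →+* ℂ) (e : K), ∀ s : Finset ℕ,
      (∏ d ∈ s, (it (X ^ 2 + C e) d - X)).map φ = ∏ d ∈ s, (it (X ^ 2 + C (φ e)) d - X) := by
    intro K _ φ e s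
    simp only [Polynomial.map_prod, Polynomial.map_sub, map_it, map_X, Polynomial.map_add,
      Polynomial.map_pow, map_C]
  have e1 : io (c : QB) = (c : ℂ) := by simp
  have e2 : Complex.ofRealHom (c : ℝ) = (c : ℂ) := by simp
  have hAio : (Ap (X ^ 2 + C (c : QB)) n).map io = Ap (X ^ 2 + C (c : ℂ)) n := by
    unfold Ap
    rw [hm, e1]
  have hMio : (Am (X ^ 2 + C (c : QB)) n).map io = Am (X ^ 2 + C (c : ℂ)) n := by
    unfold Am
    rw [hm, e1]
  have hAre : (Ap (X ^ 2 + C (c : ℝ)) n).map Complex.ofRealHom = Ap (X ^ 2 + C (c : ℂ)) n := by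
    unfold Ap
    rw [hm, e2]
  have hMre : (Am (X ^ 2 + C (c : ℝ)) n).map Complex.ofRealHom = Am (X ^ 2 + C (c : ℂ)) n := by
    unfold Am
    rw [hm, e2]
  have hW' := congrArg (Polynomial.map io) hW
  rw [Polynomial.map_mul, hAio, hMio] at hW'
  have hdvd : Am (X ^ 2 + C (c : ℝ)) n ∣ Ap (X ^ 2 + C (c : ℝ)) n := by
    rw [← Polynomial.map_dvd_map' Complex.ofRealHom, hAre, hMre, hW']
    exact dvd_mul_right _ _
  obtain ⟨V, hV⟩ := hdvd
  have hVW : V.map Complex.ofRealHom = W.map io := by
    have h2 := congrArg (Polynomial.map Complex.ofRealHom) hV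
    rw [Polynomial.map_mul, hAre, hMre, hW'] at h2
    exact (mul_left_cancel₀ (Am_ne_zero natDegree_X_pow_add_C n) h2).symm
  have hVr : V.eval r = 0 := by
    have h3 : (V.map Complex.ofRealHom).eval (Complex.ofRealHom r) = 0 := by
      rw [hVW]
      have : Complex.ofRealHom r = io x := hr.symm
      rw [this, Polynomial.eval_map_apply, hx, map_zero]
    rw [Polynomial.eval_map_apply] at h3
    exact Complex.ofRealHom.injective (h3.trans (map_zero _).symm)
  have hloc := local_root (p := 0) (natDegree_X_pow_add_C : (X ^ 2 + C (c : ℝ)).natDegree = 2)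
    (by omega : n ≠ 0) hV hVr
  have hfun : (fun y => (X ^ 2 + C (c : ℝ)).eval y) = fun y : ℝ => y ^ 2 + (c : ℝ) := by
    funext y
    simp
  rw [hfun] at hloc
  set m := Function.minimalPeriod (fun y : ℝ => y ^ 2 + (c : ℝ)) r with hmdef
  obtain ⟨hmn, hloc⟩ := hloc
  have hm0 : m ≠ 0 := by
    intro h0
    rw [h0, zero_dvd_iff] at hmn
    omega
  have hper : (fun y : ℝ => y ^ 2 + (c : ℝ))^[m] r = r := Function.iterate_minimalPeriod
  have h2 := real_period hcR hm0 hper
  have hm2 : m ∣ 2 := by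
    apply Function.IsPeriodicPt.minimalPeriod_dvd
    exact h2
  have hmle : m ≤ 2 := Nat.le_of_dvd (by norm_num) hm2
  rcases hloc with h3 | ⟨e, h3⟩
  · omega
  · have he : e = 0 := by
      by_contra he
      rw [zero_pow he, mul_zero] at h3
      omega
    rw [he, pow_zero, mul_one] at h3
    set l := (derivative (it (X ^ 2 + C (c : ℝ)) m)).eval r with hl
    have hr0 : orderOf l ≠ 0 := by
      intro h0
      rw [h0, mul_zero] at h3
      omega
    have hl1 : l = 1 ∨ l = -1 := by
      have h4 := pow_orderOf_eq_one l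
      rcases (pow_eq_one_iff_of_ne_zero hr0).1 h4 with h5 | h5
      · exact Or.inl h5
      · exact Or.inr h5.1
    rcases hl1 with h5 | h5
    · rw [h5, orderOf_one] at h3
      omega
    · have hord : orderOf l ∣ 2 := by
        apply orderOf_dvd_of_pow_eq_one
        rw [h5]
        norm_num
      have hordle : orderOf l ≤ 2 := Nat.le_of_dvd (by norm_num) hord
      have hm22 : m = 2 := by
        have : m * orderOf l ≤ m * 2 := Nat.mul_le_mul_left m hordle
        omega
      -- the multiplier of the 2-cycle is `4 (1 + c)`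
      have hnf : r ^ 2 + (c : ℝ) ≠ r := by
        intro hfx
        have : m ∣ 1 := by
          apply Function.IsPeriodicPt.minimalPeriod_dvd
          exact hfx
        have := Nat.le_of_dvd one_pos this
        omega
      have hsum : r + (r ^ 2 + c) = -1 := by
        have h6 : (r - (r ^ 2 + c)) * (r + (r ^ 2 + c) + 1) = 0 := by linear_combination -h2
        rcases mul_eq_zero.1 h6 with h7 | h7
        · exact absurd (sub_eq_zero.1 h7).symm hnf
        · linarith
      have hl4 : l = 4 * (r * (r ^ 2 + c)) := by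
        rw [hl, hm22, it_two, derivative_comp]
        simp
        ring
      rw [h5] at hl4
      nlinarith

end Pool.Agent.H294P
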