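import Pool.Agent.H294P.Good
import Pool.Agent.H294P.Exc

/-!
The reduction of a periodic point in the ring of integers of a field.
-/

set_option autoImplicit false
set_option maxHeartbeats 400000

namespace Pool.Agent.H294P

open Polynomial

theorem red_point {F R k : Type*} [Field F] [CharZero F] [CommRing R] [IsDomain R] [Field k]
    (io : R →+* F) (hio : Function.Injective io) (pr : R →+* k) {p : ℕ} [Fact p.Prime] [CharP k p]
    {a b : ℤ} (hb : (b : ZMod p) = 1) {c : F} (hc : (b : F) * c = a) {n : ℕ} (hn : n ≠ 0)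
    {W : F[X]} (hW : Ap (X ^ 2 + C c) n = Am (X ^ 2 + C c) n * W) {x : F}
    (hx : W.eval x = 0) {z : R} (hz : io z = b * x) {t : ZMod p}
    (ht : ZMod.castHom (dvd_refl p) k t = pr z) :
    let m := Function.minimalPeriod (fun y => y ^ 2 + (a : ZMod p)) t
    m ∣ n ∧ (n = m ∨ ∃ e : ℕ, n = m *
      orderOf ((derivative (it (X ^ 2 + C (a : ZMod p)) m)).eval t) * p ^ e) := by
  have hb0 : (b : F) ≠ 0 := by
    intro h
    have h1 : b = 0 := by exact_mod_cast h
    rw [h1, Int.cast_zero] at hb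
    exact zero_ne_one hb
  -- conjugation by `b x`
  have hconj : (C (b : F) * X + C 0).comp (X ^ 2 + C c) =
      (gq (io (b : R)) (io 0) (io ((a * b : ℤ) : R))).comp (C (b : F) * X + C 0) := by
    have e1 : io (b : R) = (b : F) := map_intCast io b
    have e2 : io (0 : R) = 0 := map_zero io
    have e3 : io ((a * b : ℤ) : R) = (b : F) ^ 2 * c := by
      rw [map_intCast, Int.cast_mul, ← hc]
      ring
    rw [e1, e2, e3, gq]
    simp only [mul_comp, add_comp, pow_comp, C_comp, X_comp, C_0, add_zero, zero_mul]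
    have e6 : (C (b : F)⁻¹ : F[X]) * C (b : F) = 1 := by
      rw [← C_mul, inv_mul_cancel₀ hb0, C_1]
    rw [C_mul, C_pow]
    calc _ = 1 * C (b : F) * (X ^ 2 + C c) := by ring
      _ = (C (b : F)⁻¹ * C (b : F)) * C (b : F) * (X ^ 2 + C c) := by rw [e6]
      _ = _ := by ring
  obtain ⟨W₁, hW₁, hW₁r⟩ := conj_root hb0 hconj hW
  set φ : ZMod p →+* k := ZMod.castHom (dvd_refl p) _ with hφ
  have hφi : ∀ t : ℤ, φ (t : ZMod p) = pr (t : R) := fun t => by simp
  have hprb : pr (b : R) = 1 := by rw [← hφi, hb, map_one]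
  have hW₁z : W₁.eval (io z) = 0 := by
    have := hW₁r x hx
    rwa [add_zero, ← hz] at this
  obtain ⟨W₂, hW₂, hW₂z⟩ := red io hio pr (b : R) 0 ((a * b : ℤ) : R)
    (by rw [hprb]; exact one_ne_zero) n z W₁ hW₁ hW₁z
  have hprv : pr ((a * b : ℤ) : R) = φ (a : ZMod p) := by
    rw [Int.cast_mul, map_mul, hprb, mul_one, hφi]
  rw [hprb, map_zero, hprv] at hW₂
  have hg : gq (1 : k) 0 (φ (a : ZMod p)) = (X ^ 2 + C (a : ZMod p)).map φ := by
    unfold gq
    simp
  rw [hg] at hW₂
  -- descend to `ZMod p`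
  have hAp : ∀ s : Finset ℕ, ∏ d ∈ s, (it ((X ^ 2 + C (a : ZMod p)).map φ) d - X) =
      (∏ d ∈ s, (it (X ^ 2 + C (a : ZMod p)) d - X)).map φ := by
    intro s
    simp only [Polynomial.map_prod, Polynomial.map_sub, map_it, map_X]
  have hA1 : Ap ((X ^ 2 + C (a : ZMod p)).map φ) n = (Ap (X ^ 2 + C (a : ZMod p)) n).map φ := hAp _
  have hA2 : Am ((X ^ 2 + C (a : ZMod p)).map φ) n = (Am (X ^ 2 + C (a : ZMod p)) n).map φ := hAp _
  have hdeg : (X ^ 2 + C (a : ZMod p)).natDegree = 2 := natDegree_X_pow_add_C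
  rw [hA1, hA2] at hW₂
  have hdvd : Am (X ^ 2 + C (a : ZMod p)) n ∣ Ap (X ^ 2 + C (a : ZMod p)) n := by
    rw [← Polynomial.map_dvd_map' φ, hW₂]
    exact dvd_mul_right _ _
  obtain ⟨V, hV⟩ := hdvd
  have hVW : V.map φ = W₂ := by
    have h1 := congrArg (Polynomial.map φ) hV
    rw [Polynomial.map_mul, hW₂] at h1
    have h2 : (Am (X ^ 2 + C (a : ZMod p)) n).map φ ≠ 0 := by
      rw [Polynomial.map_ne_zero_iff φ.injective]
      exact Am_ne_zero hdeg n
    exact (mul_left_cancel₀ h2 h1).symm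
  have hVt : V.eval t = 0 := by
    apply φ.injective
    rw [map_zero, ← Polynomial.eval_map_apply, hVW, ht, hW₂z]
  have h := local_root (p := p) hdeg hn hV hVt
  have hfun : (fun y : ZMod p => (X ^ 2 + C (a : ZMod p)).eval y) = fun y => y ^ 2 + (a : ZMod p) := by
    funext y
    simp
  rw [hfun] at h
  exact h

/-- `h^N - X` divides `h^(N j) - X` -/
theorem it_dvd {R : Type*} [CommRing R] (h : R[X]) (j : ℕ) : (h - X) ∣ (it h j - X) := by
  induction j with
  | zero => simp [it_zero]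
  | succ j ih =>
    rw [it_succ]
    have h1 : h.comp (it h j) - X = (h.comp (it h j) - h.comp X) + (h - X) := by
      rw [comp_X]
      ring
    rw [h1]
    apply dvd_add _ (dvd_refl _)
    refine dvd_trans ih ?_
    have h2 := Polynomial.sub_dvd_eval_sub (it h j) X (h.map C)
    rw [eval_map, eval_map] at h2
    exact h2

end Pool.Agent.H294P
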