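import Pool.Agent.H294P.RedP
import Pool.Agent.H294P.Psi

/-!
Local lemmas for the strong form of the exclusion at a prime of good reduction.
-/

set_option autoImplicit false
set_option maxHeartbeats 400000

namespace Pool.Agent.H294P

open Polynomial

theorem coeff2_it {k : Type*} [Field k] {h : k[X]} {t : k} (h0 : h.eval t = t)
    (h1 : (derivative h).eval t = 1) (j : ℕ) :
    (taylor t (it h j)).coeff 2 = j * (taylor t h).coeff 2 := by
  have hw : ∃ w : k[X], h = X + (X - C t) ^ 2 * w := by
    by_cases hX : h - X = 0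
    · exact ⟨0, by rw [mul_zero, add_zero]; exact sub_eq_zero.1 hX⟩
    · have h2 : 1 < rootMultiplicity t (h - X) := by
        rw [one_lt_rootMultiplicity_iff_isRoot hX]
        constructor
        · simp [IsRoot, h0]
        · simp [IsRoot, h1]
      obtain ⟨w, hw⟩ := (le_rootMultiplicity_iff hX).1 h2
      refine ⟨w, ?_⟩
      rw [show (X - C t) ^ 2 * w = h - X from hw.symm]
      ring
  obtain ⟨w, hw⟩ := hw
  obtain ⟨v, hv, hvt⟩ := it_expand (le_refl 2) hw j
  have key : ∀ v : k[X], (taylor t (X + (X - C t) ^ 2 * v)).coeff 2 = v.eval t := by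
    intro v
    have h3 : taylor t (X + (X - C t) ^ 2 * v) = X + C t + X ^ 2 * taylor t v := by
      rw [map_add, taylor_mul, taylor_X, taylor_pow]
      rw [map_sub, taylor_X, taylor_C]
      ring
    rw [h3, coeff_add, coeff_add, coeff_X, coeff_C, coeff_X_pow_mul']
    simp
  rw [hv, key, hvt]
  congr 1
  rw [← key w, ← hw]

/-- the numbers excluded in the strong form -/
def Exs (p : ℕ) (a : ZMod p) (n : ℕ) : Prop :=
  ∃ t : ZMod p, let m := Function.minimalPeriod (fun y => y ^ 2 + a) t
    m ∣ n ∧ (n = m ∨ n = m * orderOf ((derivative (it (X ^ 2 + C a) m)).eval t))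

set_option synthInstance.maxSize 10000 in
theorem dec_three' : ∀ a t : ZMod 3, ∀ m < 3 + 1, m ≠ 0 → (fun y => y ^ 2 + a)^[m] t = t →
    (∀ j < m, j ≠ 0 → (fun y => y ^ 2 + a)^[j] t ≠ t) →
    ∀ r < 3, r ≠ 0 → lam a t m ^ r = 1 →
      (∀ j < r, j ≠ 0 → lam a t m ^ j ≠ 1) → m * r = 1 ∨ (m * r = 2 ∧ a = 0) := by
  decide +kernel

theorem local_facts {p : ℕ} [hp : Fact p.Prime] {a t : ZMod p} {n : ℕ}
    (hn : 3 < n)
    (hloc : let m := Function.minimalPeriod (fun y => y ^ 2 + a) t
      m ∣ n ∧ (n = m ∨ ∃ e : ℕ, n = m * orderOf ((derivative (it (X ^ 2 + C a) m)).eval t) * p ^ e))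
    (hE : ¬ Exs p a n) :
    t ≠ 0 ∧ ∃ N : ℕ, n = N * p ∧ (it (X ^ 2 + C a) N).eval t = t ∧
      (derivative (it (X ^ 2 + C a) N)).eval t = 1 ∧
      (p ≠ 3 ∨ (taylor t (it (X ^ 2 + C a) N)).coeff 2 = 0) := by
  obtain ⟨hmn, hloc⟩ := hloc
  set m := Function.minimalPeriod (fun y => y ^ 2 + a) t with hm
  set l := (derivative (it (X ^ 2 + C a) m)).eval t with hl
  have hm0 : m ≠ 0 := by
    intro h0
    rw [h0, zero_dvd_iff] at hmn
    omega
  have hfun : (fun y : ZMod p => (X ^ 2 + C a).eval y) = fun y => y ^ 2 + a := by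
    funext y
    simp
  have hmt : (it (X ^ 2 + C a) m).eval t = t := by
    rw [eval_it, hfun]
    exact Function.iterate_minimalPeriod
  have hE1 : n ≠ m := fun h => hE ⟨t, hmn, Or.inl h⟩
  have hE2 : n ≠ m * orderOf l := fun h => hE ⟨t, hmn, Or.inr h⟩
  obtain ⟨e, he⟩ := hloc.resolve_left hE1
  have he0 : e ≠ 0 := by
    rintro rfl
    rw [pow_zero, mul_one] at he
    exact hE2 he
  have hr0 : orderOf l ≠ 0 := by
    intro h
    rw [h] at he
    simp at he
    omega
  obtain ⟨e', rfl⟩ := Nat.exists_eq_succ_of_ne_zero he0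
  constructor
  · intro ht
    apply hr0
    have hl0 : l = 0 := by
      rw [hl, derivative_it_eq, ht]
      obtain ⟨m', hm'⟩ := Nat.exists_eq_succ_of_ne_zero hm0
      rw [hm']
      have : ∀ j : ℕ, lam a (0 : ZMod p) (j + 1) = 0 := by
        intro j
        induction j with
        | zero => simp [lam]
        | succ j ih => rw [lam, ih, mul_zero]
      exact this m'
    rw [hl0, orderOf_eq_zero_iff']
    intro j hj
    rw [zero_pow hj.ne']
    exact zero_ne_one
  · refine ⟨m * (orderOf l * p ^ e'), ?_, ?_, ?_, ?_⟩
    · rw [he, pow_succ]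
      ring
    · rw [it_mul, eval_it]
      exact Function.iterate_fixed hmt _
    · rw [it_mul, derivative_it _ _ _ hmt, pow_mul, pow_orderOf_eq_one, one_pow]
    · by_cases hp3 : p = 3
      · right
        subst hp3
        rcases Nat.eq_zero_or_pos e' with h | h
        · -- `e' = 0`
          subst h
          have hl0 : l ≠ 0 := by
            intro h1
            apply hr0
            rw [h1, orderOf_eq_zero_iff']
            intro j hj
            rw [zero_pow hj.ne']
            exact zero_ne_one
          have hr2 : orderOf l ≤ 3 - 1 := by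
            apply Nat.le_of_dvd (by norm_num)
            apply orderOf_dvd_of_pow_eq_one
            exact ZMod.pow_card_sub_one_eq_one hl0
          have hmp : m ≤ 3 := by
            have h1 : m ≤ Fintype.card (ZMod 3) := Function.minimalPeriod_le_card
            rwa [ZMod.card] at h1
          have h2 := dec_three' a t m (by omega) hm0 Function.iterate_minimalPeriod (by
            intro j hj hj0 h1
            have h2 : Function.IsPeriodicPt (fun y => y ^ 2 + a) j t := h1
            have := h2.minimalPeriod_le (Nat.pos_of_ne_zero hj0)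
            omega) (orderOf l) (by omega) hr0 (by
              rw [← derivative_it_eq]
              exact pow_orderOf_eq_one l) (by
              intro j hj hj0
              rw [← derivative_it_eq]
              exact pow_ne_one_of_lt_orderOf hj0 hj)
          rcases h2 with h2 | ⟨h2, h3⟩
          · exfalso
            rw [h2] at he
            omega
          · rw [← mul_assoc, h2, h3]
            have h4 : it (X ^ 2 + C (0 : ZMod 3)) (2 * 3 ^ 0) = X ^ 4 := by
              rw [pow_zero, mul_one, it_succ, it_one, C_0, add_zero]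
              simp only [pow_comp, X_comp]
              ring
            have h5 : (X ^ 4 : (ZMod 3)[X]) = monomial 4 1 := by rw [monomial_one_right_eq_X_pow]
            have h6 : ((Nat.choose 4 2 : ℕ) : ZMod 3) = 0 := by
              have h7 : Nat.choose 4 2 = 3 * 2 := rfl
              rw [h7, Nat.cast_mul, CharP.cast_eq_zero (ZMod 3) 3, zero_mul]
            rw [h4, taylor_coeff, h5, hasseDeriv_monomial, h6, zero_mul, monomial_zero_right,
              eval_zero]
        · obtain ⟨e'', rfl⟩ := Nat.exists_eq_succ_of_ne_zero h.ne'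
          have h1 : m * (orderOf l * 3 ^ (e'' + 1)) = (m * (orderOf l * 3 ^ e'')) * 3 := by
            rw [pow_succ]
            ring
          rw [Nat.succ_eq_add_one, h1, it_mul, coeff2_it]
          · rw [CharP.cast_eq_zero (ZMod 3) 3, zero_mul]
          · rw [it_mul, eval_it]
            exact Function.iterate_fixed hmt _
          · rw [it_mul, derivative_it _ _ _ hmt, pow_mul, pow_orderOf_eq_one, one_pow]
      · exact Or.inl hp3

end Pool.Agent.H294P
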