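import Pool.Agent.H294P.Str1
import Pool.Agent.H294P.Glob2
import Pool.Agent.H294P.Count

/-!
Orbits of the inertia group on the periodic points.
-/

set_option autoImplicit false
set_option maxHeartbeats 1000000
set_option linter.unusedSectionVars false

namespace Pool.Agent.H294P

open Polynomial NumberField
open Pool.Agent.W569.FM

section
variable {L : Type} [Field L] [NumberField L]

/-- conjugation of `X² + c` to `gq` by `b X` -/
theorem conj_b {a b : ℤ} {c : ℚ} (hb0 : (b : L) ≠ 0) (hc : (b : ℚ) * c = a) :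
    (C (b : L) * X + C 0).comp (X ^ 2 + C (c : L)) =
      (gq (b : L) ((0 : ℤ) : L) ((a * b : ℤ) : L)).comp (C (b : L) * X + C 0) := by
  have e3 : ((a * b : ℤ) : L) = (b : L) ^ 2 * (c : L) := by
    have := congrArg (fun q : ℚ => (q : L)) hc
    push_cast at this ⊢
    rw [← this]
    ring
  rw [e3, Int.cast_zero, gq]
  simp only [mul_comp, add_comp, pow_comp, C_comp, X_comp, C_0, add_zero, zero_mul]
  have e6 : (C (b : L)⁻¹ : L[X]) * C (b : L) = 1 := by
    rw [← C_mul, inv_mul_cancel₀ hb0, C_1]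
  rw [C_mul, C_pow]
  calc _ = 1 * C (b : L) * (X ^ 2 + C (c : L)) := by ring
    _ = (C (b : L)⁻¹ * C (b : L)) * C (b : L) * (X ^ 2 + C (c : L)) := by rw [e6]
    _ = _ := by ring

/-- the value of the integral model of `f^d - X` at `b y` -/
theorem eval_B {a b : ℤ} {c : ℚ} (hb0 : (b : L) ≠ 0) (hc : (b : ℚ) * c = a) (d : ℕ) (y : L) :
    ((B b 0 (a * b) d).map (Int.castRingHom L)).eval ((b : L) * y) =
      (b : L) ^ (2 ^ d - 1) * ((b : L) * ((fL L c)^[d] y - y)) := by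
  have h1 := map_B (Int.castRingHom L) b 0 (a * b) (by simpa using hb0) d
  rw [h1, eval_mul, eval_C, eq_intCast, eq_intCast, eq_intCast]
  congr 1
  have h2 := congrArg (Polynomial.eval y) (conj_itX (conj_b hb0 hc) d)
  have h3 : (C (b : L) * X + C 0).eval y = (b : L) * y := by simp
  have h4 : (C (b : L) * (it (X ^ 2 + C (c : L)) d - X)).eval y =
      (b : L) * ((fL L c)^[d] y - y) := by
    rw [eval_mul, eval_C, eval_sub, eval_X, eval_it, fL_eq]
  rw [eval_comp, h4, h3] at h2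
  exact h2

/-- `b y` is an algebraic integer -/
theorem exists_z {a b : ℤ} {c : ℚ} (hb0 : (b : L) ≠ 0) (hc : (b : ℚ) * c = a) {n : ℕ}
    (hn : n ≠ 0) (y : PL L c n) : ∃ z : 𝓞 L, (z : L) = (b : L) * y.1 := by
  have h1 := eval_B hb0 hc n y.1
  rw [PL_iter, sub_self, mul_zero, mul_zero] at h1
  have h2 : IsIntegral ℤ ((b : L) * y.1) := by
    refine ⟨B b 0 (a * b) n, B_monic b 0 (a * b) hn, ?_⟩
    rw [eval₂_eq_eval_map]
    exact h1
  exact ⟨⟨_, h2⟩, rfl⟩

/-- the dynatomic polynomial over `L` and its roots -/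
theorem exists_W {c : ℚ} {n : ℕ} (hn : n ≠ 0) {W : QB[X]}
    (hW : Ap (X ^ 2 + C (c : QB)) n = Am (X ^ 2 + C (c : QB)) n * W) :
    ∃ W' : L[X], Ap (X ^ 2 + C (c : L)) n = Am (X ^ 2 + C (c : L)) n * W' ∧
      ∀ y : PL L c n, W'.eval y.1 = 0 := by
  have hAp : ∀ (K : Type) [Field K] [CharZero K] (s : Finset ℕ),
      ∏ d ∈ s, (it (X ^ 2 + C (c : K)) d - X) =
      (∏ d ∈ s, (it (X ^ 2 + C c : ℚ[X]) d - X)).map (algebraMap ℚ K) := by
    intro K _ _ s
    simp only [Polynomial.map_prod, Polynomial.map_sub, map_it, map_X, Polynomial.map_add,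
      Polynomial.map_pow, map_C, eq_ratCast]
  have hA : ∀ (K : Type) [Field K] [CharZero K], Ap (X ^ 2 + C (c : K)) n =
      (Ap (X ^ 2 + C c : ℚ[X]) n).map (algebraMap ℚ K) := fun K _ _ => hAp K _
  have hM : ∀ (K : Type) [Field K] [CharZero K], Am (X ^ 2 + C (c : K)) n =
      (Am (X ^ 2 + C c : ℚ[X]) n).map (algebraMap ℚ K) := fun K _ _ => hAp K _
  have hdvd : Am (X ^ 2 + C c : ℚ[X]) n ∣ Ap (X ^ 2 + C c) n := by
    rw [← Polynomial.map_dvd_map' (algebraMap ℚ QB), ← hA, ← hM, hW]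
    exact dvd_mul_right _ _
  obtain ⟨W₀, hW₀⟩ := hdvd
  have h1 : Ap (X ^ 2 + C (c : L)) n = Am (X ^ 2 + C (c : L)) n * W₀.map (algebraMap ℚ L) := by
    rw [hA, hM, hW₀, Polynomial.map_mul]
  refine ⟨W₀.map (algebraMap ℚ L), h1, fun y => ?_⟩
  have hval : ∀ d : ℕ, (it (X ^ 2 + C (c : L)) d - X).eval y.1 = (fL L c)^[d] y.1 - y.1 := by
    intro d
    rw [eval_sub, eval_X, eval_it, fL_eq]
  have h2 := congrArg (Polynomial.eval y.1) h1
  rw [eval_mul] at h2
  have h3 : (Ap (X ^ 2 + C (c : L)) n).eval y.1 = 0 := by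
    unfold Ap
    rw [eval_prod, Finset.prod_eq_zero_iff]
    refine ⟨n, Finset.mem_filter.2 ⟨Nat.mem_divisors_self n hn, ?_⟩, ?_⟩
    · rw [Nat.div_self (Nat.pos_of_ne_zero hn)]
      simp
    · rw [hval, PL_iter, sub_self]
  have h4 : (Am (X ^ 2 + C (c : L)) n).eval y.1 ≠ 0 := by
    unfold Am
    rw [eval_prod, Finset.prod_ne_zero_iff]
    intro d hd
    rw [Finset.mem_filter, Nat.mem_divisors] at hd
    rw [Ne, hval, sub_eq_zero]
    intro h4
    have h5 : n ∣ d := by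
      have := Function.IsPeriodicPt.minimalPeriod_dvd (f := fL L c) (x := y.1) (n := d) h4
      rwa [y.2] at this
    have h6 : d = n := Nat.dvd_antisymm hd.1.1 h5
    rw [h6, Nat.div_self (Nat.pos_of_ne_zero hn)] at hd
    simp at hd
  rw [h3] at h2
  exact (mul_eq_zero.1 h2.symm).resolve_left h4

/-- the quotient `ψ = B_n / B_N` -/
theorem exists_psi {a b : ℤ} (hb0 : b ≠ 0) {n N j : ℕ} (hn : n = N * j) (hN : N ≠ 0) :
    ∃ ψ : ℤ[X], B b 0 (a * b) n = B b 0 (a * b) N * ψ := by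
  have hinj : Function.Injective (Int.castRingHom ℚ) := RingHom.injective_int _
  have hb0' : (Int.castRingHom ℚ) b ≠ 0 := by simpa using hb0
  have h1 : (B b 0 (a * b) N).map (Int.castRingHom ℚ) ∣
      (B b 0 (a * b) n).map (Int.castRingHom ℚ) := by
    rw [map_B _ _ _ _ hb0', map_B _ _ _ _ hb0', hn, it_mul]
    have h2 : IsUnit (C ((Int.castRingHom ℚ) b ^ (2 ^ N - 1)) : ℚ[X]) := by
      rw [isUnit_C]
      exact (pow_ne_zero _ hb0').isUnit
    obtain ⟨u, hu⟩ := h2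
    rw [← hu, Units.mul_left_dvd]
    exact dvd_mul_of_dvd_right (it_dvd _ _) _
  rw [Polynomial.map_dvd_map _ hinj (B_monic b 0 (a * b) hN)] at h1
  exact h1

/-- an integer in `P ^ (k + 1)` is divisible by `p²` if `p` is not in `P ^ (k + 1)` -/
theorem sq_dvd_of_mem {p : ℕ} [hp : Fact p.Prime] {P : Ideal (𝓞 L)} (hP : P.IsMaximal)
    (hpP : (p : 𝓞 L) ∈ P) {k : ℕ} (hk : (p : 𝓞 L) ∉ P ^ (k + 1)) {m : ℤ}
    (hm : (m : 𝓞 L) ∈ P ^ (k + 1)) : (p : ℤ) ^ 2 ∣ m := by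
  -- `p ∣ m`
  have hcop : ∀ u : ℤ, ¬ (p : ℤ) ∣ u → ∀ j : ℕ, ∃ s r : ℤ, s * u + r * (p : ℤ) ^ j = 1 := by
    intro u hu j
    have hpi : Prime (p : ℤ) := Nat.prime_iff_prime_int.1 hp.out
    have h1 : IsCoprime (p : ℤ) u := (Prime.coprime_iff_not_dvd hpi).2 hu
    obtain ⟨r, s, h⟩ := h1.pow_left (m := j)
    exact ⟨s, r, by rw [← h]; ring⟩
  by_contra hcon
  have hk0 : (m : 𝓞 L) ∈ P := Ideal.pow_le_self (Nat.succ_ne_zero k) hm
  have h1 : (p : ℤ) ∣ m := by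
    by_contra h
    obtain ⟨s, r, hsr⟩ := hcop m h 1
    apply hP.ne_top
    rw [Ideal.eq_top_iff_one]
    have h2 : ((s * m + r * (p : ℤ) ^ 1 : ℤ) : 𝓞 L) = 1 := by rw [hsr]; norm_num
    rw [← h2]
    push_cast
    rw [pow_one]
    exact P.add_mem (P.mul_mem_left _ hk0) (P.mul_mem_left _ hpP)
  obtain ⟨u, rfl⟩ := h1
  have h2 : ¬ (p : ℤ) ∣ u := by
    intro h
    apply hcon
    rw [pow_two]
    exact mul_dvd_mul_left _ h
  obtain ⟨s, r, hsr⟩ := hcop u h2 k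
  apply hk
  have h3 : (p : 𝓞 L) = (s : 𝓞 L) * (((p : ℤ) * u : ℤ) : 𝓞 L) + (r : 𝓞 L) * (p : 𝓞 L) ^ (k + 1) := by
    have h4 : (p : ℤ) = s * ((p : ℤ) * u) + r * (p : ℤ) ^ (k + 1) := by
      calc (p : ℤ) = p * (s * u + r * (p : ℤ) ^ k) := by rw [hsr, mul_one]
        _ = _ := by ring
    have h5 := congrArg (fun w : ℤ => (w : 𝓞 L)) h4
    push_cast at h5 ⊢
    exact h5
  rw [h3]
  exact Ideal.add_mem _ (Ideal.mul_mem_left _ _ hm)
    (Ideal.mul_mem_left _ _ (Ideal.pow_mem_pow hpP _))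

/-- an integer in a residue class which is not a root of a given polynomial -/
theorem exists_nonroot {p : ℕ} [hp : Fact p.Prime] (Q : ℤ[X]) (hQ : Q ≠ 0) (t : ZMod p) :
    ∃ a' : ℤ, (a' : ZMod p) = t ∧ Q.eval a' ≠ 0 := by
  classical
  obtain ⟨t₀, ht₀⟩ := ZMod.intCast_surjective t
  have hinj : Function.Injective (fun j : ℕ => t₀ + p * (j : ℤ)) := by
    intro i j h
    have h1 : (p : ℤ) * i = p * j := by simpa using h
    have hp0 : (p : ℤ) ≠ 0 := by exact_mod_cast hp.out.ne_zero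
    exact_mod_cast mul_left_cancel₀ hp0 h1
  by_contra hcon
  push Not at hcon
  have h1 : ∀ j : ℕ, t₀ + p * (j : ℤ) ∈ (Q.roots.toFinset : Set ℤ) := by
    intro j
    rw [Finset.mem_coe, Multiset.mem_toFinset, mem_roots hQ]
    apply hcon
    push_cast
    rw [ht₀, CharP.cast_eq_zero, zero_mul, add_zero]
  exact (Set.infinite_range_of_injective hinj).mono (by
    rintro _ ⟨j, rfl⟩
    exact h1 j) (Finset.finite_toSet _)

end

end Pool.Agent.H294P
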