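import Pool.Agent.H294P.Str2

/-!
The strong form of the exclusion at an odd prime of good reduction.
-/

set_option autoImplicit false
set_option maxHeartbeats 1000000
set_option linter.unusedSectionVars false

namespace Pool.Agent.H294P

open Polynomial NumberField Pointwise
open Pool.Agent.W569.FM

theorem good_strong' {p : ℕ} (hp : p.Prime) (hp2 : p ≠ 2) {l : ℕ} [Fact l.Prime] {c : ℚ}
    (hbad : 1 < padicNorm l (4 * c)) {a b : ℤ} (hb : (b : ZMod p) = 1)
    (hc : (b : ℚ) * c = a) {n : ℕ} (hn : 3 < n) (hE : ¬ Exs p (a : ZMod p) n) : Good c n := by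
  classical
  by_contra hG
  have := Fact.mk hp
  have hn0 : n ≠ 0 := by omega
  have hb0 : b ≠ 0 := by
    rintro rfl
    rw [Int.cast_zero] at hb
    exact zero_ne_one hb
  obtain ⟨L, _, _, _, hs⟩ := exists_galois (it (X ^ 2 + C c) n - X : ℚ[X])
  have hbL : (b : L) ≠ 0 := by exact_mod_cast hb0
  obtain ⟨P, hP, hpP, σ, hσ⟩ := exists_frob L p
  have hP0 : P ≠ ⊥ := by
    rintro rfl
    rw [Ideal.mem_bot] at hpP
    exact hp.ne_zero (by exact_mod_cast hpP)
  have hfin := PL_finite (L := L) c hn0
  -- the dynatomic polynomial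
  have hWex : ∃ W : QB[X], Ap (X ^ 2 + C (c : QB)) n = Am (X ^ 2 + C (c : QB)) n * W := by
    unfold Good at hG
    push Not at hG
    obtain ⟨W, hW, _⟩ := hG 1
    exact ⟨W, hW⟩
  obtain ⟨W₀, hW₀⟩ := hWex
  obtain ⟨W, hW, hWy⟩ := exists_W (L := L) hn0 hW₀
  -- integral points
  choose z hz using fun y : PL L c n => exists_z hbL hc hn0 y
  have hzsmul : ∀ (τ : Gal(L/ℚ)) (y : PL L c n), τ • z y = z (τ • y) := by
    intro τ y
    apply RingOfIntegers.ext
    rw [hz]
    change τ (z y : L) = (b : L) * τ y.1
    rw [hz, map_mul, map_intCast]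
  have hzinj : Function.Injective z := by
    intro y y' h
    apply Subtype.ext
    have h1 := congrArg (fun w : 𝓞 L => (w : L)) h
    simp only [hz] at h1
    exact mul_left_cancel₀ hbL h1
  -- the residue field
  let _ : Field (𝓞 L ⧸ P) := Ideal.Quotient.field P
  have hch : CharP (𝓞 L ⧸ P) p := by
    rw [CharP.charP_iff_prime_eq_zero hp]
    have := Ideal.Quotient.eq_zero_iff_mem.2 hpP
    rwa [map_natCast] at this
  set pr : 𝓞 L →+* 𝓞 L ⧸ P := Ideal.Quotient.mk P with hpr
  set φ : ZMod p →+* 𝓞 L ⧸ P := ZMod.castHom (dvd_refl p) _ with hφ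
  have hφi : ∀ t : ℤ, φ (t : ZMod p) = pr (t : 𝓞 L) := fun t => by simp
  -- local information at a point with reduction `t`
  have hloc : ∀ (y : PL L c n) (t : ZMod p), φ t = pr (z y) →
      t ≠ 0 ∧ ∃ N : ℕ, n = N * p ∧ (it (X ^ 2 + C (a : ZMod p)) N).eval t = t ∧
      (derivative (it (X ^ 2 + C (a : ZMod p)) N)).eval t = 1 ∧
      (p ≠ 3 ∨ (taylor t (it (X ^ 2 + C (a : ZMod p)) N)).coeff 2 = 0) := by
    intro y t ht
    apply local_facts hn _ hE
    have hcL : (b : L) * (c : L) = (a : L) := by
      have := congrArg (fun q : ℚ => (q : L)) hc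
      push_cast at this
      exact this
    exact red_point (algebraMap (𝓞 L) L) RingOfIntegers.coe_injective pr hb hcL hn0 hW
      (hWy y) (hz y) ht
  -- the inertia group
  set I : Subgroup Gal(L/ℚ) := P.inertia Gal(L/ℚ) with hI
  have hIpr : ∀ ι ∈ I, ∀ w : 𝓞 L, pr (ι • w) = pr w := by
    intro ι hι w
    rw [hpr, Ideal.Quotient.mk_eq_mk_iff_sub_mem]
    exact hι w
  -- the reductions of the points fixed by an element of the coset
  have hres : ∀ y : PL L c n, (∃ ι ∈ I, (σ * ι) • y = y) → ∃ t : ZMod p, φ t = pr (z y) := by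
    rintro y ⟨ι, hι, hy⟩
    have h1 : (σ * ι) • z y = z y := by rw [hzsmul, hy]
    have h2 : pr (z y) ^ p = pr (z y) := by
      have h3 := Ideal.Quotient.eq_zero_iff_mem.2 (hσ (ι • z y))
      rw [map_sub, map_pow, sub_eq_zero, ← mul_smul, h1] at h3
      change pr (z y) = pr (ι • z y) ^ p at h3
      rw [hIpr ι hι] at h3
      exact h3.symm
    have hzb := (Subfield.mem_bot_iff_pow_eq_self (𝓞 L ⧸ P) p).2 h2
    rw [mem_bot_iff_intCast p] at hzb
    obtain ⟨t, ht⟩ := hzb
    exact ⟨(t : ZMod p), by rw [← ht]; simp⟩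
  -- the count
  set K : Finset (𝓞 L ⧸ P) := (Finset.univ.erase (0 : ZMod p)).image φ with hK
  have hKcard : K.card ≤ p - 1 := by
    refine Finset.card_image_le.trans ?_
    rw [Finset.card_erase_of_mem (Finset.mem_univ _), Finset.card_univ, ZMod.card]
  have hle : n ≤ K.card := by
    refine coset_count I σ (fun ι _ => fix_count hbad hn0 hG hs (σ * ι))
      (fun y => pr (z y)) K ?_ ?_
    · intro y hy
      obtain ⟨t, ht⟩ := hres y hy
      rw [hK, Finset.mem_image]
      refine ⟨t, Finset.mem_erase.2 ⟨(hloc y t ht).1, Finset.mem_univ _⟩, ht⟩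
    · intro y y' hy hy' heq
      by_contra hno
      obtain ⟨t, ht⟩ := hres y hy
      have ht' : φ t = pr (z y') := by rw [ht]; exact heq
      obtain ⟨_, N, hN, h0, h1, h3⟩ := hloc y t ht
      have hN0 : N ≠ 0 := by
        rintro rfl
        omega
      obtain ⟨ψ, hψ⟩ := exists_psi (a := a) hb0 hN hN0
      obtain ⟨a', ha', ha'0⟩ := exists_nonroot (B b 0 (a * b) N)
        (B_monic b 0 (a * b) hN0).ne_zero t
      have hnd : ¬ (p : ℤ) ^ 2 ∣ ψ.eval a' := by
        apply psi_bound hp2 hb hN hψ ha'0
        · rw [ha']; exact h0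
        · rw [ha']; exact h1
        · rw [ha']; exact h3
      apply hnd
      -- the products over the two orbits
      let _ := Fintype.ofFinite (PL L c n)
      set O : PL L c n → Finset (PL L c n) := fun w =>
        Finset.univ.filter (fun v => ∃ ι ∈ I, ι • w = v) with hO
      have memO : ∀ w v, v ∈ O w ↔ ∃ ι ∈ I, ι • w = v := by
        intro w v
        rw [hO]
        simp
      have hOdisj : Disjoint (O y) (O y') := by
        rw [Finset.disjoint_left]
        intro v hv hv'
        rw [memO] at hv hv'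
        obtain ⟨ι, hι, hιy⟩ := hv
        obtain ⟨ι', hι', hιy'⟩ := hv'
        apply hno
        refine ⟨ι'⁻¹ * ι, I.mul_mem (I.inv_mem hι') hι, ?_⟩
        rw [mul_smul, hιy, ← hιy', inv_smul_smul]
      set Pi : Finset (PL L c n) → 𝓞 L := fun T => ∏ w ∈ T, ((a' : 𝓞 L) - z w) with hPi
      have hPimem : ∀ w : PL L c n, φ t = pr (z w) → Pi (O w) ∈ P ^ (Nat.card I) := by
        intro w hw
        apply mem_pow_card P hP0 I (le_refl _)
        · have hw1 : w ∈ O w := (memO w w).2 ⟨1, I.one_mem, one_smul _ _⟩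
          have hw2 : (a' : 𝓞 L) - z w ∈ P := by
            rw [← Ideal.Quotient.eq_zero_iff_mem, map_sub, sub_eq_zero]
            change pr (a' : 𝓞 L) = pr (z w)
            rw [← hw, ← ha', hφi]
          exact Ideal.mem_of_dvd P (Finset.dvd_prod_of_mem _ hw1) hw2
        · intro τ hτ
          rw [hPi]
          simp only
          rw [Finset.smul_prod']
          have h5 : ∀ v : PL L c n, τ • ((a' : 𝓞 L) - z v) = (a' : 𝓞 L) - z (τ • v) := by
            intro v
            rw [smul_sub, hzsmul]
            congr 1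
            have := map_intCast (MulSemiringAction.toRingHom Gal(L/ℚ) (𝓞 L) τ) a'
            exact this
          rw [Finset.prod_congr rfl fun v _ => h5 v]
          refine Finset.prod_bijective (fun v => τ • v) (MulAction.bijective τ) ?_ ?_
          · intro v
            rw [memO, memO]
            constructor
            · rintro ⟨ι, hι, rfl⟩
              exact ⟨τ * ι, I.mul_mem hτ hι, mul_smul _ _ _⟩
            · rintro ⟨ι, hι, hv⟩
              refine ⟨τ⁻¹ * ι, I.mul_mem (I.inv_mem hτ) hι, ?_⟩
              rw [mul_smul, hv, inv_smul_smul]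
          · intro v _
            rfl
      -- the product divides `ψ(a')`
      have hdvd : Pi (O y ∪ O y') ∣ ((ψ.eval a' : ℤ) : 𝓞 L) := by
        have hψ0 : ψ.map (Int.castRingHom (𝓞 L)) ≠ 0 := by
          rw [Polynomial.map_ne_zero_iff (RingHom.injective_int _)]
          rintro rfl
          rw [mul_zero] at hψ
          exact (B_monic b 0 (a * b) hn0).ne_zero hψ
        have hroot : ∀ w : PL L c n, (ψ.map (Int.castRingHom (𝓞 L))).eval (z w) = 0 := by
          intro w
          have h6 : ∀ d : ℕ, algebraMap (𝓞 L) L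
              (((B b 0 (a * b) d).map (Int.castRingHom (𝓞 L))).eval (z w)) =
              (b : L) ^ (2 ^ d - 1) * ((b : L) * ((fL L c)^[d] w.1 - w.1)) := by
            intro d
            rw [← eval_B hbL hc d w.1, ← hz w, ← Polynomial.eval_map_apply, Polynomial.map_map]
            congr 2
          have h7 := h6 n
          rw [hψ, Polynomial.map_mul, eval_mul, map_mul, h6 N, PL_iter, sub_self, mul_zero,
            mul_zero] at h7
          have h8 : (b : L) ^ (2 ^ N - 1) * ((b : L) * ((fL L c)^[N] w.1 - w.1)) ≠ 0 := by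
            apply mul_ne_zero (pow_ne_zero _ hbL)
            apply mul_ne_zero hbL
            rw [sub_ne_zero]
            intro h9
            have h10 : n ∣ N := by
              have := Function.IsPeriodicPt.minimalPeriod_dvd (f := fL L c) (x := w.1) (n := N) h9
              rwa [w.2] at this
            have h11 := Nat.le_of_dvd (Nat.pos_of_ne_zero hN0) h10
            rw [hN] at h11
            have := hp.two_le
            nlinarith [Nat.pos_of_ne_zero hN0]
          exact RingOfIntegers.coe_injective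
            (((mul_eq_zero.1 h7).resolve_left h8).trans (map_zero _).symm)
        have h9 : (((O y ∪ O y').val.map z).map (fun r => X - C r)).prod ∣
            ψ.map (Int.castRingHom (𝓞 L)) := by
          rw [Multiset.prod_X_sub_C_dvd_iff_le_roots hψ0]
          rw [Multiset.le_iff_subset (Multiset.Nodup.map hzinj (O y ∪ O y').nodup)]
          intro r hr
          rw [Multiset.mem_map] at hr
          obtain ⟨w, _, rfl⟩ := hr
          rw [mem_roots hψ0]
          exact hroot w
        have h10 := Polynomial.eval_dvd (x := (a' : 𝓞 L)) h9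
        have h11 : (ψ.map (Int.castRingHom (𝓞 L))).eval (a' : 𝓞 L) =
            ((ψ.eval a' : ℤ) : 𝓞 L) := by
          rw [← eq_intCast (Int.castRingHom (𝓞 L)) a', Polynomial.eval_map_apply, eq_intCast]
        rw [h11] at h10
        refine dvd_trans (dvd_of_eq ?_) h10
        rw [hPi]
        simp only
        rw [Multiset.map_map]
        change _ = eval (a' : 𝓞 L) (∏ w ∈ (O y ∪ O y'), (X - C (z w)))
        rw [eval_prod]
        apply Finset.prod_congr rfl
        intro w _
        simp
      have hunion : Pi (O y ∪ O y') = Pi (O y) * Pi (O y') := Finset.prod_union hOdisj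
      have hmem : ((ψ.eval a' : ℤ) : 𝓞 L) ∈ P ^ (Nat.card I + Nat.card I) := by
        apply Ideal.mem_of_dvd _ hdvd
        rw [hunion, pow_add]
        exact Ideal.mul_mem_mul (hPimem y ht) (hPimem y' ht')
      have hcpos : 0 < Nat.card I := Nat.card_pos
      have hmem' : ((ψ.eval a' : ℤ) : 𝓞 L) ∈ P ^ (Nat.card I + 1) :=
        Ideal.pow_le_pow_right (by omega) hmem
      exact sq_dvd_of_mem hP hpP (not_mem_pow_card p P hpP) hmem'
  -- conclusion: `n ≤ p - 1`, but `p ∣ n`
  have hfc := fix_count hbad hn0 hG hs σ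
  have hex : ∃ y : PL L c n, σ • y = y := by
    have h1 : 0 < Nat.card {y : PL L c n // σ • y = y} := by omega
    have h2 := (Nat.card_pos_iff.1 h1).1
    obtain ⟨y, hy⟩ := h2
    exact ⟨y, hy⟩
  obtain ⟨y, hy⟩ := hex
  obtain ⟨t, ht⟩ := hres y ⟨1, I.one_mem, by rw [mul_one]; exact hy⟩
  obtain ⟨_, N, hN, _⟩ := hloc y t ht
  have hN0 : 0 < N := by
    rcases Nat.eq_zero_or_pos N with h | h
    · rw [h, zero_mul] at hN
      omega
    · exact h
  have h1 : p ≤ n := by
    rw [hN]
    exact Nat.le_mul_of_pos_left p hN0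
  have := hp.two_le
  omega

end Pool.Agent.H294P
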