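import Pool.Agent.H294P.Tws3
import Pool.Agent.H294P.Main

/-!
Assembly of the strong form.
-/

set_option autoImplicit false
set_option maxHeartbeats 400000

namespace Pool.Agent.H294P

open Polynomial NumberField Finset

theorem good_of_int {c : ℚ} (h : (4 * c).den = 1) {n : ℕ} (hn : 3 < n) : Good c n := by
  apply main1 hn
  right
  left
  constructor
  · intro h3
    have h1 : c = (((4 * c).num : ℤ) : ℚ) / ((4 : ℤ) : ℚ) := by
      have h2 := Rat.mul_den_eq_num (4 * c)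
      rw [h] at h2
      push_cast
      linear_combination h2 / 4
    have h2 : ((c.den : ℕ) : ℤ) ∣ 4 := by
      rw [h1, ← Rat.divInt_eq_div]
      exact Rat.den_dvd _ _
    have h4 : c.den ∣ 4 := by exact_mod_cast h2
    have h5 := dvd_trans h3 h4
    omega
  · right
    rw [h]
    norm_num

theorem bad_or {c : ℚ} {n : ℕ} (hn : 3 < n) (hG : ¬ Good c n) :
    ∃ (l : ℕ) (_ : Fact l.Prime), 1 < padicNorm l (4 * c) := by
  by_cases h : (4 * c).den = 1
  · exact absurd (good_of_int h hn) hG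
  · obtain ⟨l, hl, hd⟩ := Nat.exists_prime_and_dvd h
    have := Fact.mk hl
    exact ⟨l, this, norm_gt_one hd⟩

theorem exs_of_not {p : ℕ} (hp : p.Prime) (hp2 : p ≠ 2) {c : ℚ} (h : ¬ p ∣ c.den) {n : ℕ}
    (hn : 3 < n) (hG : ¬ Good c n) :
    ∃ a b : ℤ, (b : ZMod p) = 1 ∧ (b : ℚ) * c = a ∧ Exs p (a : ZMod p) n := by
  obtain ⟨l, hl, hbad⟩ := bad_or hn hG
  obtain ⟨a, b, hb, hc⟩ := exists_frac hp h
  refine ⟨a, b, hb, hc, ?_⟩
  by_contra hE
  exact hG (good_strong' hp hp2 hbad hb hc hn hE)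

theorem good_two_all {c : ℚ} {n : ℕ} (hn : 3 < n) (h : ¬ 2 ∣ (4 * c).den) : Good c n := by
  by_contra hG
  obtain ⟨e, he⟩ := two_of_not h (by omega) hG
  have hodd : Odd ((4 * c).den : ℤ) := by
    rw [Int.odd_coe_nat, ← Nat.not_even_iff_odd, even_iff_two_dvd]
    exact h
  have hcc : (((4 * c).den : ℤ) : ℚ) * (4 * c) = ((4 * c).num : ℚ) := by
    have := Rat.mul_den_eq_num (4 * c)
    push_cast
    linear_combination this
  rcases Int.even_or_odd (4 * c).num with ha | ha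
  · exact hG (good_two hodd hcc (by omega) (Or.inl ha))
  · obtain ⟨l, hl, hbad⟩ := bad_or hn hG
    have he2 : 2 ≤ e := by
      by_contra h2
      have : e = 0 ∨ e = 1 := by omega
      rcases this with rfl | rfl <;> simp at he <;> omega
    obtain ⟨i, rfl⟩ := Nat.exists_eq_add_of_le he2
    refine hG (good_two_strong (N := 2 * 2 ^ i) hbad ha hodd hcc ?_ ?_ ?_)
    · rw [he, pow_add]
      ring
    · rcases Nat.eq_zero_or_pos i with rfl | hi
      · left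
        norm_num
      · right
        obtain ⟨j, rfl⟩ := Nat.exists_eq_succ_of_ne_zero hi.ne'
        exact ⟨2 ^ j, by rw [pow_succ]; ring⟩
    · positivity

theorem exs_aux {p : ℕ} [Fact p.Prime] {a : ZMod p} {n : ℕ} (hn : n ≠ 0) (h : Exs p a n) :
    ∃ t : ZMod p, ∃ m < p + 1, m ≠ 0 ∧ (fun y => y ^ 2 + a)^[m] t = t ∧
      (∀ j < m, j ≠ 0 → (fun y => y ^ 2 + a)^[j] t ≠ t) ∧
      (n = m ∨ ∃ r < p, r ≠ 0 ∧ lam a t m ^ r = 1 ∧ (∀ j < r, j ≠ 0 → lam a t m ^ j ≠ 1) ∧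
        r ∣ p - 1 ∧ n = m * r) := by
  have hp : p.Prime := Fact.out
  obtain ⟨t, hmn, h⟩ := h
  set m := Function.minimalPeriod (fun y => y ^ 2 + a) t with hm
  have hm0 : m ≠ 0 := by
    intro h0
    rw [h0, zero_dvd_iff] at hmn
    exact hn hmn
  have hmp : m ≤ p := by
    have h1 : m ≤ Fintype.card (ZMod p) := Function.minimalPeriod_le_card
    rwa [ZMod.card] at h1
  refine ⟨t, m, by omega, hm0, Function.iterate_minimalPeriod, ?_, ?_⟩
  · intro j hj hj0 h1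
    have h2 : Function.IsPeriodicPt (fun y => y ^ 2 + a) j t := h1
    have := h2.minimalPeriod_le (Nat.pos_of_ne_zero hj0)
    omega
  · rcases h with h | h
    · exact Or.inl h
    · right
      rw [derivative_it_eq] at h
      have hr0 : orderOf (lam a t m) ≠ 0 := by
        intro h1
        apply hn
        rw [h, h1]
        simp
      have hl0 : lam a t m ≠ 0 := by
        intro h1
        have h2 := pow_orderOf_eq_one (lam a t m)
        rw [h1] at h2 hr0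
        rw [zero_pow hr0] at h2
        exact zero_ne_one h2
      have h2d : orderOf (lam a t m) ∣ p - 1 := by
        apply orderOf_dvd_of_pow_eq_one
        exact ZMod.pow_card_sub_one_eq_one hl0
      have h2 : orderOf (lam a t m) ≤ p - 1 :=
        Nat.le_of_dvd (by have := hp.two_le; omega) h2d
      refine ⟨orderOf (lam a t m), by have := hp.two_le; omega, hr0, pow_orderOf_eq_one _, ?_, h2d,
        h⟩
      intro j hj hj0
      exact pow_ne_one_of_lt_orderOf hj0 hj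

theorem exs_three {a : ZMod 3} {n : ℕ} (hn : n ≠ 0) (h : Exs 3 a n) : n ≤ 3 := by
  have : Fact (Nat.Prime 3) := ⟨by norm_num⟩
  obtain ⟨t, m, hm3, hm0, h1, h2, h3⟩ := exs_aux hn h
  obtain ⟨h4, h5⟩ := dec_three a t m hm3 hm0 h1 h2
  rcases h3 with h3 | ⟨r, hr, hr0, hr1, hr2, _, he⟩
  · omega
  · obtain ⟨_, h7⟩ := h5 r hr hr0 hr1 hr2
    omega

set_option synthInstance.maxSize 10000 in
theorem dec_five' : ∀ a t : ZMod 5, ∀ m < 5 + 1, m ≠ 0 → (fun y => y ^ 2 + a)^[m] t = t →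
    (∀ j < m, j ≠ 0 → (fun y => y ^ 2 + a)^[j] t ≠ t) →
    (m < 4 ∧ ∀ r < 5, r ≠ 0 → lam a t m ^ r = 1 →
      (∀ j < r, j ≠ 0 → lam a t m ^ j ≠ 1) →
      m * r < 4 ∨ (m * r = 4 ∧ (a = 0 ∨ a = 3)) ∨ (m * r = 8 ∧ a = 2)) := by
  decide +kernel

set_option synthInstance.maxSize 10000 in
theorem dec_seven' : ∀ a t : ZMod 7, ∀ m < 7 + 1, m ≠ 0 → (fun y => y ^ 2 + a)^[m] t = t →
    (∀ j < m, j ≠ 0 → (fun y => y ^ 2 + a)^[j] t ≠ t) →
    (m < 4 ∧ ∀ r < 7, r ≠ 0 → lam a t m ^ r = 1 →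
      (∀ j < r, j ≠ 0 → lam a t m ^ j ≠ 1) →
      m * r < 4 ∨ (m * r = 4 ∧ a = 4) ∨ (m * r = 6 ∧ (a = 0 ∨ a = 1 ∨ a = 5))) := by
  decide +kernel

theorem exs_five {a : ZMod 5} {n : ℕ} (hn : 3 < n) (h : Exs 5 a n) :
    (n = 4 ∧ (a = 0 ∨ a = 3)) ∨ (n = 8 ∧ a = 2) := by
  have : Fact (Nat.Prime 5) := ⟨by norm_num⟩
  obtain ⟨t, m, hm3, hm0, h1, h2, h3⟩ := exs_aux (by omega) h
  obtain ⟨h4, h5⟩ := dec_five' a t m hm3 hm0 h1 h2
  rcases h3 with h3 | ⟨r, hr, hr0, hr1, hr2, _, he⟩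
  · omega
  · rw [he] at hn ⊢
    exact (h5 r hr hr0 hr1 hr2).resolve_left (by omega)

theorem exs_seven {a : ZMod 7} {n : ℕ} (hn : 3 < n) (h : Exs 7 a n) :
    (n = 4 ∧ a = 4) ∨ (n = 6 ∧ (a = 0 ∨ a = 1 ∨ a = 5)) := by
  have : Fact (Nat.Prime 7) := ⟨by norm_num⟩
  obtain ⟨t, m, hm3, hm0, h1, h2, h3⟩ := exs_aux (by omega) h
  obtain ⟨h4, h5⟩ := dec_seven' a t m hm3 hm0 h1 h2
  rcases h3 with h3 | ⟨r, hr, hr0, hr1, hr2, _, he⟩
  · omega
  · rw [he] at hn ⊢
    exact (h5 r hr hr0 hr1 hr2).resolve_left (by omega)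

theorem exs_bound {p : ℕ} [Fact p.Prime] (hp2 : p ≠ 2) {a : ZMod p} {n : ℕ} (hn : 3 < n)
    (h : Exs p a n) : 2 * n < p ^ 2 ∧ ∀ l : ℕ, l.Prime → l ∣ n → 2 * l ≤ p + 1 ∨ l = 2 := by
  have hp : p.Prime := Fact.out
  obtain ⟨t, m, hmp, hm0, h1, h2, h3⟩ := exs_aux (by omega) h
  have hm2 := period_le hp2 h1 h2
  have hp3 : 3 ≤ p := by
    have := hp.two_le
    omega
  have hmod : p % 2 = 1 := hp.eq_two_or_odd.resolve_left hp2
  obtain ⟨k, rfl⟩ : ∃ k, p = 2 * k + 1 := ⟨p / 2, by omega⟩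
  have hk : 1 ≤ k := by omega
  have hm3 : m ≤ k + 1 := by omega
  constructor
  · rcases h3 with h3 | ⟨r, hr, hr0, _, _, hrd, he⟩
    · rw [h3]
      nlinarith
    · have hr2 : r ≤ 2 * k := by omega
      rw [he]
      have : m * r ≤ (k + 1) * (2 * k) := Nat.mul_le_mul hm3 hr2
      nlinarith
  · intro l hl hln
    by_cases hl2 : l = 2
    · exact Or.inr hl2
    left
    rcases h3 with h3 | ⟨r, hr, hr0, _, _, hrd, he⟩
    · have := Nat.le_of_dvd (Nat.pos_of_ne_zero hm0) (h3 ▸ hln)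
      omega
    · rw [he] at hln
      rcases (hl.dvd_mul).1 hln with h5 | h5
      · have := Nat.le_of_dvd (Nat.pos_of_ne_zero hm0) h5
        omega
      · have h6 : l ∣ 2 * k := dvd_trans h5 (by simpa using hrd)
        rcases (hl.dvd_mul).1 h6 with h7 | h7
        · exact absurd ((Nat.prime_dvd_prime_iff_eq hl Nat.prime_two).1 h7) hl2
        · have := Nat.le_of_dvd (by omega) h7
          omega

theorem good_three {c : ℚ} {n : ℕ} (hn : 3 < n) (h : ¬ 3 ∣ c.den) : Good c n := by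
  by_contra hG
  obtain ⟨a, b, _, _, hE⟩ := exs_of_not Nat.prime_three (by norm_num) h hn hG
  have := exs_three (by omega) hE
  omega

end Pool.Agent.H294P
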