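import Pool.Agent.H294P.Str3

/-!
The prime 2: auxiliary results for the strong form.
-/

set_option autoImplicit false
set_option maxHeartbeats 1000000
set_option linter.unusedSectionVars false

namespace Pool.Agent.H294P

open Polynomial NumberField Pointwise IsDedekindDomain WithZero

theorem val_cancel {R : Type*} [CommRing R] [IsDedekindDomain R] {P : Ideal R} (hP : P.IsPrime)
    (hP0 : P ≠ ⊥) {e k : ℕ} {x w : R} (hx : x ∉ P ^ (e + 1)) (hxw : x * w ∈ P ^ (e + k)) :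
    w ∈ P ^ k := by
  let v : HeightOneSpectrum R := ⟨P, hP, hP0⟩
  have h1 : ¬ v.intValuation x ≤ exp (-((e + 1 : ℕ) : ℤ)) := by
    rw [v.intValuation_le_pow_iff_mem]
    exact hx
  have h2 : v.intValuation (x * w) ≤ exp (-((e + k : ℕ) : ℤ)) := by
    rw [v.intValuation_le_pow_iff_mem]
    exact hxw
  change w ∈ v.asIdeal ^ k
  rw [← v.intValuation_le_pow_iff_mem]
  by_contra h3
  rw [map_mul] at h2
  by_cases hx0 : x = 0
  · exact h1 (by rw [hx0, map_zero]; exact zero_le)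
  by_cases hw0 : w = 0
  · exact h3 (by rw [hw0, map_zero]; exact zero_le)
  rw [v.intValuation_if_neg hx0] at h1 h2
  rw [v.intValuation_if_neg hw0] at h2 h3
  rw [← exp_add, exp_le_exp] at h2
  rw [exp_le_exp] at h1 h3
  push_cast at h1 h2 h3
  omega

section ring
variable {R : Type*} [CommRing R]

theorem pow_sub_aux (d : ℕ) : d ≤ 2 ^ d - 1 := by
  have := Nat.lt_two_pow_self (n := d)
  omega

theorem G_zero (b u : R) (d : ℕ) : (G b u 0 d).eval 0 = 0 ∧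
    (derivative (G b u 0 d)).eval 0 = u ^ d * b ^ (2 ^ d - 1 - d) := by
  induction d with
  | zero => simp [G]
  | succ d ih =>
    obtain ⟨h1, h2⟩ := ih
    constructor
    · rw [G]
      simp [h1]
    · have h3 : 2 ^ (d + 1) - 1 - (d + 1) = (2 ^ d - 1) + (2 ^ d - 1 - d) := by
        have := pow_sub_aux d
        rw [pow_succ]
        omega
      rw [G, h3, pow_add]
      simp only [derivative_add, derivative_pow, derivative_C_mul, derivative_C, eval_add,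
        eval_mul, eval_pow, eval_C, h1, h2, zero_mul, eval_zero]
      simp
      ring

theorem B_zero (b u : R) (d : ℕ) : (B b u 0 d).eval 0 = 0 ∧
    (derivative (B b u 0 d)).eval 0 = b ^ (2 ^ d - 1 - d) * (u ^ d - b ^ d) := by
  obtain ⟨h1, h2⟩ := G_zero b u d
  have h3 : 2 ^ d - 1 = (2 ^ d - 1 - d) + d := by
    have := pow_sub_aux d
    omega
  constructor
  · rw [B, eval_sub, h1]
    simp
  · rw [B, derivative_sub, eval_sub, h2, derivative_C_mul, derivative_X, mul_one, eval_C]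
    conv_lhs => rw [h3, pow_add]
    rw [← h3]
    ring

/-- the value of `ψ = B_n / B_N`, `n = 2 N`, at `0` -/
theorem psi_zero [IsDomain R] {b u : R} {N : ℕ} (hne : u ^ N ≠ b ^ N) {ψ : R[X]}
    (hψ : B b u 0 (N + N) = B b u 0 N * ψ) :
    b ^ (2 ^ N - 1 - N) * ψ.eval 0 = b ^ (2 ^ (N + N) - 1 - (N + N)) * (u ^ N + b ^ N) := by
  have h1 := congrArg (fun q : R[X] => (derivative q).eval 0) hψ
  simp only [derivative_mul, eval_add, eval_mul] at h1
  rw [(B_zero b u (N + N)).2, (B_zero b u N).1, (B_zero b u N).2, zero_mul, add_zero] at h1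
  have h2 : u ^ N - b ^ N ≠ 0 := sub_ne_zero.2 hne
  apply mul_left_cancel₀ h2
  rw [pow_add u, pow_add b N N] at h1
  linear_combination -h1

end ring

section
variable {L : Type} [Field L] [NumberField L]

theorem V_not_mem {P : Ideal (𝓞 L)} (hP : P.IsMaximal) (hP0 : P ≠ ⊥)
    (h2P : (2 : 𝓞 L) ∈ P) {e : ℕ} (he : 0 < e) (h2 : (2 : 𝓞 L) ∈ P ^ e)
    (h2' : (2 : 𝓞 L) ∉ P ^ (e + 1)) {a b : ℤ} (ha : Odd a) (hb : Odd b) {U : 𝓞 L}
    (hU : U ^ 2 = 2 * b * U - a * b) {N : ℕ} (hN : N = 2 ∨ 4 ∣ N) :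
    U ^ N + (b : 𝓞 L) ^ N ∉ P ^ (e + e) := by
  have := Fact.mk Nat.prime_two
  have h2c : ((2 : ℕ) : 𝓞 L) = 2 := by norm_num
  have hsq : ∀ m : ℤ, (m : 𝓞 L) ∈ P ^ (e + 1) → (4 : ℤ) ∣ m := by
    intro m hm
    have h5 := sq_dvd_of_mem (p := 2) hP (by rw [h2c]; exact h2P) (k := e)
      (by rw [h2c]; exact h2') hm
    have h6 : ((2 : ℕ) : ℤ) ^ 2 = 4 := by norm_num
    rwa [h6] at h5
  have h4 : (4 : 𝓞 L) ∈ P ^ (e + e) := by
    have h5 : (4 : 𝓞 L) = 2 * 2 := by norm_num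
    rw [h5, pow_add]
    exact Ideal.mul_mem_mul h2 h2
  intro hV
  rcases hN with hN | hN
  · -- `N = 2`
    subst hN
    obtain ⟨a₁, rfl⟩ := ha
    obtain ⟨b₁, rfl⟩ := hb
    set b : ℤ := 2 * b₁ + 1 with hbdef
    -- `V = 2 b (U + s₁)`
    set s : ℤ := b₁ - a₁ with hs
    have hV1 : U ^ 2 + (b : 𝓞 L) ^ 2 = (b : 𝓞 L) * (2 * (U + s)) := by
      rw [hU, hs, hbdef]
      push_cast
      ring
    rw [hV1] at hV
    have hbP : (b : 𝓞 L) ∉ P := by
      intro h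
      apply hP.ne_top
      rw [Ideal.eq_top_iff_one]
      have h5 : (1 : 𝓞 L) = (b : 𝓞 L) - (b₁ : 𝓞 L) * 2 := by
        rw [hbdef]
        push_cast
        ring
      rw [h5]
      exact P.sub_mem h (P.mul_mem_left _ h2P)
    have h5 := (hP.mul_mem_pow P hV).resolve_left hbP
    have h6 : U + s ∈ P ^ e := val_cancel hP.isPrime hP0 h2' h5
    -- the conjugate
    have h7 : (2 * (b : 𝓞 L) - U) + s ∈ P ^ e := by
      have h8 : (2 * (b : 𝓞 L) - U) + s = 2 * ((b : 𝓞 L) + s) - (U + s) := by ring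
      rw [h8]
      exact Ideal.sub_mem _ (Ideal.mul_mem_right _ _ h2) h6
    have h8 : ((b ^ 2 + s ^ 2 : ℤ) : 𝓞 L) ∈ P ^ (e + e) := by
      have h9 : ((b ^ 2 + s ^ 2 : ℤ) : 𝓞 L) = (U + s) * ((2 * (b : 𝓞 L) - U) + s) := by
        have h10 : (U + s) * ((2 * (b : 𝓞 L) - U) + s) =
            (2 * b * U - U ^ 2) + 2 * b * s + (s : 𝓞 L) ^ 2 := by ring
        rw [h10, hU]
        rw [hs, hbdef]
        push_cast
        ring
      rw [h9, pow_add]
      exact Ideal.mul_mem_mul h6 h7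
    have h9 := hsq _ (Ideal.pow_le_pow_right (by omega) h8)
    rw [hbdef] at h9
    obtain ⟨w, hw⟩ := h9
    rcases Int.even_or_odd s with ⟨q, hq⟩ | ⟨q, hq⟩
    · rw [hq] at hw
      ring_nf at hw
      omega
    · rw [hq] at hw
      ring_nf at hw
      omega
  · obtain ⟨q, rfl⟩ := hN
    have hU4 : U ^ 4 = ((a ^ 2 * b ^ 2 : ℤ) : 𝓞 L) + 4 * ((b : 𝓞 L) ^ 2 * (U ^ 2 - a * U)) := by
      have h5 : U ^ 4 = (2 * b * U - a * b) ^ 2 := by
        rw [← hU]
        ring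
      rw [h5]
      push_cast
      ring
    have h5 : (4 : 𝓞 L) ∣ U ^ (4 * q) - (((a ^ 2 * b ^ 2) ^ q : ℤ) : 𝓞 L) := by
      rw [pow_mul]
      have h6 := sub_dvd_pow_sub_pow (U ^ 4) ((a ^ 2 * b ^ 2 : ℤ) : 𝓞 L) q
      refine dvd_trans ?_ (by exact_mod_cast h6)
      rw [hU4]
      exact ⟨(b : 𝓞 L) ^ 2 * (U ^ 2 - a * U), by ring⟩
    obtain ⟨w, hw⟩ := h5
    have h6 : (((a ^ 2 * b ^ 2) ^ q + b ^ (4 * q) : ℤ) : 𝓞 L) ∈ P ^ (e + e) := by
      have h7 : (((a ^ 2 * b ^ 2) ^ q + b ^ (4 * q) : ℤ) : 𝓞 L) =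
          (U ^ (4 * q) + (b : 𝓞 L) ^ (4 * q)) - 4 * w := by
        rw [← hw]
        push_cast
        ring
      rw [h7]
      exact Ideal.sub_mem _ hV (Ideal.mul_mem_right _ _ h4)
    have h7 := hsq _ (Ideal.pow_le_pow_right (by omega) h6)
    have h8 : ∀ x : ℤ, Odd x → (4 : ℤ) ∣ x ^ 2 - 1 := by
      rintro x ⟨t, rfl⟩
      exact ⟨t ^ 2 + t, by ring⟩
    have h9 : (4 : ℤ) ∣ (a ^ 2 * b ^ 2) ^ q - 1 := by
      have h10 : (a ^ 2 * b ^ 2) ^ q = ((a * b) ^ q) ^ 2 := by ring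
      rw [h10]
      exact h8 _ ((ha.mul hb).pow)
    have h10 : (4 : ℤ) ∣ b ^ (4 * q) - 1 := by
      have h11 : b ^ (4 * q) = (b ^ (2 * q)) ^ 2 := by ring
      rw [h11]
      exact h8 _ hb.pow
    omega

end

end Pool.Agent.H294P
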