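import Pool.Agent.H294P.Tws1
import Pool.Agent.H294P.Two

/-!
The strong form of the exclusion at the prime 2.
-/

set_option autoImplicit false
set_option maxHeartbeats 1000000
set_option linter.unusedSectionVars false

namespace Pool.Agent.H294P

open Polynomial NumberField Pointwise
open Pool.Agent.W569.FM

theorem G_pr {R k : Type*} [CommRing R] [Field k] (pr : R →+* k) (h2 : (2 : k) = 0) {b u z : R}
    (hb : pr b = 1) (hu : pr u = 1) (hz : pr z = 1) (d : ℕ) :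
    pr ((G b u 0 (d + 1)).eval z) = 0 := by
  have hstep : ∀ d : ℕ, (G b u 0 (d + 1)).eval z =
      ((G b u 0 d).eval z) ^ 2 + u * b ^ (2 ^ d - 1) * (G b u 0 d).eval z := by
    intro d
    rw [G]
    simp
  induction d with
  | zero =>
    have h0 : (G b u 0 0).eval z = z := by simp [G]
    rw [hstep, h0, map_add, map_pow, map_mul, map_mul, map_pow, hb, hu, hz]
    simp only [one_pow, mul_one]
    rw [one_add_one_eq_two, h2]
  | succ d ih =>
    rw [hstep, map_add, map_pow, map_mul, ih]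
    ring

section
variable {L : Type} [Field L] [NumberField L]

/-- conjugation of `X² + c` by `b (X - β)`, `β` a fixed point -/
theorem conj_β {b : ℤ} {c : ℚ} (hb0 : (b : L) ≠ 0) {β : L} (hβ : β ^ 2 + (c : L) = β) :
    (C (b : L) * X + C (-(b * β))).comp (X ^ 2 + C (c : L)) =
      (gq (b : L) (2 * (b : L) * β) 0).comp (C (b : L) * X + C (-(b * β))) := by
  rw [gq]
  simp only [mul_comp, add_comp, pow_comp, C_comp, X_comp, C_0, add_zero]
  have e6 : (C (b : L)⁻¹ : L[X]) * C (b : L) = 1 := by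
    rw [← C_mul, inv_mul_cancel₀ hb0, C_1]
  have e7 : (C β : L[X]) ^ 2 + C (c : L) = C β := by
    rw [← C_pow, ← C_add, hβ]
  have e8 : (C (-(b * β)) : L[X]) = - (C (b : L) * C β) := by
    rw [C_neg, C_mul]
  have e9 : (C (2 * (b : L) * β) : L[X]) = 2 * C (b : L) * C β := by
    rw [C_mul, C_mul]
    rfl
  rw [e8, e9]
  calc _ = 1 * C (b : L) * (X ^ 2 + C (c : L) - C β) := by ring
    _ = (C (b : L)⁻¹ * C (b : L)) * C (b : L) * (X ^ 2 + C (c : L) - C β) := by rw [e6]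
    _ = _ := by linear_combination (C (b : L)⁻¹ * C (b : L) * C (b : L)) * e7

theorem eval_Bβ {b : ℤ} {c : ℚ} (hb0 : (b : L) ≠ 0) {β : L} (hβ : β ^ 2 + (c : L) = β)
    {U : 𝓞 L} (hU : (U : L) = 2 * (b : L) * β) (d : ℕ) (y : L) :
    ((B (b : 𝓞 L) U 0 d).map (algebraMap (𝓞 L) L)).eval ((b : L) * (y - β)) =
      (b : L) ^ (2 ^ d - 1) * ((b : L) * ((fL L c)^[d] y - y)) := by
  have e1 : algebraMap (𝓞 L) L (b : 𝓞 L) = (b : L) := map_intCast _ _
  have e2 : algebraMap (𝓞 L) L U = 2 * (b : L) * β := hU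
  have h1 := map_B (algebraMap (𝓞 L) L) (b : 𝓞 L) U 0 (by rw [e1]; exact hb0) d
  rw [h1, eval_mul, eval_C, e1, e2, map_zero]
  congr 1
  have h2 := congrArg (Polynomial.eval y) (conj_itX (conj_β hb0 hβ) d)
  have h3 : (C (b : L) * X + C (-(b * β))).eval y = (b : L) * (y - β) := by
    simp only [eval_add, eval_mul, eval_C, eval_X]
    ring
  have h4 : (C (b : L) * (it (X ^ 2 + C (c : L)) d - X)).eval y =
      (b : L) * ((fL L c)^[d] y - y) := by
    rw [eval_mul, eval_C, eval_sub, eval_X, eval_it, fL_eq]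
  rw [eval_comp, h4, h3] at h2
  exact h2

theorem exists_Z {b : ℤ} {c : ℚ} (hb0 : (b : L) ≠ 0) {β : L} (hβ : β ^ 2 + (c : L) = β)
    {U : 𝓞 L} (hU : (U : L) = 2 * (b : L) * β) {n : ℕ} (hn : n ≠ 0) (y : PL L c n) :
    ∃ z : 𝓞 L, (z : L) = (b : L) * (y.1 - β) := by
  have h1 := eval_Bβ hb0 hβ hU n y.1
  rw [PL_iter, sub_self, mul_zero, mul_zero] at h1
  have h2 : IsIntegral (𝓞 L) ((b : L) * (y.1 - β)) := by
    refine ⟨B (b : 𝓞 L) U 0 n, B_monic _ _ _ hn, ?_⟩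
    rw [eval₂_eq_eval_map]
    exact h1
  have h3 : IsIntegral ℤ ((b : L) * (y.1 - β)) := isIntegral_trans _ h2
  exact ⟨⟨_, h3⟩, rfl⟩

theorem exists_psi' {b : ℤ} (hb0 : (b : L) ≠ 0) (U : 𝓞 L) {n N j : ℕ} (hn : n = N * j)
    (hN : N ≠ 0) : ∃ ψ : (𝓞 L)[X], B (b : 𝓞 L) U 0 n = B (b : 𝓞 L) U 0 N * ψ := by
  have hinj : Function.Injective (algebraMap (𝓞 L) L) := RingOfIntegers.coe_injective
  have e1 : algebraMap (𝓞 L) L (b : 𝓞 L) = (b : L) := map_intCast _ _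
  have hb0' : algebraMap (𝓞 L) L (b : 𝓞 L) ≠ 0 := by rw [e1]; exact hb0
  have h1 : (B (b : 𝓞 L) U 0 N).map (algebraMap (𝓞 L) L) ∣
      (B (b : 𝓞 L) U 0 n).map (algebraMap (𝓞 L) L) := by
    rw [map_B _ _ _ _ hb0', map_B _ _ _ _ hb0', hn, it_mul]
    have h2 : IsUnit (C (algebraMap (𝓞 L) L (b : 𝓞 L) ^ (2 ^ N - 1)) : L[X]) := by
      rw [isUnit_C]
      exact (pow_ne_zero _ hb0').isUnit
    obtain ⟨u, hu⟩ := h2
    rw [← hu, Units.mul_left_dvd]
    exact dvd_mul_of_dvd_right (it_dvd _ _) _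
  rw [Polynomial.map_dvd_map _ hinj (B_monic _ _ _ hN)] at h1
  exact h1

end

end Pool.Agent.H294P
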