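import Pool.Agent.H294P.Tws2

/-!
The strong form of the exclusion at the prime 2: the main theorem.
-/

set_option autoImplicit false
set_option maxHeartbeats 1000000
set_option linter.unusedSectionVars false

namespace Pool.Agent.H294P

open Polynomial NumberField Pointwise
open Pool.Agent.W569.FM

theorem card_stab {L : Type} [Field L] [NumberField L] (I : Subgroup Gal(L/ℚ)) {β : L} {c : ℚ}
    (hβ : β ^ 2 + (c : L) = β) : ∃ J : Subgroup Gal(L/ℚ), J ≤ I ∧ (∀ τ ∈ J, τ β = β) ∧
      Nat.card I ≤ 2 * Nat.card J := by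
  classical
  have hτ : ∀ τ : Gal(L/ℚ), τ β = β ∨ τ β = 1 - β := by
    intro τ
    have h1 := congrArg τ hβ
    rw [map_add, map_pow, map_ratCast] at h1
    have h2 : (τ β - β) * (τ β - (1 - β)) = 0 := by linear_combination h1 - hβ
    rcases mul_eq_zero.1 h2 with h3 | h3
    · exact Or.inl (sub_eq_zero.1 h3)
    · exact Or.inr (sub_eq_zero.1 h3)
  by_cases hall : ∀ τ ∈ I, τ β = β
  · exact ⟨I, le_refl _, hall, by omega⟩
  push Not at hall
  obtain ⟨τ₀, hτ₀, hτβ⟩ := hall
  set J : Subgroup Gal(L/ℚ) := I ⊓ MulAction.stabilizer Gal(L/ℚ) β with hJ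
  have memJ : ∀ τ : Gal(L/ℚ), τ ∈ J ↔ τ ∈ I ∧ τ β = β := by
    intro τ
    rw [hJ, Subgroup.mem_inf, MulAction.mem_stabilizer_iff]
    rfl
  refine ⟨J, inf_le_left, fun τ h => ((memJ τ).1 h).2, ?_⟩
  have hτ₀' : ∀ τ : Gal(L/ℚ), τ β ≠ β → (τ₀⁻¹ * τ) β = β := by
    intro τ h
    have h1 := (hτ τ).resolve_left h
    have h2 := (hτ τ₀).resolve_left hτβ
    have h3 : τ β = τ₀ β := by rw [h1, h2]
    change τ₀⁻¹ (τ β) = β
    rw [h3]
    change (τ₀⁻¹ * τ₀) β = β
    rw [inv_mul_cancel]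
    rfl
  let Φ : I → J ⊕ J := fun τ =>
    if h : τ.1 β = β then Sum.inl ⟨τ.1, (memJ _).2 ⟨τ.2, h⟩⟩
    else Sum.inr ⟨τ₀⁻¹ * τ.1, (memJ _).2 ⟨I.mul_mem (I.inv_mem hτ₀) τ.2, hτ₀' _ h⟩⟩
  have hΦ : Function.Injective Φ := by
    intro τ ρ h
    by_cases h1 : τ.1 β = β
    · by_cases h2 : ρ.1 β = β
      · simp only [Φ, dif_pos h1, dif_pos h2, Sum.inl.injEq, Subtype.mk.injEq] at h
        exact Subtype.ext h
      · simp [Φ, dif_pos h1, dif_neg h2] at h
    · by_cases h2 : ρ.1 β = β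
      · simp [Φ, dif_neg h1, dif_pos h2] at h
      · simp only [Φ, dif_neg h1, dif_neg h2, Sum.inr.injEq, Subtype.mk.injEq] at h
        exact Subtype.ext (mul_left_cancel h)
  have h3 := Nat.card_le_card_of_injective Φ hΦ
  rw [Nat.card_sum] at h3
  omega

theorem good_two_strong {l : ℕ} [Fact l.Prime] {c : ℚ} (hbad : 1 < padicNorm l (4 * c)) {a b : ℤ}
    (ha : Odd a) (hb : Odd b) (hc : (b : ℚ) * (4 * c) = a) {n N : ℕ} (hn : n = N + N)
    (hN : N = 2 ∨ 4 ∣ N) (hN0 : N ≠ 0) : Good c n := by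
  classical
  by_contra hG
  have h2p : Nat.Prime 2 := Nat.prime_two
  have := Fact.mk h2p
  have hn0 : n ≠ 0 := by omega
  have hb0 : b ≠ 0 := by
    rintro rfl
    exact (by decide : ¬ Odd (0 : ℤ)) hb
  obtain ⟨L, _, _, _, hs⟩ := exists_galois (it (X ^ 2 + C c) n - X : ℚ[X])
  have hbL : (b : L) ≠ 0 := by exact_mod_cast hb0
  -- a fixed point
  obtain ⟨β, hβ⟩ : ∃ β : L, β ^ 2 + (c : L) = β := by
    have h0 : (it (X ^ 2 + C c) n - X : ℚ[X]) ≠ 0 := itX_ne_zero natDegree_X_pow_add_C hn0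
    have hd : ((X ^ 2 + C c - X : ℚ[X]).map (algebraMap ℚ L)).Splits := by
      apply hs.of_dvd (by
        rw [Polynomial.map_ne_zero_iff (algebraMap ℚ L).injective]
        exact h0)
      apply Polynomial.map_dvd
      exact it_dvd _ _
    have hdeg : ((X ^ 2 + C c - X : ℚ[X]).map (algebraMap ℚ L)).degree ≠ 0 := by
      rw [degree_map]
      have : (X ^ 2 + C c - X : ℚ[X]).degree = 2 := by compute_degree!
      rw [this]
      norm_num
    obtain ⟨β, hβ⟩ := hd.exists_eval_eq_zero hdeg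
    refine ⟨β, ?_⟩
    simp only [Polynomial.map_sub, Polynomial.map_add, Polynomial.map_pow, map_X, map_C,
      eval_sub, eval_add, eval_pow, eval_X, eval_C, eq_ratCast] at hβ
    linear_combination hβ
  have hcL : (b : L) * (4 * (c : L)) = (a : L) := by
    have := congrArg (fun q : ℚ => (q : L)) hc
    push_cast at this
    exact this
  have hU2 : (2 * (b : L) * β) ^ 2 = 2 * (b : L) * (2 * (b : L) * β) - (a : L) * b := by
    rw [← hcL]
    linear_combination (4 * (b : L) ^ 2) * hβ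
  have hUint : IsIntegral ℤ (2 * (b : L) * β) := by
    refine ⟨X ^ 2 + (C (a * b) - C (2 * b) * X), ?_, ?_⟩
    · apply (monic_X_pow 2).add_of_left
      rw [degree_X_pow]
      refine lt_of_le_of_lt (b := (1 : WithBot ℕ)) ?_ (by norm_num)
      compute_degree
    · simp only [eval₂_add, eval₂_sub, eval₂_pow, eval₂_mul, eval₂_X, eval₂_C]
      simp only [eq_intCast]
      push_cast
      linear_combination hU2
  obtain ⟨U, hU⟩ : ∃ U : 𝓞 L, (U : L) = 2 * (b : L) * β := ⟨⟨_, hUint⟩, rfl⟩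
  have hUO : U ^ 2 = 2 * (b : 𝓞 L) * U - (a : 𝓞 L) * b := by
    apply RingOfIntegers.ext
    have e1 : ((U ^ 2 : 𝓞 L) : L) = (U : L) ^ 2 := by simp
    have e2 : ((2 * (b : 𝓞 L) * U - (a : 𝓞 L) * b : 𝓞 L) : L) =
        2 * (b : L) * (U : L) - (a : L) * b := by
      change algebraMap (𝓞 L) L (2 * (b : 𝓞 L) * U - (a : 𝓞 L) * b) = _
      rw [map_sub, map_mul, map_mul, map_mul, map_ofNat, map_intCast, map_intCast]
    rw [e1, e2, hU]
    exact hU2
  obtain ⟨P, hP, hpP, σ, hσ⟩ := exists_frob L 2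
  have h2P : (2 : 𝓞 L) ∈ P := by exact_mod_cast hpP
  have hP0 : P ≠ ⊥ := by
    rintro rfl
    rw [Ideal.mem_bot] at hpP
    exact h2p.ne_zero (by exact_mod_cast hpP)
  have hfin := PL_finite (L := L) c hn0
  set I : Subgroup Gal(L/ℚ) := P.inertia Gal(L/ℚ) with hI
  obtain ⟨J, hJI, hJβ, hcard⟩ := card_stab I hβ
  choose z hz using fun y : PL L c n => exists_Z hbL hβ hU hn0 y
  have hzsmul : ∀ τ : Gal(L/ℚ), τ β = β → ∀ y : PL L c n, τ • z y = z (τ • y) := by
    intro τ hτ y
    apply RingOfIntegers.ext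
    rw [hz]
    change τ (z y : L) = (b : L) * (τ y.1 - β)
    rw [hz, map_mul, map_sub, map_intCast, hτ]
  have hzinj : Function.Injective z := by
    intro y y' h
    apply Subtype.ext
    have h1 := congrArg (fun w : 𝓞 L => (w : L)) h
    simp only [hz] at h1
    have h2 := mul_left_cancel₀ hbL h1
    exact sub_left_injective h2
  -- the residue field
  let _ : Field (𝓞 L ⧸ P) := Ideal.Quotient.field P
  set pr : 𝓞 L →+* 𝓞 L ⧸ P := Ideal.Quotient.mk P with hpr
  have h20 : (2 : 𝓞 L ⧸ P) = 0 := by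
    have := Ideal.Quotient.eq_zero_iff_mem.2 h2P
    rwa [map_ofNat] at this
  have hodd : ∀ m : ℤ, Odd m → pr (m : 𝓞 L) = 1 := by
    rintro m ⟨t, rfl⟩
    push_cast
    rw [map_add, map_mul, map_one, map_ofNat, h20, zero_mul, zero_add]
  have hprU : pr U = 1 := by
    have h1 := congrArg pr hUO
    rw [map_pow, map_sub, map_mul, map_mul, map_mul, map_ofNat, h20, hodd a ha, hodd b hb] at h1
    have h3 : (pr U - 1) ^ 2 = 0 := by
      linear_combination h1 + (- pr U) * h20
    exact sub_eq_zero.1 (pow_eq_zero_iff two_ne_zero |>.1 h3)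
  have hIpr : ∀ ι ∈ I, ∀ w : 𝓞 L, pr (ι • w) = pr w := by
    intro ι hι w
    rw [hpr, Ideal.Quotient.mk_eq_mk_iff_sub_mem]
    exact hι w
  -- evaluation
  have hev : ∀ (d : ℕ) (w : PL L c n), algebraMap (𝓞 L) L ((B (b : 𝓞 L) U 0 d).eval (z w)) =
      (b : L) ^ (2 ^ d - 1) * ((b : L) * ((fL L c)^[d] w.1 - w.1)) := by
    intro d w
    rw [← eval_Bβ hbL hβ hU d w.1, ← hz w, ← Polynomial.eval_map_apply]
  have hroot : ∀ w : PL L c n, (B (b : 𝓞 L) U 0 n).eval (z w) = 0 := by
    intro w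
    apply RingOfIntegers.coe_injective
    rw [hev, PL_iter, sub_self, mul_zero, mul_zero, map_zero]
  have hσβ : σ β = β ∨ σ β = 1 - β := by
    have h1 := congrArg σ hβ
    rw [map_add, map_pow, map_ratCast] at h1
    have h2 : (σ β - β) * (σ β - (1 - β)) = 0 := by linear_combination h1 - hβ
    rcases mul_eq_zero.1 h2 with h3 | h3
    · exact Or.inl (sub_eq_zero.1 h3)
    · exact Or.inr (sub_eq_zero.1 h3)
  -- points fixed by an element of the coset reduce to `0`
  have hz0 : ∀ y : PL L c n, (∃ ι ∈ J, (σ * ι) • y = y) → z y ∈ P := by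
    rintro y ⟨ι, hι, hy⟩
    have h1 : pr ((σ * ι) • z y) = pr (z y) ^ 2 := by
      have h3 := Ideal.Quotient.eq_zero_iff_mem.2 (hσ (ι • z y))
      rw [map_sub, map_pow, sub_eq_zero, ← mul_smul] at h3
      change pr ((σ * ι) • z y) = pr (ι • z y) ^ 2 at h3
      rw [hIpr ι (hJI hι)] at h3
      exact h3
    have hy1 : σ (ι y.1) = y.1 := congrArg Subtype.val hy
    have h2 : pr (z y) ^ 2 = pr (z y) := by
      rw [← h1]
      rcases hσβ with h | h
      · congr 1
        apply RingOfIntegers.ext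
        change σ (ι (z y : L)) = (z y : L)
        rw [hz, map_mul, map_sub, map_intCast, hJβ ι hι, map_mul, map_sub, map_intCast, h, hy1]
      · have h4 : (σ * ι) • z y = z y + U - (b : 𝓞 L) := by
          apply RingOfIntegers.ext
          change σ (ι (z y : L)) = ((z y + U - (b : 𝓞 L) : 𝓞 L) : L)
          have e3 : ((z y + U - (b : 𝓞 L) : 𝓞 L) : L) = (z y : L) + (U : L) - (b : L) := by simp
          rw [e3, hz, map_mul, map_sub, map_intCast, hJβ ι hι, map_mul, map_sub, map_intCast, h,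
            hy1, hU]
          ring
        rw [h4, map_sub, map_add, hprU, hodd b hb]
        ring
    have h3 : pr (z y) * (pr (z y) - 1) = 0 := by linear_combination h2
    rcases mul_eq_zero.1 h3 with h4 | h4
    · exact Ideal.Quotient.eq_zero_iff_mem.1 h4
    · exfalso
      have h5 : pr (z y) = 1 := sub_eq_zero.1 h4
      have h6 := congrArg pr (hroot y)
      obtain ⟨n', hn'⟩ := Nat.exists_eq_succ_of_ne_zero hn0
      rw [B, eval_sub, map_sub, hn', Nat.succ_eq_add_one, G_pr pr h20 (hodd b hb) hprU h5,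
        eval_mul, eval_C, eval_X, map_mul, map_pow, hodd b hb, h5, map_zero] at h6
      simp at h6
  -- the count
  let _ := Fintype.ofFinite (PL L c n)
  let f : PL L c n → MulAction.orbitRel.Quotient J (PL L c n) := fun y => Quotient.mk'' y
  have hfeq : ∀ y y' : PL L c n, f y = f y' ↔ ∃ ι ∈ J, ι • y = y' := by
    intro y y'
    have h1 : f y = f y' ↔ y ∈ MulAction.orbit J y' := by
      rw [← MulAction.orbitRel_apply]
      exact Quotient.eq''
    rw [h1]
    constructor
    · rintro ⟨ι, hι⟩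
      refine ⟨ι.1⁻¹, J.inv_mem ι.2, ?_⟩
      rw [← hι]
      exact inv_smul_smul ι.1 y'
    · rintro ⟨ι, hι, rfl⟩
      exact ⟨⟨ι⁻¹, J.inv_mem hι⟩, inv_smul_smul ι y⟩
  set K : Finset (MulAction.orbitRel.Quotient J (PL L c n)) :=
    (Finset.univ.filter (fun y : PL L c n => ∃ ι ∈ J, (σ * ι) • y = y)).image f with hK
  have hle : n ≤ K.card := by
    refine coset_count J σ (fun ι _ => fix_count hbad hn0 hG hs (σ * ι)) f K ?_ ?_
    · intro y hy
      rw [hK, Finset.mem_image]
      exact ⟨y, Finset.mem_filter.2 ⟨Finset.mem_univ _, hy⟩, rfl⟩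
    · intro y y' _ _ h
      exact (hfeq y y').1 h
  set T : Finset (PL L c n) := Finset.univ.filter (fun y => f y ∈ K) with hT
  have hclass : ∀ k ∈ K, ∏ y ∈ T.filter (fun y => f y = k), (0 - z y) ∈ P ^ (Nat.card J) := by
    intro k hk
    have hk' := hk
    rw [hK, Finset.mem_image] at hk
    obtain ⟨y, hy, hyk⟩ := hk
    rw [Finset.mem_filter] at hy
    have memTk : ∀ w : PL L c n, w ∈ T.filter (fun y => f y = k) ↔ f w = k := by
      intro w
      rw [Finset.mem_filter, hT, Finset.mem_filter]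
      constructor
      · exact fun h => h.2
      · intro h
        exact ⟨⟨Finset.mem_univ _, by rw [h]; exact hk'⟩, h⟩
    apply mem_pow_card P hP0 J hJI
    · have hw1 : y ∈ T.filter (fun y => f y = k) := (memTk y).2 hyk
      have hw2 : 0 - z y ∈ P := by
        rw [zero_sub]
        exact P.neg_mem (hz0 y hy.2)
      exact Ideal.mem_of_dvd P (Finset.dvd_prod_of_mem _ hw1) hw2
    · intro τ hτ
      rw [Finset.smul_prod']
      have h5 : ∀ v : PL L c n, τ • (0 - z v) = 0 - z (τ • v) := by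
        intro v
        rw [smul_sub, hzsmul τ (hJβ τ hτ), smul_zero]
      rw [Finset.prod_congr rfl fun v _ => h5 v]
      refine Finset.prod_bijective (fun v => τ • v) (MulAction.bijective τ) ?_ ?_
      · intro v
        rw [memTk, memTk]
        have h6 : f v = f (τ • v) := (hfeq _ _).2 ⟨τ, hτ, rfl⟩
        rw [h6]
      · intro v _
        rfl
  -- the product
  obtain ⟨ψ, hψ⟩ := exists_psi' (b := b) hbL U (show n = N * 2 by omega) hN0
  have hprod : ∏ y ∈ T, (0 - z y) ∈ P ^ (Nat.card J * K.card) := by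
    have h1 : ∏ y ∈ T, (0 - z y) = ∏ k ∈ K, ∏ y ∈ T.filter (fun y => f y = k), (0 - z y) := by
      rw [Finset.prod_fiberwise_of_maps_to]
      intro y hy
      rw [hT, Finset.mem_filter] at hy
      exact hy.2
    rw [h1, pow_mul, ← Finset.prod_const]
    exact Ideal.prod_mem_prod hclass
  have hdvd : ∏ y ∈ T, (0 - z y) ∣ ψ.eval 0 := by
    have hψ0 : ψ ≠ 0 := by
      rintro rfl
      rw [mul_zero] at hψ
      exact (B_monic (b : 𝓞 L) U 0 hn0).ne_zero hψ
    have hrootψ : ∀ w : PL L c n, ψ.eval (z w) = 0 := by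
      intro w
      have h7 := hroot w
      rw [hψ, eval_mul] at h7
      refine (mul_eq_zero.1 h7).resolve_left ?_
      intro h8
      have h9 := hev N w
      rw [h8, map_zero] at h9
      have h10 : (b : L) ^ (2 ^ N - 1) * ((b : L) * ((fL L c)^[N] w.1 - w.1)) ≠ 0 := by
        apply mul_ne_zero (pow_ne_zero _ hbL)
        apply mul_ne_zero hbL
        rw [sub_ne_zero]
        intro h11
        have h12 : n ∣ N := by
          have := Function.IsPeriodicPt.minimalPeriod_dvd (f := fL L c) (x := w.1) (n := N) h11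
          rwa [w.2] at this
        have h13 := Nat.le_of_dvd (Nat.pos_of_ne_zero hN0) h12
        omega
      exact h10 h9.symm
    have h9 : ((T.val.map z).map (fun r => X - C r)).prod ∣ ψ := by
      rw [Multiset.prod_X_sub_C_dvd_iff_le_roots hψ0]
      rw [Multiset.le_iff_subset (Multiset.Nodup.map hzinj T.nodup)]
      intro r hr
      rw [Multiset.mem_map] at hr
      obtain ⟨w, _, rfl⟩ := hr
      rw [mem_roots hψ0]
      exact hrootψ w
    have h10 := Polynomial.eval_dvd (x := (0 : 𝓞 L)) h9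
    refine dvd_trans (dvd_of_eq ?_) h10
    rw [Multiset.map_map]
    change _ = eval (0 : 𝓞 L) (∏ w ∈ T, (X - C (z w)))
    rw [eval_prod]
    apply Finset.prod_congr rfl
    intro w _
    simp
  have hcpos : 0 < Nat.card I := Nat.card_pos
  have hmem : ψ.eval 0 ∈ P ^ (Nat.card I + Nat.card I) := by
    apply Ideal.pow_le_pow_right _ (Ideal.mem_of_dvd _ hdvd hprod)
    have h4 : 4 ≤ K.card := by
      rcases hN with h | h
      · omega
      · obtain ⟨q, rfl⟩ := h
        omega
    calc Nat.card I + Nat.card I ≤ Nat.card J * 4 := by omega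
      _ ≤ _ := Nat.mul_le_mul_left _ h4
  -- the multiplier
  have hne : U ^ N ≠ (b : 𝓞 L) ^ N := by
    intro h
    have h1 : ((U ^ N : 𝓞 L) : L) = (((b : 𝓞 L) ^ N : 𝓞 L) : L) := by rw [h]
    have h2 : (2 * (b : L) * β) ^ N = (b : L) ^ N := by
      have e1 : ((U ^ N : 𝓞 L) : L) = (U : L) ^ N := by simp
      have e2 : (((b : 𝓞 L) ^ N : 𝓞 L) : L) = (b : L) ^ N := by simp
      rw [e1, e2, hU] at h1
      exact h1
    have h3 : (2 * β) ^ N = 1 := by
      have h4 : (b : L) ^ N * (2 * β) ^ N = (b : L) ^ N * 1 := by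
        rw [← mul_pow, mul_one, ← h2]
        congr 1
        ring
      exact mul_left_cancel₀ (pow_ne_zero _ hbL) h4
    obtain ⟨i, _⟩ := lift_GF ℚ L
    have h5 : (it (X ^ 2 + C (c : QB)) 1).eval (i β) = i β := by
      rw [it_one]
      simp only [eval_add, eval_pow, eval_X, eval_C]
      have := congrArg i hβ
      rwa [map_add, map_pow, map_ratCast] at this
    apply mult_ne hbad one_ne_zero hN0 h5
    rw [it_one]
    have h6 : (derivative (X ^ 2 + C (c : QB))).eval (i β) = i (2 * β) := by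
      rw [map_mul, map_ofNat]
      simp
      norm_num
    rw [h6, ← map_pow, h3, map_one]
  have hψz := psi_zero hne (hn ▸ hψ)
  have hbP : (b : 𝓞 L) ∉ P := by
    intro h
    have h1 := Ideal.Quotient.eq_zero_iff_mem.2 h
    change pr (b : 𝓞 L) = 0 at h1
    rw [hodd b hb] at h1
    exact one_ne_zero h1
  have hV : U ^ N + (b : 𝓞 L) ^ N ∈ P ^ (Nat.card I + Nat.card I) := by
    have h1 : (b : 𝓞 L) ^ (2 ^ (N + N) - 1 - (N + N)) * (U ^ N + (b : 𝓞 L) ^ N) ∈
        P ^ (Nat.card I + Nat.card I) := by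
      rw [← hψz]
      exact Ideal.mul_mem_left _ _ hmem
    refine (hP.mul_mem_pow P h1).resolve_left ?_
    intro h2
    exact hbP (hP.isPrime.mem_of_pow_mem _ h2)
  refine V_not_mem hP hP0 h2P hcpos ?_ ?_ ha hb hUO hN hV
  · apply mem_pow_card P hP0 I (le_refl _) h2P
    intro τ _
    have := map_ofNat (MulSemiringAction.toRingHom Gal(L/ℚ) (𝓞 L) τ) 2
    exact this
  · have := not_mem_pow_card 2 P hpP
    exact_mod_cast this

end Pool.Agent.H294P
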